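import Mathlib

set_option autoImplicit false

/-!
# The torus `(ℝ/ℤ)^d` as a smooth manifold, and vector fields on it coming from periodic fields.
-/

namespace Pool.Agent.MP_1a349f_an

open Set Filter Topology
open scoped Manifold ContDiff

/-- The `d`-dimensional torus. -/
abbrev Torus (d : ℕ) : Type := Fin d → UnitAddCircle

/-- The covering map from `ℝ^d`. -/
def cov {d : ℕ} (x : Fin d → ℝ) : Torus d := fun i => (x i : UnitAddCircle)

theorem continuous_cov {d : ℕ} : Continuous (cov : (Fin d → ℝ) → Torus d) :=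
  continuous_pi fun i => (AddCircle.continuous_mk' (1 : ℝ)).comp (continuous_apply i)

/-- The integer translate of a point. -/
def tr {d : ℕ} (k : Fin d → ℤ) (x : Fin d → ℝ) : Fin d → ℝ := fun i => x i + k i

theorem cov_tr {d : ℕ} (k : Fin d → ℤ) (x : Fin d → ℝ) : cov (tr k x) = cov x := by
  funext i
  change ((x i + k i : ℝ) : UnitAddCircle) = (x i : UnitAddCircle)
  rw [AddCircle.coe_add]
  have : ((k i : ℝ) : UnitAddCircle) = 0 := by
    rw [AddCircle.coe_eq_zero_iff]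
    exact ⟨k i, by simp⟩
  rw [this, add_zero]

theorem cov_eq_cov_iff {d : ℕ} {x y : Fin d → ℝ} :
    cov x = cov y ↔ ∃ k : Fin d → ℤ, y = tr k x := by
  constructor
  · intro h
    have h1 : ∀ i, ∃ k : ℤ, y i = x i + k := by
      intro i
      have h2 : (x i : UnitAddCircle) = (y i : UnitAddCircle) := congrFun h i
      have h3 : ((y i - x i : ℝ) : UnitAddCircle) = 0 := by
        rw [AddCircle.coe_sub, h2, sub_self]
      rw [AddCircle.coe_eq_zero_iff] at h3
      obtain ⟨n, hn⟩ := h3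
      refine ⟨n, ?_⟩
      have h4 : (n : ℝ) = y i - x i := by simpa using hn
      rw [h4]; ring
    choose k hk using h1
    exact ⟨k, funext hk⟩
  · rintro ⟨k, rfl⟩
    exact (cov_tr k x).symm

theorem continuous_tr {d : ℕ} (k : Fin d → ℤ) : Continuous (tr k) :=
  continuous_pi fun i => (continuous_apply i).add continuous_const

/-- A lift of a point of the torus. -/
noncomputable def lift {d : ℕ} (m : Torus d) : Fin d → ℝ :=
  fun i => (AddCircle.equivIco (1 : ℝ) 0 (m i) : ℝ)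

theorem cov_lift {d : ℕ} (m : Torus d) : cov (lift m) = m := by
  funext i
  exact (AddCircle.equivIco (1 : ℝ) 0).symm_apply_apply (m i)

theorem cov_surjective {d : ℕ} : Function.Surjective (cov : (Fin d → ℝ) → Torus d) :=
  fun m => ⟨lift m, cov_lift m⟩

/-- The chart inverse to the covering map on the open unit cube based at `a`. -/
noncomputable def cubeChart {d : ℕ} (a : Fin d → ℝ) : OpenPartialHomeomorph (Torus d) (Fin d → ℝ) :=
  (OpenPartialHomeomorph.pi fun i => AddCircle.openPartialHomeomorphCoe (1 : ℝ) (a i)).symm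

theorem cubeChart_target {d : ℕ} (a : Fin d → ℝ) :
    (cubeChart a).target = {x | ∀ i, x i ∈ Ioo (a i) (a i + 1)} := by
  ext x
  simp [cubeChart, Set.mem_pi]

theorem cubeChart_symm {d : ℕ} (a x : Fin d → ℝ) : (cubeChart a).symm x = cov x := rfl

theorem cov_mem_source {d : ℕ} (a x : Fin d → ℝ) (h : ∀ i, x i ∈ Ioo (a i) (a i + 1)) :
    cov x ∈ (cubeChart a).source := by
  have : x ∈ (cubeChart a).target := by rw [cubeChart_target]; exact h
  exact (cubeChart a).map_target this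

theorem cubeChart_cov {d : ℕ} (a x : Fin d → ℝ) (h : ∀ i, x i ∈ Ioo (a i) (a i + 1)) :
    cubeChart a (cov x) = x := by
  have : x ∈ (cubeChart a).target := by rw [cubeChart_target]; exact h
  exact (cubeChart a).right_inv this

theorem cov_cubeChart {d : ℕ} (a : Fin d → ℝ) (m : Torus d) (h : m ∈ (cubeChart a).source) :
    cov (cubeChart a m) = m := (cubeChart a).left_inv h

/-- In the charts the covering map is locally an integer translation. -/
theorem cubeChart_cov_eventually {d : ℕ} (a x : Fin d → ℝ) (h : cov x ∈ (cubeChart a).source) :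
    ∃ k : Fin d → ℤ, ∀ᶠ y in 𝓝 x, cubeChart a (cov y) = tr k y := by
  have h1 : cov (cubeChart a (cov x)) = cov x := cov_cubeChart a _ h
  obtain ⟨k, hk⟩ := cov_eq_cov_iff.1 h1.symm
  refine ⟨k, ?_⟩
  have h2 : tr k x ∈ (cubeChart a).target := by
    rw [← hk]; exact (cubeChart a).map_source h
  have h3 : ∀ᶠ y in 𝓝 x, tr k y ∈ (cubeChart a).target :=
    (continuous_tr k).continuousAt.eventually ((cubeChart a).open_target.mem_nhds h2)
  filter_upwards [h3] with y hy
  rw [← cov_tr k y]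
  exact (cubeChart a).right_inv hy

noncomputable instance instChartedSpaceTorus (d : ℕ) : ChartedSpace (Fin d → ℝ) (Torus d) where
  atlas := Set.range cubeChart
  chartAt m := cubeChart fun i => lift m i - 1 / 2
  mem_chart_source m := by
    have h := cov_mem_source (fun i => lift m i - 1 / 2) (lift m)
      (fun i => ⟨by linarith, by linarith⟩)
    rwa [cov_lift] at h
  chart_mem_atlas m := Set.mem_range_self _

theorem chartAt_eq {d : ℕ} (m : Torus d) :
    chartAt (Fin d → ℝ) m = cubeChart fun i => lift m i - 1 / 2 := rfl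

theorem contDiff_tr {d : ℕ} (k : Fin d → ℤ) {n : WithTop ℕ∞} : ContDiff ℝ n (tr k) :=
  contDiff_pi.2 fun i => (contDiff_apply ℝ ℝ i).add contDiff_const

theorem hasFDerivAt_tr {d : ℕ} (k : Fin d → ℤ) (x : Fin d → ℝ) :
    HasFDerivAt (tr k) (ContinuousLinearMap.id ℝ (Fin d → ℝ)) x := by
  have h : tr k = fun y : Fin d → ℝ => y + fun i => (k i : ℝ) := rfl
  rw [h]
  exact (hasFDerivAt_id x).add_const _

instance instIsManifoldTorus (d : ℕ) : IsManifold 𝓘(ℝ, Fin d → ℝ) ∞ (Torus d) := by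
  apply isManifold_of_contDiffOn
  rintro _ _ ⟨a, rfl⟩ ⟨a', rfl⟩
  simp only [modelWithCornersSelf_coe, modelWithCornersSelf_coe_symm, Function.id_comp,
    Function.comp_id, preimage_id_eq, id_eq, range_id, inter_univ]
  intro x hx
  have hx' : cov x ∈ (cubeChart a').source := by
    have := hx.2
    exact this
  obtain ⟨k, hk⟩ := cubeChart_cov_eventually a' x hx'
  have h1 : ContDiffAt ℝ ∞ (tr k) x := (contDiff_tr k).contDiffAt
  exact (h1.congr_of_eventuallyEq hk).contDiffWithinAt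

/-! ### Vector fields -/

/-- A map on `ℝ^d` which is invariant under integer translations. -/
def Per {d : ℕ} {F : Type*} (V : (Fin d → ℝ) → F) : Prop := ∀ k x, V (tr k x) = V x

/-- The vector field on the torus induced by a periodic vector field on `ℝ^d`. -/
noncomputable def field {d : ℕ} (V : (Fin d → ℝ) → (Fin d → ℝ)) (m : Torus d) :
    TangentSpace 𝓘(ℝ, Fin d → ℝ) m := V (lift m)

theorem field_cov {d : ℕ} {V : (Fin d → ℝ) → (Fin d → ℝ)} (hV : Per V) (x : Fin d → ℝ) :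
    field V (cov x) = V x := by
  obtain ⟨k, hk⟩ := cov_eq_cov_iff.1 (cov_lift (cov x)).symm
  change V (lift (cov x)) = V x
  rw [hk, hV]

theorem cov_eventuallyEq {d : ℕ} (a : Fin d → ℝ) (m : Torus d) (h : m ∈ (cubeChart a).source) :
    ∀ᶠ m' in 𝓝 m, cov (cubeChart a m') = m' := by
  filter_upwards [(cubeChart a).open_source.mem_nhds h] with m' hm'
  exact cov_cubeChart a m' hm'

theorem hasMFDerivAt_cov {d : ℕ} (x : Fin d → ℝ) :
    HasMFDerivAt 𝓘(ℝ, Fin d → ℝ) 𝓘(ℝ, Fin d → ℝ) (cov : (Fin d → ℝ) → Torus d) x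
      (ContinuousLinearMap.id ℝ (Fin d → ℝ)) := by
  refine ⟨continuous_cov.continuousAt, ?_⟩
  have hsrc : cov x ∈ (chartAt (Fin d → ℝ) (cov x)).source := mem_chart_source _ _
  rw [chartAt_eq] at hsrc
  obtain ⟨k, hk⟩ := cubeChart_cov_eventually _ x hsrc
  have h1 : HasFDerivAt (writtenInExtChartAt 𝓘(ℝ, Fin d → ℝ) 𝓘(ℝ, Fin d → ℝ) x
      (cov : (Fin d → ℝ) → Torus d)) (ContinuousLinearMap.id ℝ (Fin d → ℝ)) x := by
    refine (hasFDerivAt_tr k x).congr_of_eventuallyEq ?_
    filter_upwards [hk] with y hy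
    exact hy
  exact h1.hasFDerivWithinAt

theorem isMIntegralCurve_cov {d : ℕ} {V : (Fin d → ℝ) → (Fin d → ℝ)} (hV : Per V)
    (z : ℝ → (Fin d → ℝ)) (hz : ∀ t, HasDerivAt z (V (z t)) t) :
    IsMIntegralCurve (fun t => cov (z t)) (field V) := by
  intro t
  have h1 : HasMFDerivAt 𝓘(ℝ, ℝ) 𝓘(ℝ, Fin d → ℝ) z t
      (ContinuousLinearMap.smulRight (1 : ℝ →L[ℝ] ℝ) (V (z t))) := (hz t).hasFDerivAt.hasMFDerivAt
  have h2 := (hasMFDerivAt_cov (z t)).comp t h1
  rw [field_cov hV]
  exact h2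

theorem contMDiff_field {d : ℕ} {V : (Fin d → ℝ) → (Fin d → ℝ)} (hV : Per V)
    (hs : ContDiff ℝ ∞ V) :
    ContMDiff 𝓘(ℝ, Fin d → ℝ) 𝓘(ℝ, Fin d → ℝ).tangent ∞
      (fun m => (⟨m, field V m⟩ : TangentBundle 𝓘(ℝ, Fin d → ℝ) (Torus d))) := by
  intro m₀
  rw [Bundle.contMDiffAt_section]
  have h1 : ContMDiffAt 𝓘(ℝ, Fin d → ℝ) 𝓘(ℝ, Fin d → ℝ) ∞
      (fun m => V (chartAt (Fin d → ℝ) m₀ m)) m₀ :=
    hs.contMDiff.contMDiffAt.comp m₀ (contMDiffAt_of_mem_maximalAtlas
      (IsManifold.chart_mem_maximalAtlas m₀) (mem_chart_source _ m₀))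
  refine h1.congr_of_eventuallyEq ?_
  have hsrc : m₀ ∈ (chartAt (Fin d → ℝ) m₀).source := mem_chart_source _ _
  filter_upwards [(chartAt (Fin d → ℝ) m₀).open_source.mem_nhds hsrc] with m hm
  rw [TangentBundle.trivializationAt_apply]
  have h2 : field V m = V (chartAt (Fin d → ℝ) m₀ m) := by
    have h3 : cov (chartAt (Fin d → ℝ) m₀ m) = m := cov_cubeChart _ m hm
    conv_lhs => rw [← h3]
    exact field_cov hV _
  rw [← h2]
  have hsrc' : m ∈ (chartAt (Fin d → ℝ) m).source := mem_chart_source _ _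
  set x : Fin d → ℝ := chartAt (Fin d → ℝ) m m with hx
  have hxm : cov x = m := cov_cubeChart _ m hsrc'
  have h4 : cov x ∈ (chartAt (Fin d → ℝ) m₀).source := by rw [hxm]; exact hm
  obtain ⟨k, hk⟩ := cubeChart_cov_eventually _ x h4
  have h5 : HasFDerivAt ((chartAt (Fin d → ℝ) m₀).extend 𝓘(ℝ, Fin d → ℝ) ∘
      ((chartAt (Fin d → ℝ) m).extend 𝓘(ℝ, Fin d → ℝ)).symm)
      (ContinuousLinearMap.id ℝ (Fin d → ℝ)) x := by
    refine (hasFDerivAt_tr k x).congr_of_eventuallyEq ?_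
    filter_upwards [hk] with y hy
    exact hy
  have h6 : fderivWithin ℝ ((chartAt (Fin d → ℝ) m₀).extend 𝓘(ℝ, Fin d → ℝ) ∘
      ((chartAt (Fin d → ℝ) m).extend 𝓘(ℝ, Fin d → ℝ)).symm) (range 𝓘(ℝ, Fin d → ℝ))
      ((chartAt (Fin d → ℝ) m).extend 𝓘(ℝ, Fin d → ℝ) m)
      = ContinuousLinearMap.id ℝ (Fin d → ℝ) := by
    simp only [modelWithCornersSelf_coe, range_id, fderivWithin_univ]
    exact h5.fderiv
  change (fderivWithin ℝ ((chartAt (Fin d → ℝ) m₀).extend 𝓘(ℝ, Fin d → ℝ) ∘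
      ((chartAt (Fin d → ℝ) m).extend 𝓘(ℝ, Fin d → ℝ)).symm) (range 𝓘(ℝ, Fin d → ℝ))
      ((chartAt (Fin d → ℝ) m).extend 𝓘(ℝ, Fin d → ℝ) m)) (field V m) = field V m
  rw [h6]
  rfl

end Pool.Agent.MP_1a349f_an
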