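import Mathlib
import Pool.Agent.MP_1a349f_an.Torus

set_option autoImplicit false

/-!
# Global flows of smooth periodic vector fields on `ℝ^d`
-/

namespace Pool.Agent.MP_1a349f_an

open Set Filter Topology
open scoped Manifold ContDiff NNReal

/-- Every point is an integer translate of a point of the unit cube. -/
theorem exists_tr_mem_cube {d : ℕ} (x : Fin d → ℝ) :
    ∃ k : Fin d → ℤ, ∃ y ∈ Icc (0 : Fin d → ℝ) 1, x = tr k y := by
  refine ⟨fun i => ⌊x i⌋, fun i => Int.fract (x i), ⟨?_, ?_⟩, ?_⟩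
  · intro i; exact Int.fract_nonneg _
  · intro i; exact (Int.fract_lt_one _).le
  · funext i
    simp only [tr]
    exact (Int.fract_add_floor (x i)).symm

theorem Per.exists_bound {d : ℕ} {F : Type*} [NormedAddCommGroup F] {V : (Fin d → ℝ) → F}
    (hV : Per V) (hc : Continuous V) : ∃ C : ℝ≥0, ∀ x, ‖V x‖ ≤ C := by
  have h1 : IsCompact (Icc (0 : Fin d → ℝ) 1) := isCompact_Icc
  obtain ⟨C, hC⟩ := h1.exists_bound_of_continuousOn hc.continuousOn
  refine ⟨⟨max C 0, le_max_right _ _⟩, fun x => ?_⟩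
  obtain ⟨k, y, hy, rfl⟩ := exists_tr_mem_cube x
  rw [hV k y]
  exact (hC y hy).trans (le_max_left _ _)

theorem Per.fderiv {d : ℕ} {F : Type*} [NormedAddCommGroup F] [NormedSpace ℝ F]
    {V : (Fin d → ℝ) → F} (hV : Per V) : Per (fderiv ℝ V) := by
  intro k x
  have h : (fun y => V (y + fun i => (k i : ℝ))) = V := by
    funext y; exact hV k y
  have h2 := fderiv_comp_add_right (𝕜 := ℝ) (f := V) (x := x) (fun i => (k i : ℝ))
  rw [h] at h2
  exact h2.symm

theorem Per.exists_lipschitz {d : ℕ} {F : Type*} [NormedAddCommGroup F] [NormedSpace ℝ F]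
    {V : (Fin d → ℝ) → F} (hV : Per V) (hs : ContDiff ℝ 1 V) : ∃ K : ℝ≥0, LipschitzWith K V := by
  obtain ⟨C, hC⟩ := hV.fderiv.exists_bound (hs.continuous_fderiv one_ne_zero)
  exact ⟨C, lipschitzWith_of_nnnorm_fderiv_le (hs.differentiable one_ne_zero)
    (fun x => by exact_mod_cast hC x)⟩

/-- Smooth periodic vector fields. -/
structure Good {d : ℕ} (V : (Fin d → ℝ) → (Fin d → ℝ)) : Prop where
  contDiff : ContDiff ℝ ∞ V
  per : Per V

variable {d : ℕ} {V : (Fin d → ℝ) → (Fin d → ℝ)}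

theorem Good.exists_lipschitz (hV : Good V) : ∃ K : ℝ≥0, LipschitzWith K V :=
  hV.per.exists_lipschitz (hV.contDiff.of_le (by exact_mod_cast le_top))

theorem Good.exists_bound (hV : Good V) : ∃ C : ℝ≥0, ∀ x, ‖V x‖ ≤ C :=
  hV.per.exists_bound hV.contDiff.continuous

/-- Global integral curves exist for bounded Lipschitz `C^1` fields. -/
theorem exists_curve_general {E : Type*} [NormedAddCommGroup E] [NormedSpace ℝ E] [CompleteSpace E]
    (V : E → E) (hV : ContDiff ℝ 1 V) {K C : ℝ≥0} (hK : LipschitzWith K V)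
    (hC : ∀ x, ‖V x‖ ≤ C) (x : E) :
    ∃ γ : ℝ → E, γ 0 = x ∧ ∀ t, HasDerivAt γ (V (γ t)) t := by
  have hloc : ∀ x : E, ∃ γ : ℝ → E, γ 0 = x ∧
      IsMIntegralCurveOn (I := 𝓘(ℝ, E)) γ V (Ioo (-1) 1) := by
    intro x
    have hpl : IsPicardLindelof (fun _ => V) (tmin := -1) (tmax := 1)
        ⟨0, by constructor <;> norm_num⟩ x C 0 C K := by
      refine ⟨fun t _ => hK.lipschitzOnWith, fun y _ => continuousOn_const,
        fun t _ y _ => hC y, ?_⟩
      simp
    obtain ⟨γ, h0, hγ⟩ := hpl.exists_eq_forall_mem_Icc_hasDerivWithinAt₀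
    refine ⟨γ, h0, ?_⟩
    intro t ht
    have h1 := (hγ t (Ioo_subset_Icc_self ht)).hasDerivAt (Icc_mem_nhds ht.1 ht.2)
    exact h1.hasFDerivAt.hasMFDerivAt.hasMFDerivWithinAt
  let W : (x : E) → TangentSpace 𝓘(ℝ, E) x := V
  have hv : ContMDiff 𝓘(ℝ, E) 𝓘(ℝ, E).tangent 1
      (fun x ↦ (⟨x, W x⟩ : TangentBundle 𝓘(ℝ, E) E)) := by
    intro x
    rw [Bundle.contMDiffAt_section]
    have h1 : ContMDiffAt 𝓘(ℝ, E) 𝓘(ℝ, E) 1 V x := hV.contMDiff.contMDiffAt
    refine h1.congr_of_eventuallyEq (Eventually.of_forall fun y => ?_)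
    simp [W]
  obtain ⟨γ, h0, hγ⟩ := exists_isMIntegralCurve_of_isMIntegralCurveOn
    (I := 𝓘(ℝ, E)) (M := E) (v := W) hv one_pos hloc x
  refine ⟨γ, h0, fun t => ?_⟩
  have h0' : HasMFDerivAt 𝓘(ℝ, ℝ) 𝓘(ℝ, E) γ t
      (ContinuousLinearMap.smulRight (1 : ℝ →L[ℝ] ℝ) (V (γ t))) := hγ t
  have h1 : HasFDerivAt γ (ContinuousLinearMap.smulRight (1 : ℝ →L[ℝ] ℝ) (V (γ t))) t :=
    hasMFDerivAt_iff_hasFDerivAt.1 h0'
  simpa using h1.hasDerivAt

/-- Global integral curves exist. -/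
theorem Good.exists_curve (hV : Good V) (x : Fin d → ℝ) :
    ∃ γ : ℝ → (Fin d → ℝ), γ 0 = x ∧ ∀ t, HasDerivAt γ (V (γ t)) t := by
  obtain ⟨K, hK⟩ := hV.exists_lipschitz
  obtain ⟨C, hC⟩ := hV.exists_bound
  exact exists_curve_general V (hV.contDiff.of_le (by exact_mod_cast le_top)) hK hC x

open Classical in
/-- The flow of a vector field (when it exists). -/
noncomputable def flow (V : (Fin d → ℝ) → (Fin d → ℝ)) (t : ℝ) (x : Fin d → ℝ) : Fin d → ℝ :=
  if h : ∃ γ : ℝ → (Fin d → ℝ), γ 0 = x ∧ ∀ t, HasDerivAt γ (V (γ t)) t then h.choose t else x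

theorem Good.flow_zero (hV : Good V) (x : Fin d → ℝ) : flow V 0 x = x := by
  have h := hV.exists_curve x
  rw [flow, dif_pos h]
  exact h.choose_spec.1

theorem Good.hasDerivAt_flow (hV : Good V) (x : Fin d → ℝ) (t : ℝ) :
    HasDerivAt (fun s => flow V s x) (V (flow V t x)) t := by
  have h := hV.exists_curve x
  have h1 : (fun s => flow V s x) = h.choose := by
    funext s; rw [flow, dif_pos h]
  have h2 : flow V t x = h.choose t := by rw [flow, dif_pos h]
  rw [h1, h2]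
  exact h.choose_spec.2 t

/-- Uniqueness of integral curves. -/
theorem Good.unique (hV : Good V) {γ γ' : ℝ → (Fin d → ℝ)} (hγ : ∀ t, HasDerivAt γ (V (γ t)) t)
    (hγ' : ∀ t, HasDerivAt γ' (V (γ' t)) t) {t₀ : ℝ} (h : γ t₀ = γ' t₀) : γ = γ' := by
  obtain ⟨K, hK⟩ := hV.exists_lipschitz
  exact ODE_solution_unique_univ (v := fun _ => V) (s := fun _ => univ)
    (fun _ => hK.lipschitzOnWith) (fun t => ⟨hγ t, trivial⟩) (fun t => ⟨hγ' t, trivial⟩) h

theorem Good.eq_flow (hV : Good V) {γ : ℝ → (Fin d → ℝ)}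
    (hγ : ∀ t, HasDerivAt γ (V (γ t)) t) (t : ℝ) : γ t = flow V t (γ 0) :=
  congrFun (hV.unique hγ (hV.hasDerivAt_flow (γ 0)) (t₀ := 0) (hV.flow_zero _).symm) t

theorem Good.flow_add (hV : Good V) (s t : ℝ) (x : Fin d → ℝ) :
    flow V (s + t) x = flow V s (flow V t x) := by
  have h := hV.eq_flow (γ := fun s => flow V (s + t) x) (fun s => by
    exact (hV.hasDerivAt_flow x (s + t)).comp_add_const s t) s
  simpa using h

theorem Good.flow_neg (hV : Good V) (t : ℝ) (x : Fin d → ℝ) :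
    flow V (-t) (flow V t x) = x := by
  rw [← hV.flow_add, neg_add_cancel, hV.flow_zero]

theorem Good.flow_tr (hV : Good V) (k : Fin d → ℤ) (t : ℝ) (x : Fin d → ℝ) :
    flow V t (tr k x) = tr k (flow V t x) := by
  have h := hV.eq_flow (γ := fun s => tr k (flow V s x)) (fun s => by
    rw [hV.per]
    exact (hV.hasDerivAt_flow x s).add_const (fun i => (k i : ℝ))) t
  rw [hV.flow_zero] at h
  exact h.symm

theorem Good.continuous_flow (hV : Good V) (x : Fin d → ℝ) :
    Continuous fun t => flow V t x :=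
  continuous_iff_continuousAt.2 fun t => (hV.hasDerivAt_flow x t).continuousAt

/-- Points where the field vanishes are fixed. -/
theorem Good.flow_of_zero (hV : Good V) {x : Fin d → ℝ} (hx : V x = 0) (t : ℝ) :
    flow V t x = x := by
  have h := hV.eq_flow (γ := fun _ => x) (fun s => by rw [hx]; exact hasDerivAt_const s x) t
  exact h.symm

/-- If the field vanishes somewhere on an orbit the orbit is constant. -/
theorem Good.flow_of_zero_at (hV : Good V) {x : Fin d → ℝ} {s : ℝ} (hx : V (flow V s x) = 0)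
    (t : ℝ) : flow V t x = x := by
  have h1 : ∀ t, flow V t x = flow V s x := by
    intro t
    have h2 := hV.flow_of_zero hx (t - s)
    rwa [← hV.flow_add, sub_add_cancel] at h2
  rw [h1 t, ← h1 0, hV.flow_zero]

/-- The flow moves points with bounded speed. -/
theorem Good.dist_flow_le (hV : Good V) {C : ℝ≥0} (hC : ∀ x, ‖V x‖ ≤ C) (s t : ℝ)
    (x : Fin d → ℝ) : ‖flow V s x - flow V t x‖ ≤ C * |s - t| := by
  have h := Convex.norm_image_sub_le_of_norm_hasDerivWithin_le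
    (f := fun s => flow V s x) (f' := fun s => V (flow V s x)) (C := C) (s := univ)
    (x := t) (y := s) (fun r _ => (hV.hasDerivAt_flow x r).hasDerivWithinAt)
    (fun r _ => hC _) convex_univ trivial trivial
  simpa [Real.norm_eq_abs] using h

end Pool.Agent.MP_1a349f_an
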