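import Mathlib
import Pool.Agent.MP_1a349f_an.Ode

set_option autoImplicit false

/-!
# Periodising compactly supported smooth functions
-/

namespace Pool.Agent.MP_1a349f_an

open Set Filter Topology
open scoped ContDiff

/-- The signed distance to the nearest integer. -/
noncomputable def rd (t : ℝ) : ℝ := t - round t

theorem rd_add_int (t : ℝ) (k : ℤ) : rd (t + k) = rd t := by
  rw [rd, rd, round_add_intCast]
  push_cast
  ring

theorem abs_rd_le (t : ℝ) : |rd t| ≤ 1 / 2 := abs_sub_round t

theorem abs_rd_eq_norm (t : ℝ) : |rd t| = ‖(t : UnitAddCircle)‖ := by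
  rw [UnitAddCircle.norm_eq, rd]

theorem continuous_abs_rd : Continuous fun t : ℝ => |rd t| := by
  simp_rw [abs_rd_eq_norm]
  exact continuous_norm.comp (AddCircle.continuous_mk' (1 : ℝ))

theorem continuous_rd_sq : Continuous fun t : ℝ => rd t ^ 2 := by
  have : (fun t : ℝ => rd t ^ 2) = fun t => |rd t| ^ 2 := by
    funext t; rw [sq_abs]
  rw [this]
  exact continuous_abs_rd.pow 2

theorem rd_of_abs_lt {t : ℝ} (h : |t| < 1 / 2) : rd t = t := by
  rw [rd]
  have : round t = 0 := by
    rw [round_eq, Int.floor_eq_iff]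
    rw [abs_lt] at h
    constructor <;> push_cast <;> linarith [h.1, h.2]
  rw [this]; simp

theorem round_eq_of_near {t t₀ : ℝ} (h : |t - round t₀| < 1 / 2) : round t = round t₀ := by
  rw [round_eq t, Int.floor_eq_iff]
  rw [abs_lt] at h
  constructor <;> linarith [h.1, h.2]

/-- `rd` is locally a translation away from the half-integers. -/
theorem rd_eventually {t₀ : ℝ} (h : |rd t₀| < 1 / 2) :
    ∀ᶠ t in 𝓝 t₀, rd t = t - round t₀ := by
  have h1 : ContinuousAt (fun t : ℝ => |t - round t₀|) t₀ := by fun_prop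
  filter_upwards [h1.eventually_lt continuousAt_const h] with t ht
  rw [rd, round_eq_of_near ht]

/-- Round the coordinates in `J`. -/
noncomputable def rdOn {d : ℕ} (J : Finset (Fin d)) (z : Fin d → ℝ) : Fin d → ℝ :=
  fun i => if i ∈ J then rd (z i) else z i

theorem contDiff_comp_rdOn {d : ℕ} {G : Type*} [NormedAddCommGroup G] [NormedSpace ℝ G]
    (J : Finset (Fin d)) (H : (Fin d → ℝ) → G) (hH : ContDiff ℝ ∞ H) (β : ℝ) (hβ : β < 1 / 2)
    (h0 : ∀ z : Fin d → ℝ, (∃ i ∈ J, β ≤ |z i|) → H z = 0) :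
    ContDiff ℝ ∞ fun z => H (rdOn J z) := by
  rw [contDiff_iff_contDiffAt]
  intro z₀
  by_cases hz : ∀ i ∈ J, |rd (z₀ i)| < 1 / 2
  · -- locally a translation
    let c : Fin d → ℝ := fun i => if i ∈ J then ((round (z₀ i) : ℤ) : ℝ) else 0
    have h1 : ∀ᶠ z in 𝓝 z₀, rdOn J z = z - c := by
      have h2 : ∀ i, ∀ᶠ z : Fin d → ℝ in 𝓝 z₀, rdOn J z i = z i - c i := by
        intro i
        by_cases hi : i ∈ J
        · have h3 := (continuous_apply i).continuousAt.eventually (rd_eventually (hz i hi))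
          filter_upwards [h3] with z hz3
          simp only [rdOn, c, if_pos hi]
          exact hz3
        · refine Eventually.of_forall fun z => ?_
          simp only [rdOn, c, if_neg hi, sub_zero]
      filter_upwards [eventually_all.2 h2] with z hz2
      funext i
      exact hz2 i
    have h2 : ContDiffAt ℝ ∞ (fun z => H (z - c)) z₀ :=
      (hH.comp (contDiff_id.sub contDiff_const)).contDiffAt
    refine h2.congr_of_eventuallyEq ?_
    filter_upwards [h1] with z hz1
    rw [hz1]
  · -- locally zero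
    push Not at hz
    obtain ⟨i, hi, hzi⟩ := hz
    have h1 : ContinuousAt (fun z : Fin d → ℝ => |rd (z i)|) z₀ :=
      (continuous_abs_rd.comp (continuous_apply i)).continuousAt
    have h2 : ∀ᶠ z : Fin d → ℝ in 𝓝 z₀, β < |rd (z i)| :=
      h1.eventually_const_lt (lt_of_lt_of_le hβ hzi)
    have h3 : ContDiffAt ℝ ∞ (fun _ : Fin d → ℝ => (0 : G)) z₀ := contDiffAt_const
    refine h3.congr_of_eventuallyEq ?_
    filter_upwards [h2] with z hz2
    apply h0
    refine ⟨i, hi, ?_⟩
    simp only [rdOn, if_pos hi]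
    exact hz2.le

theorem rdOn_tr {d : ℕ} (J : Finset (Fin d)) (k : Fin d → ℤ) (z : Fin d → ℝ) (i : Fin d)
    (hi : i ∈ J) : rdOn J (tr k z) i = rdOn J z i := by
  simp only [rdOn, if_pos hi, tr, rd_add_int]

/-- An orbit starting in an open set on whose frontier the field vanishes stays there. -/
theorem Good.mem_of_mem {d : ℕ} {V : (Fin d → ℝ) → (Fin d → ℝ)} (hV : Good V)
    {D : Set (Fin d → ℝ)} (hD : IsOpen D) (hfr : ∀ y ∈ frontier D, V y = 0) {z : Fin d → ℝ}
    (hz : z ∈ D) (t : ℝ) : flow V t z ∈ D := by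
  have hc := hV.continuous_flow z
  have hopen : IsOpen ((fun t => flow V t z) ⁻¹' D) := hD.preimage hc
  have hclosed : IsClosed ((fun t => flow V t z) ⁻¹' D) := by
    rw [← closure_subset_iff_isClosed]
    intro s hs
    have h1 : flow V s z ∈ closure D := hc.closure_preimage_subset D hs
    by_contra hns
    have h2 : flow V s z ∈ frontier D := ⟨h1, by rwa [hD.interior_eq]⟩
    have h3 := hV.flow_of_zero_at (hfr _ h2) s
    exact hns (by change flow V s z ∈ D; rw [h3]; exact hz)
  have huniv : ((fun t => flow V t z) ⁻¹' D) = univ :=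
    IsClopen.eq_univ ⟨hclosed, hopen⟩ ⟨0, by
      change flow V 0 z ∈ D
      rw [hV.flow_zero]; exact hz⟩
  have : t ∈ (fun t => flow V t z) ⁻¹' D := by rw [huniv]; trivial
  exact this

end Pool.Agent.MP_1a349f_an
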