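import Mathlib
import Pool.Agent.MP_1a349f_an.Ode

set_option autoImplicit false

/-!
# Time changes of curves, and a growth estimate
-/

namespace Pool.Agent.MP_1a349f_an

open Set Filter Topology MeasureTheory intervalIntegral
open scoped NNReal

/-- For a positive bounded continuous speed `κ`, the time change `τ' = κ(τ)` is an increasing
homeomorphism of the line. -/
theorem exists_time_change (κ : ℝ → ℝ) (hκ : Continuous κ) (hpos : ∀ s, 0 < κ s) (K : ℝ)
    (hK : ∀ s, κ s ≤ K) :
    ∃ τ : ℝ ≃o ℝ, τ 0 = 0 ∧ (∀ t, HasDerivAt (fun t => τ t) (κ (τ t)) t) ∧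
      ∀ s, τ.symm s = ∫ u in (0 : ℝ)..s, (κ u)⁻¹ := by
  have hK0 : 0 < K := (hpos 0).trans_le (hK 0)
  have hinv : Continuous fun u => (κ u)⁻¹ := hκ.inv₀ fun s => (hpos s).ne'
  let T : ℝ → ℝ := fun s => ∫ u in (0 : ℝ)..s, (κ u)⁻¹
  have hT : ∀ s, HasDerivAt T (κ s)⁻¹ s := fun s =>
    (hinv.integral_hasStrictDerivAt 0 s).hasDerivAt
  have hTc : Continuous T := continuous_iff_continuousAt.2 fun s => (hT s).continuousAt
  have hT0 : T 0 = 0 := integral_same
  have hmono : StrictMono T := strictMono_of_deriv_pos fun s => by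
    rw [(hT s).deriv]; exact inv_pos.2 (hpos s)
  -- lower bound for the growth of `T`
  have hmono2 : Monotone fun s => T s - K⁻¹ * s := by
    have hd : ∀ s, HasDerivAt (fun s => T s - K⁻¹ * s) ((κ s)⁻¹ - K⁻¹ * 1) s := fun s =>
      (hT s).fun_sub ((hasDerivAt_id s).const_mul K⁻¹)
    apply monotone_of_deriv_nonneg
    · exact fun s => (hd s).differentiableAt
    · intro s
      rw [(hd s).deriv]
      have : K⁻¹ ≤ (κ s)⁻¹ := inv_anti₀ (hpos s) (hK s)
      simp only [mul_one]
      linarith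
  have htop : Tendsto T atTop atTop := by
    have h1 : Tendsto (fun s : ℝ => K⁻¹ * s) atTop atTop :=
      tendsto_id.const_mul_atTop (inv_pos.2 hK0)
    refine tendsto_atTop_mono' _ ?_ h1
    filter_upwards [eventually_ge_atTop 0] with s hs
    have := hmono2 hs
    simp only [hT0, mul_zero, sub_zero] at this
    linarith
  have hbot : Tendsto T atBot atBot := by
    have h1 : Tendsto (fun s : ℝ => K⁻¹ * s) atBot atBot :=
      tendsto_id.const_mul_atBot (inv_pos.2 hK0)
    refine tendsto_atBot_mono' _ ?_ h1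
    filter_upwards [eventually_le_atBot 0] with s hs
    have := hmono2 hs
    simp only [hT0, mul_zero, sub_zero] at this
    linarith
  have hsurj : Function.Surjective T := hTc.surjective htop hbot
  let e : ℝ ≃o ℝ := hmono.orderIsoOfSurjective T hsurj
  have he : ∀ s, e s = T s := fun s => rfl
  refine ⟨e.symm, ?_, ?_, ?_⟩
  · rw [OrderIso.symm_apply_eq, he, hT0]
  · intro t
    have h1 : HasDerivAt T (κ (e.symm t))⁻¹ (e.symm t) := hT _
    have h2 := HasDerivAt.of_local_left_inverse (f := T) (g := fun t => e.symm t) (a := t)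
      e.symm.continuous.continuousAt h1 (inv_ne_zero (hpos _).ne')
      (Eventually.of_forall fun y => by rw [← he, OrderIso.apply_symm_apply])
    rwa [inv_inv] at h2
  · intro s
    rfl

/-- Reparametrising an integral curve. -/
theorem hasDerivAt_comp_time_change {E : Type*} [NormedAddCommGroup E] [NormedSpace ℝ E]
    {β : ℝ → E} {B : E → E} (hβ : ∀ s, HasDerivAt β (B (β s)) s) {τ : ℝ → ℝ} {κ : ℝ → ℝ}
    (hτ : ∀ t, HasDerivAt τ (κ (τ t)) t) (t : ℝ) :
    HasDerivAt (fun t => β (τ t)) (κ (τ t) • B (β (τ t))) t :=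
  (hβ (τ t)).scomp t (hτ t)

/-- Growth of the distance of two curves whose velocities differ by at most `a t` times
their distance. -/
theorem growth {d : ℕ} (z z' w w' : ℝ → Fin d → ℝ) (hz : ∀ t, HasDerivAt z (w t) t)
    (hz' : ∀ t, HasDerivAt z' (w' t) t) (A a : ℝ → ℝ) (hA : ∀ t, HasDerivAt A (a t) t)
    (h : ∀ t, 0 ≤ t → ‖w' t - w t‖ ≤ a t * ‖z' t - z t‖) (t : ℝ) (ht : 0 ≤ t) :
    ‖z' t - z t‖ ^ 2 ≤ d * Real.exp (2 * d * (A t - A 0)) * ‖z' 0 - z 0‖ ^ 2 := by
  let N : ℝ → ℝ := fun t => ∑ i, (z' t i - z t i) ^ 2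
  have hnorm1 : ∀ t, ‖z' t - z t‖ ^ 2 ≤ N t := by
    intro t
    by_cases hd : Nonempty (Fin d)
    · obtain ⟨i, hi⟩ : ∃ i, ‖z' t - z t‖ = ‖(z' t - z t) i‖ := by
        obtain ⟨i, -, hi⟩ := Finset.exists_mem_eq_sup' (Finset.univ_nonempty (α := Fin d))
          (fun i => ‖(z' t - z t) i‖₊)
        refine ⟨i, ?_⟩
        rw [Pi.norm_def, ← Finset.sup'_eq_sup Finset.univ_nonempty, hi]
        rfl
      rw [hi, Real.norm_eq_abs, sq_abs]
      exact Finset.single_le_sum (f := fun i => (z' t i - z t i) ^ 2)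
        (fun j _ => sq_nonneg _) (Finset.mem_univ i)
    · have : IsEmpty (Fin d) := not_nonempty_iff.1 hd
      have : z' t - z t = 0 := Subsingleton.elim _ _
      rw [this]
      simp [N]
  have hnorm2 : ∀ t, N t ≤ d * ‖z' t - z t‖ ^ 2 := by
    intro t
    calc N t ≤ ∑ _i : Fin d, ‖z' t - z t‖ ^ 2 := by
          refine Finset.sum_le_sum fun i _ => ?_
          have h1 : |z' t i - z t i| ≤ ‖z' t - z t‖ := norm_le_pi_norm (z' t - z t) i
          rw [← sq_abs]
          exact pow_le_pow_left₀ (abs_nonneg _) h1 2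
      _ = d * ‖z' t - z t‖ ^ 2 := by simp
  have hN : ∀ t, HasDerivAt N (∑ i, 2 * (z' t i - z t i) * (w' t i - w t i)) t := by
    intro t
    apply HasDerivAt.fun_sum
    intro i _
    have h1 : HasDerivAt (fun t => z' t i - z t i) (w' t i - w t i) t :=
      ((hasDerivAt_pi.1 (hz' t)) i).sub ((hasDerivAt_pi.1 (hz t)) i)
    have h2 := h1.fun_pow 2
    simpa using h2
  have hN' : ∀ t, 0 ≤ t → ∑ i, 2 * (z' t i - z t i) * (w' t i - w t i) ≤ 2 * d * a t * N t := by
    intro t ht
    by_cases hd : d = 0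
    · subst hd
      simp [N]
    have ha : ∀ i, 2 * (z' t i - z t i) * (w' t i - w t i) ≤ 2 * (a t * ‖z' t - z t‖ ^ 2) := by
      intro i
      have h1 : |z' t i - z t i| ≤ ‖z' t - z t‖ := norm_le_pi_norm (z' t - z t) i
      have h2 : |w' t i - w t i| ≤ a t * ‖z' t - z t‖ :=
        (norm_le_pi_norm (w' t - w t) i).trans (h t ht)
      have h3 : (z' t i - z t i) * (w' t i - w t i) ≤ ‖z' t - z t‖ * (a t * ‖z' t - z t‖) := by
        calc (z' t i - z t i) * (w' t i - w t i) ≤ |(z' t i - z t i) * (w' t i - w t i)| :=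
              le_abs_self _
          _ = |z' t i - z t i| * |w' t i - w t i| := abs_mul _ _
          _ ≤ ‖z' t - z t‖ * (a t * ‖z' t - z t‖) :=
              mul_le_mul h1 h2 (abs_nonneg _) (norm_nonneg _)
      nlinarith
    calc ∑ i, 2 * (z' t i - z t i) * (w' t i - w t i)
        ≤ ∑ _i : Fin d, 2 * (a t * ‖z' t - z t‖ ^ 2) := Finset.sum_le_sum fun i _ => ha i
      _ = 2 * d * (a t * ‖z' t - z t‖ ^ 2) := by simp; ring
      _ ≤ 2 * d * a t * N t := by
          by_cases hz0 : ‖z' t - z t‖ = 0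
          · have hN0 : N t = 0 := by
              have := hnorm2 t
              rw [hz0] at this
              have h5 : 0 ≤ N t := Finset.sum_nonneg fun i _ => sq_nonneg _
              nlinarith
            rw [hz0, hN0]; simp
          · have hpos : 0 < ‖z' t - z t‖ := lt_of_le_of_ne (norm_nonneg _) (Ne.symm hz0)
            have ha0 : 0 ≤ a t := by
              have := (norm_nonneg _).trans (h t ht)
              exact nonneg_of_mul_nonneg_left this hpos
            have hd0 : (0 : ℝ) ≤ d := Nat.cast_nonneg d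
            have := mul_le_mul_of_nonneg_left (hnorm1 t) (mul_nonneg (mul_nonneg zero_le_two hd0) ha0)
            linarith
  -- monotonicity of the corrected square distance
  have hanti : AntitoneOn (fun t => N t * Real.exp (-(2 * d * A t))) (Ici 0) := by
    have hd : ∀ t, HasDerivAt (fun t => N t * Real.exp (-(2 * d * A t)))
        ((∑ i, 2 * (z' t i - z t i) * (w' t i - w t i)) * Real.exp (-(2 * d * A t)) +
          N t * (Real.exp (-(2 * d * A t)) * -(2 * d * a t))) t := fun t =>
      (hN t).fun_mul ((((hA t).const_mul (2 * (d : ℝ))).fun_neg).exp)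
    apply antitoneOn_of_deriv_nonpos (convex_Ici 0)
    · intro t _
      exact (hd t).continuousAt.continuousWithinAt
    · intro t _
      exact (hd t).differentiableAt.differentiableWithinAt
    · intro t ht'
      rw [interior_Ici] at ht'
      rw [(hd t).deriv]
      have h1 := hN' t (le_of_lt ht')
      have h2 := Real.exp_pos (-(2 * d * A t))
      have h3 : (∑ i, 2 * (z' t i - z t i) * (w' t i - w t i)) * Real.exp (-(2 * d * A t)) +
          N t * (Real.exp (-(2 * d * A t)) * -(2 * d * a t))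
          = ((∑ i, 2 * (z' t i - z t i) * (w' t i - w t i)) - 2 * d * a t * N t) *
            Real.exp (-(2 * d * A t)) := by ring
      rw [h3]
      exact mul_nonpos_of_nonpos_of_nonneg (by linarith) h2.le
  have h1 := hanti (self_mem_Ici) (mem_Ici.2 ht) ht
  simp only at h1
  have h2 : N t ≤ N 0 * Real.exp (2 * d * (A t - A 0)) := by
    have h3 : N t = N t * Real.exp (-(2 * d * A t)) * Real.exp (2 * d * A t) := by
      rw [mul_assoc, ← Real.exp_add]; simp
    rw [h3]
    calc N t * Real.exp (-(2 * d * A t)) * Real.exp (2 * d * A t)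
        ≤ N 0 * Real.exp (-(2 * d * A 0)) * Real.exp (2 * d * A t) :=
          mul_le_mul_of_nonneg_right h1 (Real.exp_pos _).le
      _ = N 0 * Real.exp (2 * d * (A t - A 0)) := by
          rw [mul_assoc, ← Real.exp_add]
          congr 2
          ring
  calc ‖z' t - z t‖ ^ 2 ≤ N t := hnorm1 t
    _ ≤ N 0 * Real.exp (2 * d * (A t - A 0)) := h2
    _ ≤ (d * ‖z' 0 - z 0‖ ^ 2) * Real.exp (2 * d * (A t - A 0)) :=
        mul_le_mul_of_nonneg_right (hnorm2 0) (Real.exp_pos _).le
    _ = d * Real.exp (2 * d * (A t - A 0)) * ‖z' 0 - z 0‖ ^ 2 := by ring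

end Pool.Agent.MP_1a349f_an
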