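import Mathlib
import Pool.Agent.MP_1a349f_an.Periodize
import Pool.Agent.MP_1a349f_an.TimeChange

set_option autoImplicit false

/-!
# The vector fields
-/

namespace Pool.Agent.MP_1a349f_an

open Set Filter Topology Real
open scoped ContDiff

/-- A smooth bump: `0` outside `(a₀, a₃)` and `1` on `[a₁, a₂]`. -/
noncomputable def bump (a₀ a₁ a₂ a₃ t : ℝ) : ℝ :=
  Real.smoothTransition ((t - a₀) / (a₁ - a₀)) * Real.smoothTransition ((a₃ - t) / (a₃ - a₂))

theorem contDiff_smoothTransition : ContDiff ℝ ∞ Real.smoothTransition :=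
  Real.smoothTransition.contDiff

theorem contDiff_bump (a₀ a₁ a₂ a₃ : ℝ) : ContDiff ℝ ∞ (bump a₀ a₁ a₂ a₃) :=
  (contDiff_smoothTransition.comp ((contDiff_id.sub contDiff_const).div_const _)).mul
    (contDiff_smoothTransition.comp ((contDiff_const.sub contDiff_id).div_const _))

theorem bump_nonneg (a₀ a₁ a₂ a₃ t : ℝ) : 0 ≤ bump a₀ a₁ a₂ a₃ t :=
  mul_nonneg (Real.smoothTransition.nonneg _) (Real.smoothTransition.nonneg _)

theorem bump_le_one (a₀ a₁ a₂ a₃ t : ℝ) : bump a₀ a₁ a₂ a₃ t ≤ 1 :=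
  mul_le_one₀ (Real.smoothTransition.le_one _) (Real.smoothTransition.nonneg _)
    (Real.smoothTransition.le_one _)

theorem bump_eq_one {a₀ a₁ a₂ a₃ t : ℝ} (h0 : a₀ < a₁) (h3 : a₂ < a₃) (h1 : a₁ ≤ t)
    (h2 : t ≤ a₂) : bump a₀ a₁ a₂ a₃ t = 1 := by
  rw [bump, Real.smoothTransition.one_of_one_le, Real.smoothTransition.one_of_one_le, one_mul]
  · rw [le_div_iff₀ (by linarith)]; linarith
  · rw [le_div_iff₀ (by linarith)]; linarith

theorem bump_eq_zero_left {a₀ a₁ a₂ a₃ t : ℝ} (h0 : a₀ < a₁) (h : t ≤ a₀) :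
    bump a₀ a₁ a₂ a₃ t = 0 := by
  rw [bump, Real.smoothTransition.zero_of_nonpos, zero_mul]
  exact div_nonpos_of_nonpos_of_nonneg (by linarith) (by linarith)

theorem bump_eq_zero_right {a₀ a₁ a₂ a₃ t : ℝ} (h3 : a₂ < a₃) (h : a₃ ≤ t) :
    bump a₀ a₁ a₂ a₃ t = 0 := by
  rw [bump, mul_comm, Real.smoothTransition.zero_of_nonpos, zero_mul]
  exact div_nonpos_of_nonpos_of_nonneg (by linarith) (by linarith)

/-- The derivative of the standard smooth step. -/
noncomputable def dT : ℝ → ℝ := deriv Real.smoothTransition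

theorem contDiff_dT : ContDiff ℝ ∞ dT :=
  (contDiff_infty_iff_deriv.1 contDiff_smoothTransition).2

theorem hasDerivAt_smoothTransition (t : ℝ) : HasDerivAt Real.smoothTransition (dT t) t :=
  (contDiff_smoothTransition.differentiable (by simp) t).hasDerivAt

theorem dT_of_nonpos {t : ℝ} (h : t ≤ 0) : dT t = 0 := by
  have h1 : ∀ s : ℝ, s < 0 → dT s = 0 := by
    intro s hs
    rw [dT]
    have : Real.smoothTransition =ᶠ[𝓝 s] fun _ => 0 := by
      filter_upwards [Iio_mem_nhds hs] with x hx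
      exact Real.smoothTransition.zero_of_nonpos (le_of_lt hx)
    rw [this.deriv_eq, deriv_const]
  rcases h.lt_or_eq with h | h
  · exact h1 t h
  · subst h
    have h2 : Tendsto dT (𝓝[<] 0) (𝓝 (dT 0)) :=
      contDiff_dT.continuous.continuousAt.tendsto.mono_left nhdsWithin_le_nhds
    have h3 : Tendsto dT (𝓝[<] 0) (𝓝 0) := by
      refine tendsto_const_nhds.congr' ?_
      filter_upwards [self_mem_nhdsWithin] with x hx
      exact (h1 x hx).symm
    exact tendsto_nhds_unique h2 h3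

theorem dT_of_one_le {t : ℝ} (h : 1 ≤ t) : dT t = 0 := by
  have h1 : ∀ s : ℝ, 1 < s → dT s = 0 := by
    intro s hs
    rw [dT]
    have : Real.smoothTransition =ᶠ[𝓝 s] fun _ => 1 := by
      filter_upwards [Ioi_mem_nhds hs] with x hx
      exact Real.smoothTransition.one_of_one_le (le_of_lt hx)
    rw [this.deriv_eq, deriv_const]
  rcases h.lt_or_eq with h | h
  · exact h1 t h
  · subst h
    have h2 : Tendsto dT (𝓝[>] 1) (𝓝 (dT 1)) :=
      contDiff_dT.continuous.continuousAt.tendsto.mono_left nhdsWithin_le_nhds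
    have h3 : Tendsto dT (𝓝[>] 1) (𝓝 0) := by
      refine tendsto_const_nhds.congr' ?_
      filter_upwards [self_mem_nhdsWithin] with x hx
      exact (h1 x hx).symm
    exact tendsto_nhds_unique h2 h3

/-! ### The base speed -/

/-- The speed function on the base `T^3`, vanishing exactly over the origin. -/
noncomputable def fB (z : Fin 5 → ℝ) : ℝ :=
  (sin (π * z 0) ^ 2 + sin (π * z 1) ^ 2 + sin (π * z 2) ^ 2) / 12

theorem fB_nonneg (z : Fin 5 → ℝ) : 0 ≤ fB z := by rw [fB]; positivity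

theorem fB_le (z : Fin 5 → ℝ) : fB z ≤ 1 / 4 := by
  rw [fB]
  have h0 := sin_sq_le_one (π * z 0)
  have h1 := sin_sq_le_one (π * z 1)
  have h2 := sin_sq_le_one (π * z 2)
  linarith

theorem sin_pi_add_int_sq (t : ℝ) (k : ℤ) : sin (π * (t + k)) ^ 2 = sin (π * t) ^ 2 := by
  rw [mul_add, mul_comm π (k : ℝ), sin_add_int_mul_pi, mul_pow]
  rw [← zpow_natCast, ← zpow_mul, mul_comm k, zpow_mul]
  simp

theorem cos_pi_add_int_sq (t : ℝ) (k : ℤ) : cos (π * (t + k)) ^ 2 = cos (π * t) ^ 2 := by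
  rw [cos_sq', cos_sq', sin_pi_add_int_sq]

theorem per_fB : Per fB := by
  intro k z
  simp only [fB, tr, sin_pi_add_int_sq]

theorem contDiff_coord (i : Fin 5) : ContDiff ℝ ∞ fun z : Fin 5 → ℝ => z i :=
  contDiff_apply ℝ ℝ i

theorem contDiff_fB : ContDiff ℝ ∞ fB := by
  unfold fB
  have h : ∀ i : Fin 5, ContDiff ℝ ∞ fun z : Fin 5 → ℝ => sin (π * z i) ^ 2 := fun i =>
    ((contDiff_const.mul (contDiff_coord i)).sin).pow 2
  exact (((h 0).add (h 1)).add (h 2)).div_const _

/-! ### The fibre dynamics with a horseshoe -/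

/-- Cut-off in the `x` direction. -/
noncomputable def cutX (x : ℝ) : ℝ := bump (-(1 / 5)) (-(3 / 20)) (3 / 20) (1 / 5) x

/-- Cut-off in the `y` direction. -/
noncomputable def cutY (y : ℝ) : ℝ := bump (-(1 / 10)) 0 (1 / 10) (1 / 5) y

/-- The speeds of the three phases. -/
noncomputable def rho (c t : ℝ) : ℝ := 5 * dT (5 * (t - c))

theorem contDiff_rho (c : ℝ) : ContDiff ℝ ∞ (rho c) :=
  contDiff_const.mul (contDiff_dT.comp (contDiff_const.mul (contDiff_id.sub contDiff_const)))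

theorem rho_of_le {c t : ℝ} (h : t ≤ c) : rho c t = 0 := by
  rw [rho, dT_of_nonpos (by linarith), mul_zero]

theorem rho_of_ge {c t : ℝ} (h : c + 1 / 5 ≤ t) : rho c t = 0 := by
  rw [rho, dT_of_one_le (by linarith), mul_zero]

/-- The horizontal component of the (unrolled) horseshoe field. -/
noncomputable def hx (b x y : ℝ) : ℝ :=
  cutX x * cutY y * (rho (-(1 / 4)) b * Real.log 3 * (x + 3 / 20) -
    rho (3 / 20) b * (1 / 5) * Real.smoothTransition (30 * y - 1))

/-- The vertical component of the (unrolled) horseshoe field. -/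
noncomputable def hy (b x y : ℝ) : ℝ :=
  cutX x * cutY y * (-(rho (-(1 / 4)) b * Real.log 3 * y) +
    rho (-(1 / 20)) b * (1 / 15) * Real.smoothTransition (10 * (x + 3 / 20) - 1))

theorem contDiff_cutX : ContDiff ℝ ∞ cutX := contDiff_bump _ _ _ _
theorem contDiff_cutY : ContDiff ℝ ∞ cutY := contDiff_bump _ _ _ _

theorem hx_contDiff : ContDiff ℝ ∞ fun z : Fin 5 → ℝ => hx (z 0) (z 3) (z 4) := by
  unfold hx
  have h0 := contDiff_coord 0
  have h3 := contDiff_coord 3
  have h4 := contDiff_coord 4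
  exact ((contDiff_cutX.comp h3).mul (contDiff_cutY.comp h4)).mul
    (((((contDiff_rho _).comp h0).mul contDiff_const).mul (h3.add contDiff_const)).sub
      ((((contDiff_rho _).comp h0).mul contDiff_const).mul
        (contDiff_smoothTransition.comp ((contDiff_const.mul h4).sub contDiff_const))))

theorem hy_contDiff : ContDiff ℝ ∞ fun z : Fin 5 → ℝ => hy (z 0) (z 3) (z 4) := by
  unfold hy
  have h0 := contDiff_coord 0
  have h3 := contDiff_coord 3
  have h4 := contDiff_coord 4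
  exact ((contDiff_cutX.comp h3).mul (contDiff_cutY.comp h4)).mul
    (((((contDiff_rho _).comp h0).mul contDiff_const).mul h4).neg.add
      ((((contDiff_rho _).comp h0).mul contDiff_const).mul
        (contDiff_smoothTransition.comp
          ((contDiff_const.mul (h3.add contDiff_const)).sub contDiff_const))))

theorem cutX_eq_zero {x : ℝ} (h : 1 / 5 ≤ |x|) : cutX x = 0 := by
  rcases le_abs.1 h with h | h
  · exact bump_eq_zero_right (by norm_num) h
  · exact bump_eq_zero_left (by norm_num) (by linarith)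

theorem cutY_eq_zero {y : ℝ} (h : 1 / 5 ≤ |y|) : cutY y = 0 := by
  rcases le_abs.1 h with h | h
  · exact bump_eq_zero_right (by norm_num) h
  · exact bump_eq_zero_left (by norm_num) (by linarith)

theorem rho_eq_zero {c b : ℝ} (h1 : -(1 / 4) ≤ c) (h2 : c ≤ 3 / 20) (h : 7 / 20 ≤ |b|) :
    rho c b = 0 := by
  rcases le_abs.1 h with h | h
  · exact rho_of_ge (by linarith)
  · exact rho_of_le (by linarith)

theorem hxy_eq_zero (z : Fin 5 → ℝ) (h : ∃ i ∈ ({0, 3, 4} : Finset (Fin 5)), 7 / 20 ≤ |z i|) :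
    hx (z 0) (z 3) (z 4) = 0 ∧ hy (z 0) (z 3) (z 4) = 0 := by
  obtain ⟨i, hi, h⟩ := h
  simp only [Finset.mem_insert, Finset.mem_singleton] at hi
  rcases hi with rfl | rfl | rfl
  · rw [hx, hy, rho_eq_zero (by norm_num) (by norm_num) h, rho_eq_zero (by norm_num) (by norm_num) h,
      rho_eq_zero (by norm_num) (by norm_num) h]
    constructor <;> ring
  · rw [hx, hy, cutX_eq_zero (by linarith)]
    constructor <;> ring
  · rw [hx, hy, cutY_eq_zero (by linarith)]
    constructor <;> ring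

/-- The basic vector field `(1, √2, √3, Y)`. -/
noncomputable def V0 (z : Fin 5 → ℝ) : Fin 5 → ℝ :=
  ![1, √2, √3, hx (rd (z 0)) (rd (z 3)) (rd (z 4)), hy (rd (z 0)) (rd (z 3)) (rd (z 4))]

theorem good_V0 : Good V0 := by
  refine ⟨?_, ?_⟩
  · rw [contDiff_pi]
    have h1 := contDiff_comp_rdOn ({0, 3, 4} : Finset (Fin 5)) _ hx_contDiff (7 / 20) (by norm_num)
      (fun z h => (hxy_eq_zero z h).1)
    have h2 := contDiff_comp_rdOn ({0, 3, 4} : Finset (Fin 5)) _ hy_contDiff (7 / 20) (by norm_num)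
      (fun z h => (hxy_eq_zero z h).2)
    intro i
    fin_cases i
    · exact contDiff_const
    · exact contDiff_const
    · exact contDiff_const
    · exact h1
    · exact h2
  · intro k z
    simp only [V0, tr, rd_add_int]

/-! ### The cut-off `a` in the fibre -/

/-- The cut-off switching off the base motion outside a strip in the fibre. -/
noncomputable def aB (z : Fin 5 → ℝ) : ℝ :=
  bump (-(6 / 25)) (-(21 / 100)) (21 / 100) (6 / 25) (rd (z 3))

theorem contDiff_aB : ContDiff ℝ ∞ aB := by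
  refine contDiff_comp_rdOn ({3} : Finset (Fin 5))
    (fun z : Fin 5 → ℝ => bump (-(6 / 25)) (-(21 / 100)) (21 / 100) (6 / 25) (z 3))
    ((contDiff_bump _ _ _ _).comp (contDiff_coord 3)) (6 / 25) (by norm_num) ?_
  rintro z ⟨i, hi, h⟩
  rw [Finset.mem_singleton] at hi
  subst hi
  rcases le_abs.1 h with h | h
  · exact bump_eq_zero_right (by norm_num) h
  · exact bump_eq_zero_left (by norm_num) (by linarith)

theorem per_aB : Per aB := by
  intro k z
  simp only [aB, tr, rd_add_int]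

theorem aB_nonneg (z : Fin 5 → ℝ) : 0 ≤ aB z := bump_nonneg _ _ _ _ _

theorem aB_le_one (z : Fin 5 → ℝ) : aB z ≤ 1 := bump_le_one _ _ _ _ _

/-! ### The disc with infinitely many isolated closed orbits -/

/-- The set where the first drift function is nonzero. -/
def drSet : Set ℝ := {v | v ∈ Ioo (0 : ℝ) (1 / 100) ∧ ∀ k : ℤ, (100 * v)⁻¹ ≠ k}

theorem isOpen_drSet : IsOpen drSet := by
  have h1 : ContinuousOn (fun v : ℝ => (100 * v)⁻¹) (Ioo (0 : ℝ) (1 / 100)) := by
    apply ContinuousOn.inv₀ (by fun_prop)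
    intro v hv
    exact mul_ne_zero (by norm_num) hv.1.ne'
  have h2 : IsClosed (range ((↑) : ℤ → ℝ)) := Int.isClosedEmbedding_coe_real.isClosed_range
  have h3 := h1.isOpen_inter_preimage isOpen_Ioo h2.isOpen_compl
  have h4 : drSet = Ioo (0 : ℝ) (1 / 100) ∩ (fun v : ℝ => (100 * v)⁻¹) ⁻¹' (range ((↑) : ℤ → ℝ))ᶜ := by
    ext v
    constructor
    · rintro ⟨h, h'⟩
      exact ⟨h, fun ⟨k, hk⟩ => h' k hk.symm⟩
    · rintro ⟨h, h'⟩
      exact ⟨h, fun k hk => h' ⟨k, hk.symm⟩⟩
  rw [h4]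
  exact h3

/-- First drift function: positive exactly on `drSet`. -/
noncomputable def S0 : ℝ → ℝ := (IsOpen.exists_contDiff_support_eq (n := ⊤) isOpen_drSet).choose

/-- Second drift function: positive exactly on `(0, 1/100)`. -/
noncomputable def E0 : ℝ → ℝ :=
  (IsOpen.exists_contDiff_support_eq (n := ⊤) (isOpen_Ioo (a := (0 : ℝ)) (b := 1 / 100))).choose

theorem S0_spec : Function.support S0 = drSet ∧ ContDiff ℝ ∞ S0 ∧ range S0 ⊆ Icc 0 1 :=
  (IsOpen.exists_contDiff_support_eq (n := ⊤) isOpen_drSet).choose_spec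

theorem E0_spec : Function.support E0 = Ioo (0 : ℝ) (1 / 100) ∧ ContDiff ℝ ∞ E0 ∧
    range E0 ⊆ Icc 0 1 :=
  (IsOpen.exists_contDiff_support_eq (n := ⊤) (isOpen_Ioo (a := (0 : ℝ)) (b := 1 / 100))).choose_spec

theorem S0_mem (v : ℝ) : 0 ≤ S0 v ∧ S0 v ≤ 1 := S0_spec.2.2 (mem_range_self v)
theorem E0_mem (v : ℝ) : 0 ≤ E0 v ∧ E0 v ≤ 1 := E0_spec.2.2 (mem_range_self v)

theorem S0_eq_zero_iff {v : ℝ} (h : v ∈ Ioo (0 : ℝ) (1 / 100)) :
    S0 v = 0 ↔ ∃ k : ℤ, (100 * v)⁻¹ = k := by
  have h1 : S0 v ≠ 0 ↔ v ∈ drSet := by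
    rw [← Function.mem_support, S0_spec.1]
  constructor
  · intro h0
    by_contra hne
    push Not at hne
    exact (h1.2 ⟨h, hne⟩) h0
  · rintro ⟨k, hk⟩
    by_contra hne
    exact (h1.1 hne).2 k hk

theorem S0_outside {v : ℝ} (h : v ∉ Ioo (0 : ℝ) (1 / 100)) : S0 v = 0 := by
  by_contra hne
  have : v ∈ drSet := by rw [← S0_spec.1]; exact hne
  exact h this.1

theorem E0_eq_zero_iff {v : ℝ} : E0 v = 0 ↔ v ∉ Ioo (0 : ℝ) (1 / 100) := by
  rw [← E0_spec.1, Function.mem_support, not_not]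

/-- The radial drift rate, as a function of the base point and the squared radius. -/
noncomputable def drift (z : Fin 5 → ℝ) (v : ℝ) : ℝ :=
  S0 v ^ 2 + E0 v ^ 2 * (cos (π * z 0) ^ 2 + cos (π * z 1) ^ 2 + cos (π * z 2) ^ 2)

theorem drift_nonneg (z : Fin 5 → ℝ) (v : ℝ) : 0 ≤ drift z v := by
  rw [drift]; positivity

theorem drift_outside (z : Fin 5 → ℝ) {v : ℝ} (h : v ∉ Ioo (0 : ℝ) (1 / 100)) :
    drift z v = 0 := by
  rw [drift, S0_outside h, E0_eq_zero_iff.2 h]; ring

/-- The angular speed, as a function of the squared radius. -/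
noncomputable def ang (v : ℝ) : ℝ := Real.smoothTransition ((1 / 25 - v) * (100 / 3))

theorem contDiff_ang : ContDiff ℝ ∞ ang :=
  contDiff_smoothTransition.comp ((contDiff_const.sub contDiff_id).mul contDiff_const)

theorem ang_eq_one {v : ℝ} (h : v ≤ 1 / 100) : ang v = 1 :=
  Real.smoothTransition.one_of_one_le (by linarith)

theorem ang_eq_zero {v : ℝ} (h : 1 / 25 ≤ v) : ang v = 0 :=
  Real.smoothTransition.zero_of_nonpos (by
    apply mul_nonpos_of_nonpos_of_nonneg <;> linarith)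

theorem ang_nonneg (v : ℝ) : 0 ≤ ang v := Real.smoothTransition.nonneg _
theorem ang_le_one (v : ℝ) : ang v ≤ 1 := Real.smoothTransition.le_one _

/-- The unrolled field on the disc, multiplied by a speed `g`, and with rotation speed scaled
by `c`. Coordinates `3` and `4` are centred at the centre of the disc. -/
noncomputable def discField (g : ℝ → ℝ) (c : ℝ) (z : Fin 5 → ℝ) : Fin 5 → ℝ :=
  let v := z 3 ^ 2 + z 4 ^ 2
  ![0, 0, 0, g v * (drift z v * z 3 - c * ang v * z 4), g v * (drift z v * z 4 + c * ang v * z 3)]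

theorem discField_contDiff (g : ℝ → ℝ) (hg : ContDiff ℝ ∞ g) (c : ℝ) :
    ContDiff ℝ ∞ (discField g c) := by
  have h3 := contDiff_coord 3
  have h4 := contDiff_coord 4
  have hv : ContDiff ℝ ∞ fun z : Fin 5 → ℝ => z 3 ^ 2 + z 4 ^ 2 := (h3.pow 2).add (h4.pow 2)
  have hcos : ∀ i : Fin 5, ContDiff ℝ ∞ fun z : Fin 5 → ℝ => cos (π * z i) ^ 2 := fun i =>
    ((contDiff_const.mul (contDiff_coord i)).cos).pow 2
  have hdr : ContDiff ℝ ∞ fun z : Fin 5 → ℝ => drift z (z 3 ^ 2 + z 4 ^ 2) := by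
    unfold drift
    exact ((S0_spec.2.1.comp hv).pow 2).add
      (((E0_spec.2.1.comp hv).pow 2).mul (((hcos 0).add (hcos 1)).add (hcos 2)))
  rw [contDiff_pi]
  intro i
  fin_cases i
  · exact contDiff_const
  · exact contDiff_const
  · exact contDiff_const
  · exact (hg.comp hv).mul ((hdr.mul h3).sub ((contDiff_const.mul (contDiff_ang.comp hv)).mul h4))
  · exact (hg.comp hv).mul ((hdr.mul h4).add ((contDiff_const.mul (contDiff_ang.comp hv)).mul h3))

theorem discField_zero (g : ℝ → ℝ) (c : ℝ) (z : Fin 5 → ℝ) (h : 1 / 25 ≤ z 3 ^ 2 + z 4 ^ 2) :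
    discField g c z = 0 := by
  have h1 : z 3 ^ 2 + z 4 ^ 2 ∉ Ioo (0 : ℝ) (1 / 100) := fun hc => by linarith [hc.2]
  funext i
  simp only [discField, drift_outside z h1, ang_eq_zero h]
  fin_cases i <;> simp

/-- Shift of the fibre coordinate by `1/2`. -/
noncomputable def sh (z : Fin 5 → ℝ) : Fin 5 → ℝ := fun i => if i = 3 then z i - 1 / 2 else z i

/-- The periodised field on the disc. -/
noncomputable def DF (g : ℝ → ℝ) (c : ℝ) (z : Fin 5 → ℝ) : Fin 5 → ℝ :=
  discField g c (rdOn {3, 4} (sh z))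

theorem contDiff_sh : ContDiff ℝ ∞ sh := by
  rw [contDiff_pi]
  intro i
  by_cases hi : i = 3
  · simp only [sh, if_pos hi]
    exact (contDiff_coord i).sub contDiff_const
  · simp only [sh, if_neg hi]
    exact contDiff_coord i

theorem good_DF (g : ℝ → ℝ) (hg : ContDiff ℝ ∞ g) (c : ℝ) : Good (DF g c) := by
  refine ⟨?_, ?_⟩
  · have h1 := contDiff_comp_rdOn ({3, 4} : Finset (Fin 5)) _ (discField_contDiff g hg c) (1 / 4)
      (by norm_num) (by
        rintro z ⟨i, hi, h⟩
        apply discField_zero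
        have h2 : (1 / 4 : ℝ) ^ 2 ≤ z i ^ 2 := by
          rw [← sq_abs (z i)]
          exact pow_le_pow_left₀ (by norm_num) h 2
        simp only [Finset.mem_insert, Finset.mem_singleton] at hi
        rcases hi with rfl | rfl
        · nlinarith [sq_nonneg (z 4)]
        · nlinarith [sq_nonneg (z 3)])
    exact h1.comp contDiff_sh
  · intro k z
    have h3 : rdOn {3, 4} (sh (tr k z)) 3 = rdOn {3, 4} (sh z) 3 := by
      have e1 : rdOn {3, 4} (sh (tr k z)) 3 = rd (z 3 + k 3 - 1 / 2) := rfl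
      have e2 : rdOn {3, 4} (sh z) 3 = rd (z 3 - 1 / 2) := rfl
      rw [e1, e2, add_sub_right_comm, rd_add_int]
    have h4 : rdOn {3, 4} (sh (tr k z)) 4 = rdOn {3, 4} (sh z) 4 := by
      have e1 : rdOn {3, 4} (sh (tr k z)) 4 = rd (z 4 + k 4) := rfl
      have e2 : rdOn {3, 4} (sh z) 4 = rd (z 4) := rfl
      rw [e1, e2, rd_add_int]
    have h0 : ∀ i : Fin 5, i ≠ 3 → i ≠ 4 → rdOn {3, 4} (sh (tr k z)) i = z i + k i := by
      intro i hi3 hi4
      simp [rdOn, sh, tr, hi3, hi4]
    have h0' : ∀ i : Fin 5, i ≠ 3 → i ≠ 4 → rdOn {3, 4} (sh z) i = z i := by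
      intro i hi3 hi4
      simp [rdOn, sh, hi3, hi4]
    have hd : ∀ v, drift (rdOn {3, 4} (sh (tr k z))) v = drift (rdOn {3, 4} (sh z)) v := by
      intro v
      simp only [drift]
      rw [h0 0 (by decide) (by decide), h0 1 (by decide) (by decide), h0 2 (by decide) (by decide),
        h0' 0 (by decide) (by decide), h0' 1 (by decide) (by decide), h0' 2 (by decide) (by decide),
        cos_pi_add_int_sq, cos_pi_add_int_sq, cos_pi_add_int_sq]
    simp only [DF, discField, hd, h3, h4]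

/-! ### The two vector fields -/

/-- The squared distance in the fibre to the centre of the disc. -/
noncomputable def uF (z : Fin 5 → ℝ) : ℝ := rd (z 3 - 1 / 2) ^ 2 + rd (z 4) ^ 2

theorem continuous_uF : Continuous uF :=
  (continuous_rd_sq.comp ((continuous_apply 3).sub continuous_const)).add
    (continuous_rd_sq.comp (continuous_apply 4))

/-- The first vector field. -/
noncomputable def X1 (z : Fin 5 → ℝ) : Fin 5 → ℝ :=
  (aB z * fB z) • V0 z + DF (fun v => 100 * v) (2 * π) z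

/-- The second vector field. -/
noncomputable def X2 (z : Fin 5 → ℝ) : Fin 5 → ℝ :=
  (aB z * fB z ^ 2) • V0 z + DF (fun _ => 1) (2 * π) z

theorem Good.add {d : ℕ} {V W : (Fin d → ℝ) → (Fin d → ℝ)} (hV : Good V) (hW : Good W) :
    Good (fun z => V z + W z) :=
  ⟨hV.contDiff.add hW.contDiff, fun k z => by simp only [hV.per k z, hW.per k z]⟩

theorem Good.smul {d : ℕ} {V : (Fin d → ℝ) → (Fin d → ℝ)} (hV : Good V) {a : (Fin d → ℝ) → ℝ}
    (ha : ContDiff ℝ ∞ a) (hp : Per a) : Good (fun z => a z • V z) :=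
  ⟨ha.smul hV.contDiff, fun k z => by simp only [hV.per k z, hp k z]⟩

theorem good_X1 : Good X1 := by
  have h1 : Good (fun z => (aB z * fB z) • V0 z) := good_V0.smul (contDiff_aB.mul contDiff_fB)
    (fun k z => by rw [per_aB k z, per_fB k z])
  exact h1.add (good_DF _ (contDiff_const.mul contDiff_id) _)

theorem good_X2 : Good X2 := by
  have h1 : Good (fun z => (aB z * fB z ^ 2) • V0 z) :=
    good_V0.smul (contDiff_aB.mul (contDiff_fB.pow 2))
      (fun k z => by rw [per_aB k z, per_fB k z])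
  exact h1.add (good_DF _ contDiff_const _)

end Pool.Agent.MP_1a349f_an
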