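import Mathlib
import Pool.Agent.MP_1a349f_an.Fields

set_option autoImplicit false

/-!
# The two flows have the same orbits
-/

namespace Pool.Agent.MP_1a349f_an

open Set Filter Topology Real
open scoped ContDiff

/-- Flows of fields that are positive multiples of each other along an orbit. -/
theorem Good.time_change {d : ℕ} {A B : (Fin d → ℝ) → (Fin d → ℝ)} (hA : Good A) (hB : Good B)
    (z : Fin d → ℝ) (κ : ℝ → ℝ) (hκ : Continuous κ) (hpos : ∀ s, 0 < κ s) (K : ℝ)
    (hK : ∀ s, κ s ≤ K) (h : ∀ s, A (flow B s z) = κ s • B (flow B s z)) :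
    ∃ τ : ℝ ≃o ℝ, τ 0 = 0 ∧ (∀ t, HasDerivAt (fun t => τ t) (κ (τ t)) t) ∧
      ∀ t, flow A t z = flow B (τ t) z := by
  obtain ⟨τ, h0, h1, -⟩ := exists_time_change κ hκ hpos K hK
  refine ⟨τ, h0, h1, fun t => ?_⟩
  have h2 := hA.eq_flow (γ := fun t => flow B (τ t) z) (fun t => by
    rw [h (τ t)]
    exact hasDerivAt_comp_time_change (fun s => hB.hasDerivAt_flow z s) h1 t) t
  rw [h0, hB.flow_zero] at h2
  exact h2.symm

theorem abs_rd_half {t : ℝ} (h : |rd (t - 1 / 2)| ≤ 1 / 5) : 3 / 10 ≤ |rd t| := by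
  rw [rd] at h ⊢
  set m := round (t - 1 / 2) with hm
  set n := round t with hn
  rw [abs_le] at h
  have h1 : ((m : ℝ) + 3 / 10) ≤ t := by linarith [h.1]
  have h2 : t ≤ (m : ℝ) + 7 / 10 := by linarith [h.2]
  rcases le_or_gt n m with hnm | hnm
  · have : (n : ℝ) ≤ m := by exact_mod_cast hnm
    rw [le_abs]; left; linarith
  · have : (m : ℝ) + 1 ≤ n := by exact_mod_cast hnm
    rw [le_abs]; right; linarith

theorem aB_eq_zero_of_uF_le {z : Fin 5 → ℝ} (h : uF z ≤ 1 / 25) : aB z = 0 := by
  have h1 : |rd (z 3 - 1 / 2)| ≤ 1 / 5 := by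
    apply abs_le_of_sq_le_sq _ (by norm_num)
    have := sq_nonneg (rd (z 4))
    rw [uF] at h
    linarith
  have h2 := abs_rd_half h1
  rcases le_abs.1 h2 with h | h
  · exact bump_eq_zero_right (by norm_num) (by linarith)
  · exact bump_eq_zero_left (by norm_num) (by linarith)

theorem DF_eq_zero (g : ℝ → ℝ) (c : ℝ) {z : Fin 5 → ℝ} (h : 1 / 25 ≤ uF z) : DF g c z = 0 :=
  discField_zero g c _ h

theorem DF_eq_smul (g : ℝ → ℝ) (c : ℝ) (z : Fin 5 → ℝ) :
    DF g c z = g (uF z) • DF (fun _ => 1) c z := by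
  funext i
  have hu : (rdOn {3, 4} (sh z) 3) ^ 2 + (rdOn {3, 4} (sh z) 4) ^ 2 = uF z := rfl
  simp only [DF, discField, hu, Pi.smul_apply, smul_eq_mul]
  fin_cases i <;> simp

theorem X1_outside {z : Fin 5 → ℝ} (h : 1 / 25 ≤ uF z) : X1 z = (aB z * fB z) • V0 z := by
  rw [X1, DF_eq_zero _ _ h, add_zero]

theorem X2_outside {z : Fin 5 → ℝ} (h : 1 / 25 ≤ uF z) : X2 z = (aB z * fB z ^ 2) • V0 z := by
  rw [X2, DF_eq_zero _ _ h, add_zero]

theorem X2_inside {z : Fin 5 → ℝ} (h : uF z ≤ 1 / 25) : X2 z = DF (fun _ => 1) (2 * π) z := by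
  rw [X2, aB_eq_zero_of_uF_le h, zero_mul, zero_smul, zero_add]

theorem X1_inside {z : Fin 5 → ℝ} (h : uF z ≤ 1 / 25) : X1 z = (100 * uF z) • X2 z := by
  rw [X2_inside h, X1, aB_eq_zero_of_uF_le h, zero_mul, zero_smul, zero_add, DF_eq_smul]

/-- The open solid region around the centre of the disc. -/
def discRegion : Set (Fin 5 → ℝ) := {z | uF z < 1 / 25}

theorem isOpen_discRegion : IsOpen discRegion := isOpen_lt continuous_uF continuous_const

theorem frontier_discRegion {z : Fin 5 → ℝ} (h : z ∈ frontier discRegion) : uF z = 1 / 25 :=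
  frontier_lt_subset_eq continuous_uF continuous_const h

theorem X2_frontier {z : Fin 5 → ℝ} (h : z ∈ frontier discRegion) : X2 z = 0 := by
  have h1 := frontier_discRegion h
  rw [X2_outside h1.ge, aB_eq_zero_of_uF_le h1.le, zero_mul, zero_smul]

theorem X1_frontier {z : Fin 5 → ℝ} (h : z ∈ frontier discRegion) : X1 z = 0 := by
  rw [X1_inside (frontier_discRegion h).le, X2_frontier h, smul_zero]

theorem X2_mem_disc {z : Fin 5 → ℝ} (h : z ∈ discRegion) (t : ℝ) : flow X2 t z ∈ discRegion :=
  good_X2.mem_of_mem isOpen_discRegion (fun _ => X2_frontier) h t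

theorem X1_mem_disc {z : Fin 5 → ℝ} (h : z ∈ discRegion) (t : ℝ) : flow X1 t z ∈ discRegion :=
  good_X1.mem_of_mem isOpen_discRegion (fun _ => X1_frontier) h t

theorem X2_notMem_disc {z : Fin 5 → ℝ} (h : z ∉ discRegion) (t : ℝ) :
    flow X2 t z ∉ discRegion := by
  intro hc
  have := X2_mem_disc hc (-t)
  rw [good_X2.flow_neg] at this
  exact h this

theorem X1_notMem_disc {z : Fin 5 → ℝ} (h : z ∉ discRegion) (t : ℝ) :
    flow X1 t z ∉ discRegion := by
  intro hc
  have := X1_mem_disc hc (-t)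
  rw [good_X1.flow_neg] at this
  exact h this

theorem V0_ne_zero (z : Fin 5 → ℝ) : V0 z ≠ 0 := by
  intro h
  have := congrFun h 0
  simp [V0] at this

/-- The two flows upstairs have the same oriented orbits. -/
theorem flows_equiv (z : Fin 5 → ℝ) :
    ∃ τ : ℝ ≃o ℝ, τ 0 = 0 ∧ ∀ t, flow X1 t z = flow X2 (τ t) z := by
  by_cases hz : z ∈ discRegion
  · -- inside
    by_cases hu : uF z = 0
    · refine ⟨OrderIso.refl ℝ, rfl, fun t => ?_⟩
      have h1 : X1 z = 0 := by
        rw [X1_inside (le_of_lt hz), hu]; simp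
      have h2 : X2 z = 0 := by
        rw [X2_inside (le_of_lt hz)]
        have h3 : rd (z 3 - 1 / 2) = 0 ∧ rd (z 4) = 0 := by
          rw [uF] at hu
          constructor <;> nlinarith [sq_nonneg (rd (z 3 - 1 / 2)), sq_nonneg (rd (z 4))]
        have h4 : rdOn {3, 4} (sh z) 3 = 0 := h3.1
        have h5 : rdOn {3, 4} (sh z) 4 = 0 := h3.2
        funext i
        simp only [DF, discField, h4, h5]
        fin_cases i <;> simp
      rw [good_X1.flow_of_zero h1, good_X2.flow_of_zero h2]
    · have hin : ∀ s, uF (flow X2 s z) ≤ 1 / 25 := fun s => le_of_lt (X2_mem_disc hz s)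
      have hpos : ∀ s, 0 < 100 * uF (flow X2 s z) := by
        intro s
        have h0 : 0 ≤ uF (flow X2 s z) := by rw [uF]; positivity
        rcases h0.lt_or_eq with h0 | h0
        · linarith
        · exfalso
          have h3 : rd (flow X2 s z 3 - 1 / 2) = 0 ∧ rd (flow X2 s z 4) = 0 := by
            rw [uF] at h0
            constructor <;> nlinarith [sq_nonneg (rd (flow X2 s z 3 - 1 / 2)),
              sq_nonneg (rd (flow X2 s z 4))]
          have h2 : X2 (flow X2 s z) = 0 := by
            rw [X2_inside (hin s)]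
            have h4 : rdOn {3, 4} (sh (flow X2 s z)) 3 = 0 := h3.1
            have h5 : rdOn {3, 4} (sh (flow X2 s z)) 4 = 0 := h3.2
            funext i
            simp only [DF, discField, h4, h5]
            fin_cases i <;> simp
          have h6 := good_X2.flow_of_zero_at h2 s
          rw [h6] at h0
          exact hu h0.symm
      obtain ⟨τ, h0, -, h⟩ := good_X1.time_change good_X2 z (fun s => 100 * uF (flow X2 s z))
        (continuous_const.mul (continuous_uF.comp (good_X2.continuous_flow z))) hpos 4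
        (fun s => by have := hin s; linarith) (fun s => X1_inside (hin s))
      exact ⟨τ, h0, h⟩
  · -- outside
    have hout : ∀ s, 1 / 25 ≤ uF (flow X1 s z) := fun s => not_lt.1 (X1_notMem_disc hz s)
    have hz' : 1 / 25 ≤ uF z := not_lt.1 hz
    by_cases hu : aB z * fB z = 0
    · refine ⟨OrderIso.refl ℝ, rfl, fun t => ?_⟩
      have h1 : X1 z = 0 := by rw [X1_outside hz', hu, zero_smul]
      have h2 : X2 z = 0 := by
        rw [X2_outside hz', pow_two, ← mul_assoc, hu, zero_mul, zero_smul]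
      rw [good_X1.flow_of_zero h1, good_X2.flow_of_zero h2]
    · have hpos : ∀ s, 0 < fB (flow X1 s z) := by
        intro s
        rcases (fB_nonneg (flow X1 s z)).lt_or_eq with h0 | h0
        · exact h0
        · exfalso
          have h1 : X1 (flow X1 s z) = 0 := by
            rw [X1_outside (hout s), ← h0, mul_zero, zero_smul]
          have h2 := good_X1.flow_of_zero_at h1 s
          rw [h2] at h0
          exact hu (by rw [← h0, mul_zero])
      obtain ⟨τ, h0, -, h⟩ := good_X2.time_change good_X1 z (fun s => fB (flow X1 s z))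
        (contDiff_fB.continuous.comp (good_X1.continuous_flow z)) hpos (1 / 4)
        (fun s => fB_le _) (fun s => by
          rw [X1_outside (hout s), X2_outside (hout s), smul_smul]
          congr 1
          ring)
      refine ⟨τ.symm, by rw [OrderIso.symm_apply_eq, h0], fun t => ?_⟩
      rw [h (τ.symm t), OrderIso.apply_symm_apply]

end Pool.Agent.MP_1a349f_an
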