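import Mathlib
import Pool.Agent.MP_1a349f_an.Torus

set_option autoImplicit false

/-!
# Two criteria for the topological entropy of a map of the torus
-/

namespace Pool.Agent.MP_1a349f_an

open Set Filter Topology Dynamics Uniformity
open scoped NNReal ENNReal SetRel

/-! ### The distance on the torus -/

theorem dist_cov_le {d : ℕ} (x y : Fin d → ℝ) : dist (cov x) (cov y) ≤ ‖x - y‖ := by
  rw [dist_pi_le_iff (norm_nonneg _)]
  intro i
  change dist ((x i : ℝ) : UnitAddCircle) ((y i : ℝ) : UnitAddCircle) ≤ _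
  rw [dist_eq_norm, ← AddCircle.coe_sub, UnitAddCircle.norm_eq]
  have h1 : |x i - y i - round (x i - y i)| ≤ |x i - y i - ((0 : ℤ) : ℝ)| := round_le _ 0
  rw [Int.cast_zero, sub_zero] at h1
  exact h1.trans (norm_le_pi_norm (x - y) i)

theorem exists_lift_near {d : ℕ} (x y : Fin d → ℝ) :
    ∃ k : Fin d → ℤ, ‖tr k y - x‖ ≤ dist (cov x) (cov y) := by
  refine ⟨fun i => -round (y i - x i), ?_⟩
  rw [pi_norm_le_iff_of_nonneg dist_nonneg]
  intro i
  have h1 : dist (cov x i) (cov y i) ≤ dist (cov x) (cov y) := dist_le_pi_dist _ _ i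
  refine le_trans (le_of_eq ?_) h1
  change |y i + ((-round (y i - x i) : ℤ) : ℝ) - x i| =
    dist ((x i : ℝ) : UnitAddCircle) ((y i : ℝ) : UnitAddCircle)
  rw [dist_comm, dist_eq_norm, ← AddCircle.coe_sub, UnitAddCircle.norm_eq]
  congr 1
  push_cast
  ring

/-- A finite net in a subset of the torus. -/
theorem exists_net {d : ℕ} (F : Set (Torus d)) (N : ℕ) (hN : 0 < N) :
    ∃ s : Finset (Torus d), (∀ y ∈ s, y ∈ F) ∧ s.card ≤ N ^ d ∧
      ∀ x ∈ F, ∃ y ∈ s, dist x y ≤ 1 / N := by
  classical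
  have hN' : (0 : ℝ) < N := Nat.cast_pos.2 hN
  have hlt : ∀ (m : Torus d) (i : Fin d), ⌊lift m i * N⌋₊ < N := by
    intro m i
    have h1 : lift m i < 1 := by
      have h0 : lift m i < 0 + 1 := (AddCircle.equivIco (1 : ℝ) 0 (m i)).2.2
      linarith
    have h2 : 0 ≤ lift m i := (AddCircle.equivIco (1 : ℝ) 0 (m i)).2.1
    rw [Nat.floor_lt (mul_nonneg h2 hN'.le)]
    nlinarith
  let g : Torus d → (Fin d → Fin N) := fun m i => ⟨⌊lift m i * N⌋₊, hlt m i⟩
  have hg : ∀ m m', g m = g m' → dist m m' ≤ 1 / N := by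
    intro m m' h
    rw [← cov_lift m, ← cov_lift m']
    refine (dist_cov_le _ _).trans ?_
    rw [pi_norm_le_iff_of_nonneg (by positivity)]
    intro i
    have h1 : ⌊lift m i * N⌋₊ = ⌊lift m' i * N⌋₊ := congrArg Fin.val (congrFun h i)
    have p1 : 0 ≤ lift m i := (AddCircle.equivIco (1 : ℝ) 0 (m i)).2.1
    have p2 : 0 ≤ lift m' i := (AddCircle.equivIco (1 : ℝ) 0 (m' i)).2.1
    have a1 := Nat.floor_le (mul_nonneg p1 hN'.le)
    have a2 := Nat.lt_floor_add_one (lift m i * N)
    have b1 := Nat.floor_le (mul_nonneg p2 hN'.le)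
    have b2 := Nat.lt_floor_add_one (lift m' i * N)
    rw [← h1] at b1 b2
    change |lift m i - lift m' i| ≤ 1 / N
    rw [abs_le, le_div_iff₀ hN', ← neg_div, div_le_iff₀ hN']
    constructor <;> linarith
  let P : (Fin d → Fin N) → Prop := fun c => ∃ x ∈ F, g x = c
  let r : (Fin d → Fin N) → Torus d := fun c => if h : P c then h.choose else 0
  have hr : ∀ c, P c → r c ∈ F ∧ g (r c) = c := by
    intro c hc
    have : r c = hc.choose := dif_pos hc
    rw [this]
    exact hc.choose_spec
  refine ⟨(Finset.univ.filter P).image r, ?_, ?_, ?_⟩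
  · intro y hy
    obtain ⟨c, hc, rfl⟩ := Finset.mem_image.1 hy
    exact (hr c (Finset.mem_filter.1 hc).2).1
  · refine Finset.card_image_le.trans ((Finset.card_filter_le _ _).trans ?_)
    rw [Finset.card_univ, Fintype.card_fun, Fintype.card_fin, Fintype.card_fin]
  · intro x hx
    have hP : P (g x) := ⟨x, hx, rfl⟩
    exact ⟨r (g x), Finset.mem_image.2 ⟨g x, Finset.mem_filter.2 ⟨Finset.mem_univ _, hP⟩, rfl⟩,
      hg _ _ (hr _ hP).2.symm⟩

/-! ### Zero entropy -/

/-- If nearby orbits in an invariant set separate at most subexponentially then the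
entropy vanishes. -/
theorem coverEntropy_le_zero {d : ℕ} (T : Torus d → Torus d) (F : Set (Torus d))
    (hF : MapsTo T F F)
    (h : ∀ ε > (0 : ℝ), ∀ δ > (0 : ℝ), ∃ C > (0 : ℝ), ∀ n : ℕ, ∀ x ∈ F, ∀ y ∈ F,
      dist x y ≤ C * Real.exp (-(δ * n)) → ∀ j < n, dist (T^[j] x) (T^[j] y) < ε) :
    coverEntropy T F ≤ 0 := by
  rw [coverEntropy]
  refine iSup₂_le fun U hU => ?_
  obtain ⟨ε, hε, hεU⟩ := Metric.mem_uniformity_dist.1 hU
  let W : SetRel (Torus d) (Torus d) := {p | dist p.1 p.2 < ε / 2}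
  have hWsymm : W.IsSymm := ⟨fun x y hxy => by
    change dist y x < ε / 2
    rw [dist_comm]; exact hxy⟩
  have hWU : W ○ W ⊆ U := by
    rintro ⟨x, y⟩ hxy
    obtain ⟨z, hxz, hzy⟩ := hxy
    apply hεU
    have h1 : dist x z < ε / 2 := hxz
    have h2 : dist z y < ε / 2 := hzy
    calc dist x y ≤ dist x z + dist z y := dist_triangle _ _ _
      _ < ε := by linarith
  refine (coverEntropyEntourage_antitone T F hWU).trans ?_
  change coverEntropyEntourage T F (W ○ W) ≤ 0
  rw [← EReal.le_of_forall_lt_iff_le]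
  intro η hη
  have hη0 : (0 : ℝ) < η := by exact_mod_cast hη
  obtain ⟨C, hC, hC2⟩ := h (ε / 2) (half_pos hε) (η / (2 * (d + 1))) (by positivity)
  set δ : ℝ := η / (2 * (d + 1)) with hδ
  have hδ0 : 0 < δ := by positivity
  set C' : ℝ := 1 / C + 2 with hC'
  have hC'0 : 0 < C' := by positivity
  have hC'1 : 0 ≤ Real.log C' := by
    have h0 : 0 < 1 / C := by positivity
    exact Real.log_nonneg (by rw [hC']; linarith)
  -- choose the time
  obtain ⟨n, hn⟩ := exists_nat_gt (2 * d * Real.log C' / η)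
  have hn0 : 0 < n := by
    have : (0 : ℝ) < n := lt_of_le_of_lt (by positivity) hn
    exact_mod_cast this
  have hn0' : (0 : ℝ) < n := by exact_mod_cast hn0
  -- choose the scale
  set N : ℕ := ⌈Real.exp (δ * n) / C⌉₊ + 1 with hN
  have hN0 : 0 < N := Nat.succ_pos _
  have hN0' : (0 : ℝ) < N := by exact_mod_cast hN0
  have hN1 : 1 / (N : ℝ) ≤ C * Real.exp (-(δ * n)) := by
    have h1 : Real.exp (δ * n) / C ≤ N := by
      rw [hN]; push_cast
      exact (Nat.le_ceil _).trans (by linarith)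
    rw [Real.exp_neg]
    calc 1 / (N : ℝ) ≤ 1 / (Real.exp (δ * n) / C) :=
          one_div_le_one_div_of_le (by positivity) h1
      _ = C * (Real.exp (δ * n))⁻¹ := by field_simp
  have hN2 : (N : ℝ) ≤ C' * Real.exp (δ * n) := by
    have h1 : (⌈Real.exp (δ * n) / C⌉₊ : ℝ) < Real.exp (δ * n) / C + 1 :=
      Nat.ceil_lt_add_one (by positivity)
    have h2 : 1 ≤ Real.exp (δ * n) := Real.one_le_exp (by positivity)
    rw [hN, hC']; push_cast
    have h3 : (1 / C + 2) * Real.exp (δ * n) = Real.exp (δ * n) / C + 2 * Real.exp (δ * n) := by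
      ring
    rw [h3]
    linarith
  obtain ⟨s, hsF, hscard, hs⟩ := exists_net F N hN0
  have hcover : IsDynCoverOf T F W n s := by
    intro x hx
    obtain ⟨y, hy, hxy⟩ := hs x hx
    refine ⟨y, hy, ?_⟩
    rw [mem_dynEntourage]
    intro j hj
    exact hC2 n x hx y (hsF y hy) (hxy.trans hN1) j hj
  refine (hcover.coverEntropyEntourage_le_log_card_div hF hn0.ne').trans ?_
  have h1 : ENNReal.log (s.card : ℝ≥0∞) ≤ ((d * Real.log N : ℝ) : EReal) := by
    have h2 : ENNReal.log (s.card : ℝ≥0∞) ≤ ENNReal.log ((N ^ d : ℕ) : ℝ≥0∞) := by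
      apply ENNReal.log_monotone
      exact_mod_cast hscard
    refine h2.trans (le_of_eq ?_)
    rw [ENNReal.log_pos_real (by positivity) (ENNReal.natCast_ne_top _)]
    congr 1
    simp
  have h2 : ((d * Real.log N : ℝ) : EReal) / (n : EReal) = ((d * Real.log N / n : ℝ) : EReal) := by
    have : (n : EReal) = ((n : ℝ) : EReal) := rfl
    rw [this, ← EReal.coe_div]
  refine (EReal.div_le_div_right_of_nonneg (by positivity) h1).trans ?_
  rw [h2]
  have h3 : d * Real.log N / n ≤ η := by
    have h4 : Real.log N ≤ Real.log C' + δ * n := by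
      calc Real.log N ≤ Real.log (C' * Real.exp (δ * n)) := Real.log_le_log hN0' hN2
        _ = Real.log C' + δ * n := by
          rw [Real.log_mul hC'0.ne' (Real.exp_pos _).ne', Real.log_exp]
    rw [div_le_iff₀ hn0']
    have h5 : (d : ℝ) * Real.log N ≤ d * (Real.log C' + δ * n) :=
      mul_le_mul_of_nonneg_left h4 (Nat.cast_nonneg d)
    have h6 : 2 * d * Real.log C' < η * n := by
      rw [div_lt_iff₀ hη0] at hn
      linarith
    have h7 : (d : ℝ) * δ ≤ η / 2 := by
      rw [hδ, mul_div_assoc', div_le_div_iff₀ (by positivity) (by positivity)]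
      nlinarith
    nlinarith [mul_le_mul_of_nonneg_right h7 hn0'.le]
  exact_mod_cast h3

/-! ### Positive entropy -/

/-- If there are exponentially many orbits which are separated at scale `ε` then the entropy is
positive. -/
theorem coverEntropy_pos {d : ℕ} (T : Torus d → Torus d) (ε C : ℝ) (hε : 0 < ε) (hC : 0 < C)
    (h : ∀ m : ℕ, ∃ x : (Fin m → Bool) → Torus d, ∀ w w', w ≠ w' →
      ∃ j : ℕ, (j : ℝ) ≤ C * m ∧ ε ≤ dist (T^[j] (x w)) (T^[j] (x w'))) :
    0 < coverEntropy T univ := by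
  classical
  let U : SetRel (Torus d) (Torus d) := {p | dist p.1 p.2 < ε / 2}
  have hU : U ∈ 𝓤 (Torus d) := Metric.dist_mem_uniformity (half_pos hε)
  -- a net of size `2^m`
  have hnet : ∀ m : ℕ, ((2 ^ m : ℕ) : ℕ∞) ≤ netMaxcard T univ U (⌊C * m⌋₊ + 1) := by
    intro m
    obtain ⟨x, hx⟩ := h m
    have hinj : Function.Injective x := by
      intro w w' hww
      by_contra hne
      obtain ⟨j, -, hj⟩ := hx w w' hne
      rw [hww, dist_self] at hj
      linarith
    have hs : IsDynNetIn T univ U (⌊C * m⌋₊ + 1)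
        ((Finset.univ.image x : Finset (Torus d)) : Set (Torus d)) := by
      refine ⟨subset_univ _, ?_⟩
      intro y hy y' hy' hne
      rw [Finset.mem_coe, Finset.mem_image] at hy hy'
      obtain ⟨w, -, rfl⟩ := hy
      obtain ⟨w', -, rfl⟩ := hy'
      rw [Function.onFun, Set.disjoint_left]
      intro z hz hz'
      have hww : w ≠ w' := fun h => hne (by rw [h])
      obtain ⟨j, hj, hd⟩ := hx w w' hww
      have hj' : j < ⌊C * m⌋₊ + 1 := Nat.lt_succ_of_le (Nat.le_floor hj)
      have h1 : dist (T^[j] (x w)) (T^[j] z) < ε / 2 := mem_ball_dynEntourage.1 hz j hj'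
      have h2 : dist (T^[j] (x w')) (T^[j] z) < ε / 2 := mem_ball_dynEntourage.1 hz' j hj'
      have h3 := dist_triangle_right (T^[j] (x w)) (T^[j] (x w')) (T^[j] z)
      linarith
    refine le_trans (le_of_eq ?_) hs.card_le_netMaxcard
    rw [Finset.card_image_of_injective _ hinj, Finset.card_univ, Fintype.card_fun,
      Fintype.card_bool, Fintype.card_fin]
  -- the growth rate
  set c : ℝ := Real.log 2 / (C + 1) with hc
  have hlog2 : 0 < Real.log 2 := Real.log_pos one_lt_two
  have hc0 : 0 < c := by positivity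
  have h1 : ((c : ℝ) : EReal) ≤ netEntropyEntourage T univ U := by
    rw [netEntropyEntourage, ExpGrowth.expGrowthSup]
    apply le_limsup_of_frequently_le
    · rw [frequently_atTop]
      intro n₀
      obtain ⟨m, hm⟩ := exists_nat_gt (((n₀ : ℝ) + 1) * (1 + 1 / C))
      have hm1 : (1 : ℝ) ≤ m := by
        have h0 : (0 : ℝ) ≤ n₀ := Nat.cast_nonneg _
        have h00 : 0 < 1 / C := by positivity
        nlinarith
      have hm0 : (0 : ℝ) < m := lt_of_lt_of_le one_pos hm1
      have hmC : (n₀ : ℝ) ≤ C * m := by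
        have h0 : (0 : ℝ) ≤ n₀ := Nat.cast_nonneg _
        have h00 : ((n₀ : ℝ) + 1) * (1 / C) ≤ m := by
          have : ((n₀ : ℝ) + 1) * (1 / C) ≤ ((n₀ : ℝ) + 1) * (1 + 1 / C) :=
            mul_le_mul_of_nonneg_left (by linarith) (by linarith)
          linarith
        rw [mul_one_div, div_le_iff₀ hC] at h00
        linarith
      refine ⟨⌊C * m⌋₊ + 1, ?_, ?_⟩
      · have : n₀ ≤ ⌊C * m⌋₊ := Nat.le_floor hmC
        omega
      · set n : ℕ := ⌊C * m⌋₊ + 1 with hn
        have hn0 : (0 : ℝ) < n := by rw [hn]; positivity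
        have hn1 : (n : ℝ) ≤ (C + 1) * m := by
          have := Nat.floor_le (show 0 ≤ C * m by positivity)
          rw [hn]; push_cast
          linarith
        have h2 : ((Real.log (2 ^ m) : ℝ) : EReal) ≤
            ENNReal.log ((netMaxcard T univ U n : ℕ∞) : ℝ≥0∞) := by
          have h3 : ((Real.log (2 ^ m) : ℝ) : EReal) = ENNReal.log ((2 ^ m : ℕ) : ℝ≥0∞) := by
            rw [ENNReal.log_pos_real (by positivity) (ENNReal.natCast_ne_top _)]
            congr 2
            simp
          rw [h3]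
          apply ENNReal.log_monotone
          have h4 := ENat.toENNReal_mono (hnet m)
          simpa using h4
        have h5 : ((c : ℝ) : EReal) ≤ ((Real.log (2 ^ m) / n : ℝ) : EReal) := by
          have : c ≤ Real.log (2 ^ m) / n := by
            rw [Real.log_pow, hc, div_le_div_iff₀ (by positivity) hn0]
            nlinarith
          exact_mod_cast this
        refine h5.trans ?_
        have h6 : ((Real.log (2 ^ m) / n : ℝ) : EReal) =
            ((Real.log (2 ^ m) : ℝ) : EReal) / (n : EReal) := by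
          have : (n : EReal) = ((n : ℝ) : EReal) := rfl
          rw [this, ← EReal.coe_div]
        rw [h6]
        exact EReal.div_le_div_right_of_nonneg (by positivity) h2
    · isBoundedDefault
  rw [coverEntropy_eq_iSup_netEntropyEntourage]
  refine lt_of_lt_of_le ?_ (h1.trans (le_iSup₂_of_le U hU le_rfl))
  exact_mod_cast hc0

end Pool.Agent.MP_1a349f_an
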