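import Mathlib
import Pool.Agent.MP_1a349f_an.Equiv
import Pool.Agent.MP_1a349f_an.Entropy

set_option autoImplicit false

/-!
# The flows on the torus, and the dynamics outside the disc
-/

namespace Pool.Agent.MP_1a349f_an

open Set Filter Topology Real
open scoped ContDiff

/-! ### The flow on the torus -/

/-- The flow induced on the torus. -/
noncomputable def tflow {d : ℕ} (V : (Fin d → ℝ) → (Fin d → ℝ)) (t : ℝ) (m : Torus d) : Torus d :=
  cov (flow V t (lift m))

theorem Good.tflow_cov {d : ℕ} {V : (Fin d → ℝ) → (Fin d → ℝ)} (hV : Good V) (t : ℝ)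
    (z : Fin d → ℝ) : tflow V t (cov z) = cov (flow V t z) := by
  obtain ⟨k, hk⟩ := cov_eq_cov_iff.1 (cov_lift (cov z)).symm
  rw [tflow, hk, hV.flow_tr, cov_tr]

theorem Good.tflow_zero {d : ℕ} {V : (Fin d → ℝ) → (Fin d → ℝ)} (hV : Good V) (m : Torus d) :
    tflow V 0 m = m := by
  rw [tflow, hV.flow_zero, cov_lift]

theorem Good.tflow_add {d : ℕ} {V : (Fin d → ℝ) → (Fin d → ℝ)} (hV : Good V) (s t : ℝ)
    (m : Torus d) : tflow V (s + t) m = tflow V s (tflow V t m) := by
  rw [tflow, hV.flow_add, ← hV.tflow_cov]; rfl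

theorem Good.tflow_iterate {d : ℕ} {V : (Fin d → ℝ) → (Fin d → ℝ)} (hV : Good V) (n : ℕ)
    (m : Torus d) : (tflow V 1)^[n] m = tflow V n m := by
  induction n generalizing m with
  | zero => simp [hV.tflow_zero]
  | succ n ih =>
    rw [Function.iterate_succ_apply, ih, ← hV.tflow_add]
    push_cast
    rfl

/-- Uniqueness of integral curves on a compact interval. -/
theorem Good.eq_flow_Icc {d : ℕ} {V : (Fin d → ℝ) → (Fin d → ℝ)} (hV : Good V)
    {γ : ℝ → (Fin d → ℝ)} {T : ℝ} (hc : ContinuousOn γ (Icc 0 T))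
    (hγ : ∀ t ∈ Ico 0 T, HasDerivAt γ (V (γ t)) t) : ∀ t ∈ Icc 0 T, γ t = flow V t (γ 0) := by
  obtain ⟨K, hK⟩ := hV.exists_lipschitz
  exact ODE_solution_unique (v := fun _ => V) (fun _ => hK) hc
    (fun t ht => (hγ t ht).hasDerivWithinAt) (hV.continuous_flow (γ 0)).continuousOn
    (fun t _ => (hV.hasDerivAt_flow (γ 0) t).hasDerivWithinAt) (hV.flow_zero _).symm

/-! ### The cut-off is constant along the orbits -/

theorem fderiv_aB_V0 (y : Fin 5 → ℝ) : fderiv ℝ aB y (V0 y) = 0 := by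
  by_cases h : 1 / 5 ≤ |rd (y 3)|
  · have hdiff : DifferentiableAt ℝ aB y := contDiff_aB.differentiable (by simp) y
    have hV : V0 y 3 = 0 := by
      change hx (rd (y 0)) (rd (y 3)) (rd (y 4)) = 0
      rw [hx, cutX_eq_zero h]; ring
    have h1 : HasDerivAt (fun s : ℝ => aB (y + s • V0 y)) (fderiv ℝ aB y (V0 y)) 0 := by
      have h2 : HasDerivAt (fun s : ℝ => y + s • V0 y) (V0 y) 0 := by
        have h3 := ((hasDerivAt_id (0 : ℝ)).smul_const (V0 y)).const_add y
        simpa using h3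
      have h4 : HasFDerivAt aB (fderiv ℝ aB y) (y + (0 : ℝ) • V0 y) := by
        rw [zero_smul, add_zero]
        exact hdiff.hasFDerivAt
      exact h4.comp_hasDerivAt 0 h2
    have h5 : (fun s : ℝ => aB (y + s • V0 y)) = fun _ => aB y := by
      funext s
      simp only [aB, Pi.add_apply, Pi.smul_apply, hV, smul_zero, add_zero]
    rw [h5] at h1
    exact h1.unique (hasDerivAt_const 0 _)
  · have h' : |rd (y 3)| < 21 / 100 := by linarith [not_le.1 h]
    have h1 : ContinuousAt (fun z : Fin 5 → ℝ => |rd (z 3)|) y :=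
      (continuous_abs_rd.comp (continuous_apply 3)).continuousAt
    have h2 : aB =ᶠ[𝓝 y] fun _ => 1 := by
      filter_upwards [h1.eventually_lt continuousAt_const h'] with z hz
      rw [abs_lt] at hz
      exact bump_eq_one (by norm_num) (by norm_num) hz.1.le hz.2.le
    rw [h2.fderiv_eq]
    simp

theorem aB_const {p : (Fin 5 → ℝ) → ℝ} (hV : Good fun z => p z • V0 z) (z : Fin 5 → ℝ) (t : ℝ) :
    aB (flow (fun z => p z • V0 z) t z) = aB z := by
  set V : (Fin 5 → ℝ) → (Fin 5 → ℝ) := fun z => p z • V0 z with hVdef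
  have h1 : ∀ s, HasDerivAt (fun s => aB (flow V s z)) 0 s := by
    intro s
    have h2 : HasFDerivAt aB (fderiv ℝ aB (flow V s z)) (flow V s z) :=
      (contDiff_aB.differentiable (by simp) _).hasFDerivAt
    have h3 := h2.comp_hasDerivAt s (hV.hasDerivAt_flow z s)
    have h4 : (fderiv ℝ aB (flow V s z)) (V (flow V s z)) = 0 := by
      rw [hVdef]
      simp only
      rw [map_smul, fderiv_aB_V0, smul_zero]
    rw [h4] at h3
    exact h3
  have h2 : ∀ s s', aB (flow V s z) = aB (flow V s' z) :=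
    is_const_of_deriv_eq_zero (fun s => (h1 s).differentiableAt) (fun s => (h1 s).deriv)
  have := h2 t 0
  rwa [hV.flow_zero] at this

theorem uF_gt_of_aB_ne_zero {z : Fin 5 → ℝ} (h : aB z ≠ 0) : 1 / 25 < uF z := by
  by_contra hc
  exact h (aB_eq_zero_of_uF_le (not_lt.1 hc))

/-- Removing the cut-off from the field. -/
theorem flow_cutoff {p : (Fin 5 → ℝ) → ℝ} (hV : Good fun z => p z • V0 z)
    {X : (Fin 5 → ℝ) → (Fin 5 → ℝ)} (hX : Good X)
    (hXo : ∀ z, 1 / 25 ≤ uF z → X z = (aB z * p z) • V0 z) {z : Fin 5 → ℝ}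
    (hz : 1 / 25 ≤ uF z) (t : ℝ) : flow X t z = flow (fun z => p z • V0 z) (aB z * t) z := by
  by_cases ha : aB z = 0
  · have h1 : X z = 0 := by rw [hXo z hz, ha, zero_mul, zero_smul]
    rw [hX.flow_of_zero h1, ha, zero_mul, hV.flow_zero]
  · have h1 := hX.eq_flow (γ := fun t => flow (fun z => p z • V0 z) (aB z * t) z) (fun s => by
      have h2 : aB (flow (fun z => p z • V0 z) (aB z * s) z) = aB z := aB_const hV z _
      have h3 : 1 / 25 ≤ uF (flow (fun z => p z • V0 z) (aB z * s) z) :=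
        (uF_gt_of_aB_ne_zero (by rw [h2]; exact ha)).le
      rw [hXo _ h3, h2, ← smul_smul]
      have h4 : HasDerivAt (fun s : ℝ => aB z * s) (aB z) s := by
        simpa using (hasDerivAt_id s).const_mul (aB z)
      exact (hV.hasDerivAt_flow z (aB z * s)).scomp s h4) t
    rw [mul_zero, hV.flow_zero] at h1
    exact h1.symm

/-- The field without the cut-off. -/
noncomputable def V1 (z : Fin 5 → ℝ) : Fin 5 → ℝ := fB z • V0 z

/-- The slower field without the cut-off. -/
noncomputable def V2 (z : Fin 5 → ℝ) : Fin 5 → ℝ := fB z ^ 2 • V0 z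

theorem good_V1 : Good V1 := good_V0.smul contDiff_fB per_fB

theorem good_V2 : Good V2 :=
  good_V0.smul (contDiff_fB.pow 2) (fun k z => by rw [per_fB k z])

theorem flow_X1_outside {z : Fin 5 → ℝ} (hz : 1 / 25 ≤ uF z) (t : ℝ) :
    flow X1 t z = flow V1 (aB z * t) z :=
  flow_cutoff (p := fB) good_V1 good_X1 (fun _ h => X1_outside h) hz t

theorem flow_X2_outside {z : Fin 5 → ℝ} (hz : 1 / 25 ≤ uF z) (t : ℝ) :
    flow X2 t z = flow V2 (aB z * t) z :=
  flow_cutoff (p := fun z => fB z ^ 2) good_V2 good_X2 (fun _ h => X2_outside h) hz t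

end Pool.Agent.MP_1a349f_an
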