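import Mathlib
import Pool.Agent.MP_1a349f_an.Outer

set_option autoImplicit false

/-!
# Orbits of the linear flow on `T^3` along which `1 / f` has bounded averages
-/

namespace Pool.Agent.MP_1a349f_an

open Set Filter Topology Real MeasureTheory
open scoped ENNReal

/-- The speed function in terms of the three base coordinates. -/
noncomputable def f3 (a b c : ℝ) : ℝ := (sin (π * a) ^ 2 + sin (π * b) ^ 2 + sin (π * c) ^ 2) / 12

theorem fB_eq_f3 (z : Fin 5 → ℝ) : fB z = f3 (z 0) (z 1) (z 2) := rfl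

theorem norm_sq_le_sin_sq (a : ℝ) : ‖(a : UnitAddCircle)‖ ^ 2 ≤ sin (π * a) ^ 2 := by
  rw [← abs_rd_eq_norm]
  have h1 : sin (π * a) ^ 2 = sin (π * |rd a|) ^ 2 := by
    have h2 : a = rd a + round a := by rw [rd]; ring
    conv_lhs => rw [h2, sin_pi_add_int_sq]
    rcases abs_choice (rd a) with h | h
    · rw [h]
    · rw [h, mul_neg, sin_neg, neg_sq]
  rw [h1]
  have h3 := abs_rd_le a
  have h4 := abs_nonneg (rd a)
  have h5 : 2 / π * (π * |rd a|) ≤ sin (π * |rd a|) :=
    mul_le_sin (mul_nonneg pi_pos.le h4) (by nlinarith [pi_pos])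
  have h6 : 2 / π * (π * |rd a|) = 2 * |rd a| := by
    field_simp
  rw [h6] at h5
  exact pow_le_pow_left₀ h4 (by linarith) 2

theorem rpow_prod_le {α β γ : ℝ} (hα : 0 < α) (hβ : 0 < β) (hγ : 0 < γ) :
    (α * β * γ) ^ (2 / 3 : ℝ) ≤ α ^ 2 + β ^ 2 + γ ^ 2 := by
  have h1 : ∀ p : ℝ, 0 < p → α ≤ p → β ≤ p → γ ≤ p → (α * β * γ) ^ (2 / 3 : ℝ) ≤ p ^ 2 := by
    intro p hp h1 h2 h3
    have h4 : α * β * γ ≤ p ^ 3 := by
      calc α * β * γ ≤ p * p * p := by gcongr
        _ = p ^ 3 := by ring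
    calc (α * β * γ) ^ (2 / 3 : ℝ) ≤ (p ^ 3) ^ (2 / 3 : ℝ) :=
          rpow_le_rpow (by positivity) h4 (by norm_num)
      _ = p ^ 2 := by
        rw [← rpow_natCast p 3, ← rpow_mul hp.le, ← rpow_natCast p 2]
        norm_num
  rcases le_total α β with h12 | h12
  · rcases le_total β γ with h23 | h23
    · have := h1 γ hγ (h12.trans h23) h23 le_rfl
      nlinarith [sq_nonneg α, sq_nonneg β]
    · have := h1 β hβ h12 le_rfl h23
      nlinarith [sq_nonneg α, sq_nonneg γ]
  · rcases le_total α γ with h13 | h13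
    · have := h1 γ hγ h13 (h12.trans h13) le_rfl
      nlinarith [sq_nonneg α, sq_nonneg β]
    · have := h1 α hα le_rfl h12 h13
      nlinarith [sq_nonneg β, sq_nonneg γ]

/-- An integrable majorant factor on the circle. -/
noncomputable def gC (x : UnitAddCircle) : ℝ≥0∞ := ENNReal.ofReal ‖x‖ ^ (-(2 / 3) : ℝ)

theorem measurable_gC : Measurable gC := by
  unfold gC
  have h1 : Measurable fun x : UnitAddCircle => ENNReal.ofReal ‖x‖ :=
    (ENNReal.continuous_ofReal.comp continuous_norm).measurable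
  exact h1.pow_const _

theorem gC_zero {x : UnitAddCircle} (h : ‖x‖ = 0) : gC x = ⊤ := by
  rw [gC, h, ENNReal.ofReal_zero, ENNReal.zero_rpow_of_neg (by norm_num)]

theorem gC_pos {x : UnitAddCircle} (h : 0 < ‖x‖) :
    gC x = ENNReal.ofReal (‖x‖ ^ (-(2 / 3) : ℝ)) := by
  rw [gC, ENNReal.ofReal_rpow_of_pos h]

theorem gC_ne_zero (x : UnitAddCircle) : gC x ≠ 0 := by
  rcases (norm_nonneg x).lt_or_eq with h | h
  · rw [gC_pos h]
    simp only [ne_eq, ENNReal.ofReal_eq_zero, not_le]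
    positivity
  · rw [gC_zero h.symm]
    simp

theorem inv_f3_le (a b c : ℝ) : ENNReal.ofReal ((f3 a b c)⁻¹) ≤
    12 * (gC a * gC b * gC c) := by
  by_cases ha : ‖(a : UnitAddCircle)‖ = 0
  · rw [gC_zero ha, ENNReal.top_mul (gC_ne_zero _), ENNReal.top_mul (gC_ne_zero _),
      ENNReal.mul_top (by norm_num)]
    exact le_top
  by_cases hb : ‖(b : UnitAddCircle)‖ = 0
  · rw [gC_zero hb, ENNReal.mul_top (gC_ne_zero _), ENNReal.top_mul (gC_ne_zero _),
      ENNReal.mul_top (by norm_num)]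
    exact le_top
  by_cases hc : ‖(c : UnitAddCircle)‖ = 0
  · rw [gC_zero hc, ENNReal.mul_top (mul_ne_zero (gC_ne_zero _) (gC_ne_zero _)),
      ENNReal.mul_top (by norm_num)]
    exact le_top
  have ha' : 0 < ‖(a : UnitAddCircle)‖ := lt_of_le_of_ne (norm_nonneg _) (Ne.symm ha)
  have hb' : 0 < ‖(b : UnitAddCircle)‖ := lt_of_le_of_ne (norm_nonneg _) (Ne.symm hb)
  have hc' : 0 < ‖(c : UnitAddCircle)‖ := lt_of_le_of_ne (norm_nonneg _) (Ne.symm hc)
  rw [gC_pos ha', gC_pos hb', gC_pos hc', ← ENNReal.ofReal_mul (by positivity),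
    ← ENNReal.ofReal_mul (by positivity)]
  have h12 : (12 : ℝ≥0∞) = ENNReal.ofReal 12 := by simp
  rw [h12, ← ENNReal.ofReal_mul (by norm_num)]
  apply ENNReal.ofReal_le_ofReal
  set α := ‖(a : UnitAddCircle)‖
  set β := ‖(b : UnitAddCircle)‖
  set γ := ‖(c : UnitAddCircle)‖
  have h1 : (α * β * γ) ^ (2 / 3 : ℝ) / 12 ≤ f3 a b c := by
    rw [f3]
    have h2 := rpow_prod_le ha' hb' hc'
    have h3 := norm_sq_le_sin_sq a
    have h4 := norm_sq_le_sin_sq b
    have h5 := norm_sq_le_sin_sq c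
    apply div_le_div_of_nonneg_right _ (by norm_num)
    linarith
  have h2 : α ^ (-(2 / 3) : ℝ) * β ^ (-(2 / 3) : ℝ) * γ ^ (-(2 / 3) : ℝ) =
      ((α * β * γ) ^ (2 / 3 : ℝ))⁻¹ := by
    rw [← mul_rpow ha'.le hb'.le, ← mul_rpow (by positivity) hc'.le, rpow_neg (by positivity)]
  rw [h2]
  have h3 : 0 < (α * β * γ) ^ (2 / 3 : ℝ) := by positivity
  calc (f3 a b c)⁻¹ ≤ ((α * β * γ) ^ (2 / 3 : ℝ) / 12)⁻¹ := inv_anti₀ (by positivity) h1
    _ = 12 * ((α * β * γ) ^ (2 / 3 : ℝ))⁻¹ := by
      rw [inv_div, div_eq_mul_inv]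

/-- The integral of the majorant factor. -/
noncomputable def IC : ℝ≥0∞ := ∫⁻ x : UnitAddCircle, gC x

theorem IC_lt_top : IC < ⊤ := by
  rw [IC, ← UnitAddCircle.lintegral_preimage 0]
  rw [zero_add]
  have hle : ∫⁻ a in Ioc (0 : ℝ) 1, gC (a : UnitAddCircle) ≤
      ∫⁻ a in Ioc (0 : ℝ) 1,
        (ENNReal.ofReal (a ^ (-(2 / 3) : ℝ)) + ENNReal.ofReal ((1 - a) ^ (-(2 / 3) : ℝ))) := by
    have h0 : ∀ᵐ a : ℝ, a ≠ 1 := by
      rw [ae_iff]
      simp
    apply lintegral_mono_ae
    rw [ae_restrict_iff' measurableSet_Ioc]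
    filter_upwards [h0] with a ha1 ha
    have ha2 : a < 1 := lt_of_le_of_ne ha.2 ha1
    have hn : ‖(a : UnitAddCircle)‖ = |a - round a| := UnitAddCircle.norm_eq
    by_cases hh : a < 1 / 2
    · have : round a = 0 := by
        rw [round_eq, Int.floor_eq_iff]
        constructor <;> push_cast <;> linarith [ha.1]
      rw [this, Int.cast_zero, sub_zero, abs_of_pos ha.1] at hn
      rw [gC_pos (by rw [hn]; exact ha.1), hn]
      exact le_self_add
    · have : round a = 1 := by
        rw [round_eq, Int.floor_eq_iff]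
        constructor <;> push_cast <;> linarith [ha.1, not_lt.1 hh]
      rw [this, Int.cast_one, abs_of_neg (by linarith), neg_sub] at hn
      rw [gC_pos (by rw [hn]; linarith), hn]
      exact le_add_self
  refine lt_of_le_of_lt hle ?_
  have hm1 : Measurable fun a : ℝ => ENNReal.ofReal (a ^ (-(2 / 3) : ℝ)) := by fun_prop
  rw [lintegral_add_left hm1]
  have hi1 : IntervalIntegrable (fun a : ℝ => a ^ (-(2 / 3) : ℝ)) volume 0 1 :=
    intervalIntegral.intervalIntegrable_rpow' (by norm_num)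
  have hi2 : IntervalIntegrable (fun a : ℝ => (1 - a) ^ (-(2 / 3) : ℝ)) volume 0 1 := by
    have := (hi1.comp_sub_left 1).symm
    simpa using this
  have h1 : ∫⁻ a in Ioc (0 : ℝ) 1, ENNReal.ofReal (a ^ (-(2 / 3) : ℝ)) < ⊤ := by
    rw [intervalIntegrable_iff_integrableOn_Ioc_of_le zero_le_one] at hi1
    exact hi1.lintegral_lt_top
  have h2 : ∫⁻ a in Ioc (0 : ℝ) 1, ENNReal.ofReal ((1 - a) ^ (-(2 / 3) : ℝ)) < ⊤ := by
    rw [intervalIntegrable_iff_integrableOn_Ioc_of_le zero_le_one] at hi2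
    exact hi2.lintegral_lt_top
  exact ENNReal.add_lt_top.2 ⟨h1, h2⟩

theorem lintegral_gC_add (c : UnitAddCircle) : ∫⁻ x : UnitAddCircle, gC (x + c) = IC :=
  lintegral_add_right_eq_self gC c

theorem lintegral_gC_line (c : ℝ) (m : ℕ) :
    ∫⁻ s in Ioc (0 : ℝ) m, gC ((c + s : ℝ) : UnitAddCircle) = m * IC := by
  induction m with
  | zero => simp
  | succ m ih =>
    have h1 : Ioc (0 : ℝ) ((m + 1 : ℕ) : ℝ) = Ioc (0 : ℝ) m ∪ Ioc (m : ℝ) ((m : ℝ) + 1) := by
      rw [Ioc_union_Ioc_eq_Ioc (Nat.cast_nonneg m) (by linarith)]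
      push_cast
      rfl
    rw [h1, lintegral_union measurableSet_Ioc (Ioc_disjoint_Ioc_of_le le_rfl), ih]
    have h2 := UnitAddCircle.lintegral_preimage (m : ℝ) (fun x => gC (x + (c : UnitAddCircle)))
    rw [lintegral_gC_add] at h2
    have h3 : ∫⁻ s in Ioc (m : ℝ) ((m : ℝ) + 1), gC ((c + s : ℝ) : UnitAddCircle) = IC := by
      rw [← h2]
      refine lintegral_congr fun s => ?_
      rw [AddCircle.coe_add, add_comm]
    rw [h3]
    push_cast
    ring

/-- The averaged integrand. -/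
noncomputable def PhiC (m : ℕ) (b : UnitAddCircle × UnitAddCircle) : ℝ≥0∞ :=
  ∫⁻ s in Ioc (0 : ℝ) m, gC ((-(1 / 2) + s : ℝ) : UnitAddCircle) *
    gC (b.1 + ((√2 * s : ℝ) : UnitAddCircle)) * gC (b.2 + ((√3 * s : ℝ) : UnitAddCircle))

theorem measurable_coe_circle : Measurable ((↑) : ℝ → UnitAddCircle) :=
  (AddCircle.continuous_mk' (1 : ℝ)).measurable

theorem measurable_integrand : Measurable fun p : (UnitAddCircle × UnitAddCircle) × ℝ =>
    gC ((-(1 / 2) + p.2 : ℝ) : UnitAddCircle) *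
    gC (p.1.1 + ((√2 * p.2 : ℝ) : UnitAddCircle)) *
      gC (p.1.2 + ((√3 * p.2 : ℝ) : UnitAddCircle)) := by
  have h1 : Measurable fun p : (UnitAddCircle × UnitAddCircle) × ℝ =>
      gC ((-(1 / 2) + p.2 : ℝ) : UnitAddCircle) :=
    measurable_gC.comp (measurable_coe_circle.comp (measurable_const.add measurable_snd))
  have h2 : Measurable fun p : (UnitAddCircle × UnitAddCircle) × ℝ =>
      gC (p.1.1 + ((√2 * p.2 : ℝ) : UnitAddCircle)) :=
    measurable_gC.comp ((measurable_fst.comp measurable_fst).add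
      (measurable_coe_circle.comp (measurable_const.mul measurable_snd)))
  have h3 : Measurable fun p : (UnitAddCircle × UnitAddCircle) × ℝ =>
      gC (p.1.2 + ((√3 * p.2 : ℝ) : UnitAddCircle)) :=
    measurable_gC.comp ((measurable_snd.comp measurable_fst).add
      (measurable_coe_circle.comp (measurable_const.mul measurable_snd)))
  exact (h1.mul h2).mul h3

theorem lintegral_PhiC (m : ℕ) :
    ∫⁻ b : UnitAddCircle × UnitAddCircle, PhiC m b = m * IC * IC * IC := by
  unfold PhiC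
  rw [lintegral_lintegral_swap (f := fun (b : UnitAddCircle × UnitAddCircle) (s : ℝ) =>
    gC ((-(1 / 2) + s : ℝ) : UnitAddCircle) *
    gC (b.1 + ((√2 * s : ℝ) : UnitAddCircle)) * gC (b.2 + ((√3 * s : ℝ) : UnitAddCircle)))
    measurable_integrand.aemeasurable]
  have h1 : ∀ s : ℝ, ∫⁻ b : UnitAddCircle × UnitAddCircle,
      gC ((-(1 / 2) + s : ℝ) : UnitAddCircle) *
      gC (b.1 + ((√2 * s : ℝ) : UnitAddCircle)) * gC (b.2 + ((√3 * s : ℝ) : UnitAddCircle)) =
      gC ((-(1 / 2) + s : ℝ) : UnitAddCircle) * (IC * IC) := by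
    intro s
    have hm1 : Measurable fun x : UnitAddCircle => gC (x + ((√2 * s : ℝ) : UnitAddCircle)) :=
      measurable_gC.comp (measurable_id.add measurable_const)
    have hm2 : Measurable fun x : UnitAddCircle => gC (x + ((√3 * s : ℝ) : UnitAddCircle)) :=
      measurable_gC.comp (measurable_id.add measurable_const)
    have h2 := lintegral_prod_mul (μ := (volume : Measure UnitAddCircle))
      (ν := (volume : Measure UnitAddCircle)) hm1.aemeasurable hm2.aemeasurable
    rw [lintegral_gC_add, lintegral_gC_add] at h2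
    rw [← h2, ← lintegral_const_mul]
    · refine lintegral_congr fun b => ?_
      rw [mul_assoc]
    · exact (hm1.comp measurable_fst).mul (hm2.comp measurable_snd)
  simp_rw [h1]
  rw [lintegral_mul_const, lintegral_gC_line]
  · ring
  · exact measurable_gC.comp (measurable_coe_circle.comp (measurable_const.add measurable_id))

theorem volume_singleton_circle (c : UnitAddCircle) : volume ({c} : Set UnitAddCircle) = 0 := by
  have h := ENNReal.continuous_ofReal.tendsto 0
  rw [ENNReal.ofReal_zero] at h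
  refine le_antisymm ?_ zero_le
  refine ge_of_tendsto (h.mono_left (nhdsWithin_le_nhds (s := Ioi 0))) ?_
  filter_upwards [self_mem_nhdsWithin] with ε hε
  have hε' : (0 : ℝ) < ε := hε
  calc volume ({c} : Set UnitAddCircle) ≤ volume (Metric.closedBall c (ε / 2)) :=
        measure_mono (by
          intro x hx
          rw [mem_singleton_iff] at hx
          rw [hx]
          exact Metric.mem_closedBall_self (by linarith))
    _ ≤ ENNReal.ofReal ε := by
      rw [AddCircle.volume_closedBall]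
      apply ENNReal.ofReal_le_ofReal
      refine (min_le_right _ _).trans ?_
      linarith

/-- There are orbits of the linear flow that never meet the zero of the speed function up to
time `m` and along which `1 / f` has bounded averages. -/
theorem exists_good_base : ∃ C > (0 : ℝ), ∀ m : ℕ, ∃ b1 b2 : ℝ,
    (∀ s ∈ Icc (0 : ℝ) m, 0 < f3 (-(1 / 2) + s) (b1 + √2 * s) (b2 + √3 * s)) ∧
    ∫ s in (0 : ℝ)..m, (f3 (-(1 / 2) + s) (b1 + √2 * s) (b2 + √3 * s))⁻¹ ≤ C * m := by
  set I := IC.toReal with hI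
  have hIC : IC = ENNReal.ofReal I := (ENNReal.ofReal_toReal IC_lt_top.ne).symm
  have hI0 : 0 ≤ I := ENNReal.toReal_nonneg
  refine ⟨12 * (I * I * I) + 1, by positivity, fun m => ?_⟩
  let N : Set (UnitAddCircle × UnitAddCircle) :=
    ⋃ k : ℕ, {b | b.1 = -((√2 * (k + 1 / 2) : ℝ) : UnitAddCircle)}
  have hN : volume N = 0 := by
    rw [measure_iUnion_null_iff]
    intro k
    have h1 : {b : UnitAddCircle × UnitAddCircle |
        b.1 = -((√2 * (k + 1 / 2) : ℝ) : UnitAddCircle)} =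
        ({-((√2 * (k + 1 / 2) : ℝ) : UnitAddCircle)} : Set UnitAddCircle) ×ˢ univ := by
      ext b
      simp [Set.mem_prod]
    rw [h1, Measure.volume_eq_prod, Measure.prod_prod, volume_singleton_circle, zero_mul]
  have hmeas : AEMeasurable (PhiC m) volume := by
    unfold PhiC
    exact (Measurable.lintegral_prod_right' measurable_integrand).aemeasurable
  have : IsProbabilityMeasure (volume : Measure UnitAddCircle) :=
    ⟨by rw [AddCircle.measure_univ]; simp⟩
  have : IsProbabilityMeasure (volume : Measure (UnitAddCircle × UnitAddCircle)) := by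
    rw [Measure.volume_eq_prod]
    infer_instance
  obtain ⟨b, hbN, hb⟩ := exists_notMem_null_le_lintegral hmeas hN
  rw [lintegral_PhiC] at hb
  obtain ⟨b1, hb1⟩ := QuotientAddGroup.mk_surjective b.1
  obtain ⟨b2, hb2⟩ := QuotientAddGroup.mk_surjective b.2
  have hb1' : ((b1 : ℝ) : UnitAddCircle) = b.1 := hb1
  have hb2' : ((b2 : ℝ) : UnitAddCircle) = b.2 := hb2
  have hpos : ∀ s ∈ Icc (0 : ℝ) m, 0 < f3 (-(1 / 2) + s) (b1 + √2 * s) (b2 + √3 * s) := by
    intro s hs
    by_contra hc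
    have h0 : sin (π * (-(1 / 2) + s)) = 0 ∧ sin (π * (b1 + √2 * s)) = 0 := by
      rw [f3] at hc
      have h1 := sq_nonneg (sin (π * (-(1 / 2) + s)))
      have h2 := sq_nonneg (sin (π * (b1 + √2 * s)))
      have h3 := sq_nonneg (sin (π * (b2 + √3 * s)))
      constructor <;> nlinarith
    obtain ⟨k, hk⟩ := sin_eq_zero_iff.1 h0.1
    obtain ⟨l, hl⟩ := sin_eq_zero_iff.1 h0.2
    have hk' : s = k + 1 / 2 := by
      have : π * (k : ℝ) = π * (-(1 / 2) + s) := by rw [← hk]; ring
      have := mul_left_cancel₀ pi_pos.ne' this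
      linarith
    have hl' : (l : ℝ) = b1 + √2 * s := by
      have : π * (l : ℝ) = π * (b1 + √2 * s) := by rw [← hl]; ring
      exact mul_left_cancel₀ pi_pos.ne' this
    have hk0 : 0 ≤ k := by
      by_contra hneg
      have : k ≤ -1 := by omega
      have h5 : (k : ℝ) ≤ -1 := by exact_mod_cast this
      linarith [hs.1]
    have hkm : k < m := by
      by_contra hge
      have : (m : ℤ) ≤ k := by omega
      have h5 : (m : ℝ) ≤ k := by exact_mod_cast this
      linarith [hs.2]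
    apply hbN
    simp only [N, mem_iUnion]
    refine ⟨k.toNat, ?_⟩
    have h6 : ((k.toNat : ℕ) : ℝ) = k := by
      have : ((k.toNat : ℤ)) = k := Int.toNat_of_nonneg hk0
      exact_mod_cast this
    change b.1 = -((√2 * (((k.toNat : ℕ) : ℝ) + 1 / 2) : ℝ) : UnitAddCircle)
    rw [h6, ← hk', ← hb1', eq_neg_iff_add_eq_zero, ← AddCircle.coe_add, ← hl',
      AddCircle.coe_eq_zero_iff]
    exact ⟨l, by simp⟩
  refine ⟨b1, b2, hpos, ?_⟩
  have hcont : Continuous fun s : ℝ => f3 (-(1 / 2) + s) (b1 + √2 * s) (b2 + √3 * s) := by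
    unfold f3
    fun_prop
  have hcont' : ContinuousOn (fun s : ℝ => (f3 (-(1 / 2) + s) (b1 + √2 * s) (b2 + √3 * s))⁻¹)
      (Icc (0 : ℝ) m) := hcont.continuousOn.inv₀ fun s hs => (hpos s hs).ne'
  have hint : IntegrableOn (fun s : ℝ => (f3 (-(1 / 2) + s) (b1 + √2 * s) (b2 + √3 * s))⁻¹)
      (Ioc (0 : ℝ) m) := (hcont'.integrableOn_Icc).mono_set Ioc_subset_Icc_self
  have hnn : 0 ≤ᵐ[volume.restrict (Ioc (0 : ℝ) m)]
      fun s : ℝ => (f3 (-(1 / 2) + s) (b1 + √2 * s) (b2 + √3 * s))⁻¹ := by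
    rw [EventuallyLE, ae_restrict_iff' measurableSet_Ioc]
    refine Eventually.of_forall fun s hs => ?_
    exact (inv_pos.2 (hpos s (Ioc_subset_Icc_self hs))).le
  rw [intervalIntegral.integral_of_le (Nat.cast_nonneg m)]
  have h1 : ENNReal.ofReal (∫ s in Ioc (0 : ℝ) m,
      (f3 (-(1 / 2) + s) (b1 + √2 * s) (b2 + √3 * s))⁻¹) ≤
      ENNReal.ofReal (12 * (I * I * I) * m) := by
    rw [ofReal_integral_eq_lintegral_ofReal hint hnn]
    calc ∫⁻ s in Ioc (0 : ℝ) m,
          ENNReal.ofReal ((f3 (-(1 / 2) + s) (b1 + √2 * s) (b2 + √3 * s))⁻¹)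
        ≤ ∫⁻ s in Ioc (0 : ℝ) m, 12 * (gC ((-(1 / 2) + s : ℝ) : UnitAddCircle) *
          gC (b.1 + ((√2 * s : ℝ) : UnitAddCircle)) *
          gC (b.2 + ((√3 * s : ℝ) : UnitAddCircle))) := by
          refine lintegral_mono fun s => ?_
          have h2 := inv_f3_le (-(1 / 2) + s) (b1 + √2 * s) (b2 + √3 * s)
          have e1 : ((b1 + √2 * s : ℝ) : UnitAddCircle) = b.1 + ((√2 * s : ℝ) : UnitAddCircle) := by
            rw [AddCircle.coe_add, hb1']
          have e2 : ((b2 + √3 * s : ℝ) : UnitAddCircle) = b.2 + ((√3 * s : ℝ) : UnitAddCircle) := by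
            rw [AddCircle.coe_add, hb2']
          rw [e1, e2] at h2
          exact h2
      _ = 12 * PhiC m b := by
          rw [PhiC, lintegral_const_mul]
          have hmm : Measurable fun s : ℝ => ((b, s) : (UnitAddCircle × UnitAddCircle) × ℝ) :=
            measurable_const.prodMk measurable_id
          have := measurable_integrand.comp hmm
          simpa only [Function.comp_def] using this
      _ ≤ 12 * (m * IC * IC * IC) := by gcongr
      _ = ENNReal.ofReal (12 * (I * I * I) * m) := by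
          rw [hIC]
          have e1 : (12 : ℝ≥0∞) = ENNReal.ofReal 12 := by simp
          have e2 : (m : ℝ≥0∞) = ENNReal.ofReal m := by simp
          rw [e1, e2, ← ENNReal.ofReal_mul (by positivity), ← ENNReal.ofReal_mul (by positivity),
            ← ENNReal.ofReal_mul (by positivity), ← ENNReal.ofReal_mul (by positivity)]
          congr 1
          ring
  have h2 := (ENNReal.ofReal_le_ofReal_iff (by positivity)).1 h1
  have h3 : (0 : ℝ) ≤ m := Nat.cast_nonneg m
  linarith

end Pool.Agent.MP_1a349f_an
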