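import Mathlib
import Pool.Agent.MP_1a349f_an.Torus

set_option autoImplicit false

/-!
# Uniform equidistribution of the linear flow with direction `(1, √2, √3)`
-/

namespace Pool.Agent.MP_1a349f_an

open Set Filter Topology Real MeasureTheory UnitAddTorus
open scoped ENNReal

theorem sqrt2_irrational : Irrational √2 := by
  simpa using Nat.Prime.irrational_sqrt Nat.prime_two

theorem sqrt3_irrational : Irrational √3 := by
  simpa using Nat.Prime.irrational_sqrt Nat.prime_three

theorem sqrt6_irrational : Irrational √6 := by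
  have h : ¬ IsSquare (6 : ℕ) := by
    rintro ⟨k, hk⟩
    have h1 : k ≤ 2 := by nlinarith
    interval_cases k <;> omega
  have := irrational_sqrt_natCast_iff.2 h
  simpa using this

/-- Linear independence over the integers. -/
theorem int_indep {a b c : ℤ} (h : (a : ℝ) + b * √2 + c * √3 = 0) : a = 0 ∧ b = 0 ∧ c = 0 := by
  have h2 : √2 * √2 = 2 := mul_self_sqrt (by norm_num)
  have h3 : √3 * √3 = 3 := mul_self_sqrt (by norm_num)
  have h6 : √2 * √3 = √6 := by
    rw [← sqrt_mul (by norm_num)]; norm_num
  have key : (2 * b * c : ℝ) * √6 = a * a - 2 * b * b - 3 * c * c := by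
    have h4 : (b * √2 + c * √3) * (b * √2 + c * √3) = (a : ℝ) * a := by
      have : b * √2 + c * √3 = -(a : ℝ) := by linarith
      rw [this]; ring
    rw [← h6]
    linear_combination h4 - (b * b : ℝ) * h2 - (c * c : ℝ) * h3
  have hbc : b * c = 0 := by
    by_contra hne
    have h5 : √6 = ((a * a - 2 * b * b - 3 * c * c : ℚ) / (2 * b * c : ℚ) : ℚ) := by
      push_cast
      have hne' : (2 * b * c : ℝ) ≠ 0 := by
        have : (b * c : ℝ) ≠ 0 := by exact_mod_cast hne
        intro h0
        apply this
        linarith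
      rw [eq_div_iff hne']
      linarith
    exact sqrt6_irrational ⟨_, h5.symm⟩
  rcases mul_eq_zero.1 hbc with hb | hc
  · subst hb
    have h5 : (c : ℝ) * √3 = -a := by push_cast at h; linarith
    have hc : c = 0 := by
      by_contra hne
      have hne' : (c : ℝ) ≠ 0 := by exact_mod_cast hne
      have : √3 = ((-a : ℚ) / (c : ℚ) : ℚ) := by
        push_cast
        rw [eq_div_iff hne']
        linarith
      exact sqrt3_irrational ⟨_, this.symm⟩
    subst hc
    refine ⟨?_, rfl, rfl⟩
    have : (a : ℝ) = 0 := by push_cast at h5; linarith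
    exact_mod_cast this
  · subst hc
    have h5 : (b : ℝ) * √2 = -a := by push_cast at h; linarith
    have hb : b = 0 := by
      by_contra hne
      have hne' : (b : ℝ) ≠ 0 := by exact_mod_cast hne
      have : √2 = ((-a : ℚ) / (b : ℚ) : ℚ) := by
        push_cast
        rw [eq_div_iff hne']
        linarith
      exact sqrt2_irrational ⟨_, this.symm⟩
    subst hb
    refine ⟨?_, rfl, rfl⟩
    have : (a : ℝ) = 0 := by push_cast at h5; linarith
    exact_mod_cast this

/-- The direction of the base flow. -/
noncomputable def om : Fin 3 → ℝ := ![1, √2, √3]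

/-- The one-parameter subgroup. -/
noncomputable def lineT (s : ℝ) : Torus 3 := cov fun i => s * om i

theorem continuous_lineT : Continuous lineT :=
  continuous_cov.comp (continuous_pi fun _ => continuous_id.mul continuous_const)

/-- The frequency of a character along the line. -/
noncomputable def freq (n : Fin 3 → ℤ) : ℝ := n 0 + n 1 * √2 + n 2 * √3

theorem freq_ne_zero {n : Fin 3 → ℤ} (h : n ≠ 0) : freq n ≠ 0 := by
  intro h0
  obtain ⟨h1, h2, h3⟩ := int_indep h0
  apply h
  funext i
  fin_cases i
  · exact h1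
  · exact h2
  · exact h3

theorem mFourier_add_apply (n : Fin 3 → ℤ) (x y : Torus 3) :
    mFourier n (x + y) = mFourier n x * mFourier n y := by
  simp only [mFourier, ContinuousMap.coe_mk, Pi.add_apply, ← Finset.prod_mul_distrib]
  refine Finset.prod_congr rfl fun i _ => ?_
  simp only [fourier_apply, smul_add, AddCircle.toCircle_add, Circle.coe_mul]

theorem mFourier_lineT (n : Fin 3 → ℤ) (s : ℝ) :
    mFourier n (lineT s) = Complex.exp ((2 * π * freq n * Complex.I) * s) := by
  simp only [mFourier, ContinuousMap.coe_mk, lineT, cov, fourier_coe_apply]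
  rw [← Complex.exp_sum, Fin.sum_univ_three]
  congr 1
  simp only [om, freq]
  simp
  ring

theorem norm_exp_le (n : Fin 3 → ℤ) (s : ℝ) :
    ‖Complex.exp ((2 * π * freq n * Complex.I) * s)‖ = 1 := by
  have : (2 * π * freq n * Complex.I) * s = ((2 * π * freq n * s : ℝ) : ℂ) * Complex.I := by
    push_cast; ring
  rw [this, Complex.norm_exp_ofReal_mul_I]

/-- Uniform convergence of the averages. -/
def Equi (g : C(Torus 3, ℂ)) : Prop :=
  ∀ η > (0 : ℝ), ∃ S > (0 : ℝ), ∀ s ≥ S, ∀ x : Torus 3,
    ‖(∫ r in (0 : ℝ)..s, g (x + lineT r)) - s * ∫ y, g y‖ ≤ η * s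

theorem measure_univ_circle : volume (univ : Set UnitAddCircle) = 1 := by
  rw [AddCircle.measure_univ]; simp

theorem prob_circle : IsProbabilityMeasure (volume : Measure UnitAddCircle) :=
  ⟨measure_univ_circle⟩

theorem prob_torus : IsProbabilityMeasure (volume : Measure (Torus 3)) := by
  have := prob_circle
  rw [volume_pi]
  infer_instance

theorem integral_mFourier {n : Fin 3 → ℤ} (h : n ≠ 0) : ∫ y : Torus 3, mFourier n y = 0 := by
  have hf := freq_ne_zero h
  have h1 : ∀ s : ℝ, (∫ y : Torus 3, mFourier n y) =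
      (∫ y : Torus 3, mFourier n y) * Complex.exp ((2 * π * freq n * Complex.I) * s) := by
    intro s
    conv_lhs => rw [← integral_add_right_eq_self (fun y : Torus 3 => mFourier n y) (lineT s)]
    simp_rw [mFourier_add_apply, mFourier_lineT]
    rw [integral_mul_const]
  have h2 := h1 (1 / (2 * freq n))
  have h3 : (2 * π * freq n * Complex.I) * ((1 / (2 * freq n) : ℝ) : ℂ) = π * Complex.I := by
    push_cast
    have : (freq n : ℂ) ≠ 0 := by exact_mod_cast hf
    field_simp
  rw [h3, Complex.exp_pi_mul_I] at h2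
  have h4 : (∫ y : Torus 3, mFourier n y) + (∫ y : Torus 3, mFourier n y) = 0 := by
    linear_combination h2
  rw [← two_mul] at h4
  exact (mul_eq_zero.1 h4).resolve_left two_ne_zero

theorem equi_mFourier (n : Fin 3 → ℤ) : Equi (mFourier n) := by
  intro η hη
  by_cases hn : n = 0
  · subst hn
    refine ⟨1, one_pos, fun s hs x => ?_⟩
    have := prob_torus
    rw [mFourier_zero]
    simp only [ContinuousMap.one_apply, intervalIntegral.integral_const, sub_zero,
      integral_const, Complex.real_smul, mul_one, probReal_univ]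
    simp only [Complex.ofReal_one, mul_one, sub_self, norm_zero]
    have : 0 < s := lt_of_lt_of_le one_pos hs
    positivity
  · have hf := freq_ne_zero hn
    set c : ℂ := 2 * π * freq n * Complex.I with hc
    have hc0 : c ≠ 0 := by
      rw [hc]
      have h1 : (freq n : ℂ) ≠ 0 := by exact_mod_cast hf
      have h2 : (π : ℂ) ≠ 0 := by exact_mod_cast pi_pos.ne'
      simp [h1, h2, Complex.I_ne_zero]
    have hcn : 0 < ‖c‖ := norm_pos_iff.2 hc0
    refine ⟨2 / (‖c‖ * η), by positivity, fun s hs x => ?_⟩
    rw [integral_mFourier hn, mul_zero, sub_zero]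
    simp_rw [mFourier_add_apply, mFourier_lineT, ← hc]
    rw [intervalIntegral.integral_const_mul, integral_exp_mul_complex hc0]
    have h1 : ‖mFourier n x‖ ≤ 1 :=
      ((mFourier n).norm_coe_le_norm x).trans (le_of_eq mFourier_norm)
    have h2 : ‖(Complex.exp (c * s) - Complex.exp (c * (0 : ℝ))) / c‖ ≤ 2 / ‖c‖ := by
      rw [norm_div]
      apply div_le_div_of_nonneg_right _ hcn.le
      refine (norm_sub_le _ _).trans ?_
      rw [hc, norm_exp_le, norm_exp_le]
      norm_num
    calc ‖mFourier n x * ((Complex.exp (c * s) - Complex.exp (c * (0 : ℝ))) / c)‖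
        ≤ 1 * (2 / ‖c‖) := by
          rw [norm_mul]
          exact mul_le_mul h1 h2 (norm_nonneg _) zero_le_one
      _ ≤ η * s := by
          rw [one_mul]
          have : 2 / (‖c‖ * η) ≤ s := hs
          rw [div_le_iff₀ (by positivity)] at this
          rw [div_le_iff₀ hcn]
          linarith

theorem intervalIntegrable_line (g : C(Torus 3, ℂ)) (x : Torus 3) (a b : ℝ) :
    IntervalIntegrable (fun r => g (x + lineT r)) volume a b :=
  (g.continuous.comp (continuous_const.add continuous_lineT)).intervalIntegrable _ _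

theorem integrable_torus (g : C(Torus 3, ℂ)) : Integrable (fun y => g y) (volume : Measure (Torus 3)) := by
  have := prob_torus
  exact g.continuous.integrable_of_hasCompactSupport (HasCompactSupport.of_compactSpace _)

/-- The submodule of equidistributing functions. -/
noncomputable def equiSub : Submodule ℂ C(Torus 3, ℂ) where
  carrier := {g | Equi g}
  zero_mem' := by
    intro η hη
    refine ⟨1, one_pos, fun s hs x => ?_⟩
    simp
    have : 0 < s := lt_of_lt_of_le one_pos hs
    positivity
  add_mem' := by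
    intro g g' hg hg' η hη
    obtain ⟨S, hS, h⟩ := hg (η / 2) (half_pos hη)
    obtain ⟨S', hS', h'⟩ := hg' (η / 2) (half_pos hη)
    refine ⟨max S S', lt_max_of_lt_left hS, fun s hs x => ?_⟩
    have h1 := h s (le_trans (le_max_left _ _) hs) x
    have h2 := h' s (le_trans (le_max_right _ _) hs) x
    simp only [ContinuousMap.add_apply]
    rw [intervalIntegral.integral_add (intervalIntegrable_line g x 0 s)
      (intervalIntegrable_line g' x 0 s), integral_add (integrable_torus g) (integrable_torus g')]
    have h3 : ∀ a b c d : ℂ, a + b - s * (c + d) = (a - s * c) + (b - s * d) := by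
      intros; ring
    rw [h3]
    refine (norm_add_le _ _).trans ?_
    linarith
  smul_mem' := by
    intro c g hg η hη
    obtain ⟨S, hS, h⟩ := hg (η / (‖c‖ + 1)) (by positivity)
    refine ⟨S, hS, fun s hs x => ?_⟩
    have h1 := h s hs x
    have hs0 : 0 < s := lt_of_lt_of_le hS hs
    simp only [ContinuousMap.smul_apply, smul_eq_mul]
    rw [intervalIntegral.integral_const_mul, integral_const_mul]
    have h3 : ∀ a b : ℂ, c * a - s * (c * b) = c * (a - s * b) := by
      intros; ring
    rw [h3, norm_mul]
    calc ‖c‖ * ‖(∫ r in (0 : ℝ)..s, g (x + lineT r)) - s * ∫ y, g y‖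
        ≤ ‖c‖ * (η / (‖c‖ + 1) * s) := mul_le_mul_of_nonneg_left h1 (norm_nonneg _)
      _ = η * s * (‖c‖ / (‖c‖ + 1)) := by ring
      _ ≤ η * s * 1 := by
          apply mul_le_mul_of_nonneg_left _ (by positivity)
          rw [div_le_one (by positivity)]
          linarith
      _ = η * s := mul_one _

theorem equi_all (g : C(Torus 3, ℂ)) : Equi g := by
  have hle : Submodule.span ℂ (range (mFourier (d := Fin 3))) ≤ equiSub := by
    rw [Submodule.span_le]
    rintro _ ⟨n, rfl⟩
    exact equi_mFourier n
  have hg : g ∈ (Submodule.span ℂ (range (mFourier (d := Fin 3)))).topologicalClosure := by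
    rw [span_mFourier_closure_eq_top]; trivial
  have hg' : g ∈ closure ((Submodule.span ℂ (range (mFourier (d := Fin 3))) :
      Submodule ℂ C(Torus 3, ℂ)) : Set C(Torus 3, ℂ)) := hg
  have hprob := prob_torus
  intro η hη
  obtain ⟨g', hg'm, hd⟩ := Metric.mem_closure_iff.1 hg' (η / 3) (by positivity)
  obtain ⟨S, hS, h⟩ := hle hg'm (η / 3) (by positivity)
  refine ⟨S, hS, fun s hs x => ?_⟩
  have hs0 : 0 < s := lt_of_lt_of_le hS hs
  have h1 := h s hs x
  have hpt : ∀ y, ‖g y - g' y‖ ≤ η / 3 := by
    intro y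
    rw [← dist_eq_norm]
    exact (ContinuousMap.dist_apply_le_dist y).trans hd.le
  have h2 : ‖(∫ r in (0 : ℝ)..s, g (x + lineT r)) - ∫ r in (0 : ℝ)..s, g' (x + lineT r)‖ ≤
      η / 3 * s := by
    rw [← intervalIntegral.integral_sub (intervalIntegrable_line g x 0 s)
      (intervalIntegrable_line g' x 0 s)]
    have := intervalIntegral.norm_integral_le_of_norm_le_const
      (a := 0) (b := s) (C := η / 3) (f := fun r => g (x + lineT r) - g' (x + lineT r))
      (fun r _ => hpt _)
    rwa [sub_zero, abs_of_pos hs0] at this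
  have h3 : ‖(∫ y, g' y) - ∫ y, g y‖ ≤ η / 3 := by
    rw [← integral_sub (integrable_torus g') (integrable_torus g)]
    have h4 : ∀ y, ‖g' y - g y‖ ≤ η / 3 := fun y => by rw [norm_sub_rev]; exact hpt y
    have := norm_integral_le_of_norm_le_const (μ := (volume : Measure (Torus 3)))
      (Eventually.of_forall h4)
    simpa using this
  have h4 : (∫ r in (0 : ℝ)..s, g (x + lineT r)) - s * ∫ y, g y =
      ((∫ r in (0 : ℝ)..s, g (x + lineT r)) - ∫ r in (0 : ℝ)..s, g' (x + lineT r)) +
      ((∫ r in (0 : ℝ)..s, g' (x + lineT r)) - s * ∫ y, g' y) +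
      s * ((∫ y, g' y) - ∫ y, g y) := by ring
  rw [h4]
  have h5 : ‖(s : ℂ) * ((∫ y, g' y) - ∫ y, g y)‖ ≤ s * (η / 3) := by
    rw [norm_mul, Complex.norm_real, Real.norm_eq_abs, abs_of_pos hs0]
    exact mul_le_mul_of_nonneg_left h3 hs0.le
  refine (norm_add₃_le).trans ?_
  linarith

/-- Lower bound for ergodic integrals of real functions, uniform in the starting point. -/
theorem exists_lower_bound (g : Torus 3 → ℝ) (hg : Continuous g) (M : ℝ)
    (hM : M < ∫ y, g y) : ∃ S > (0 : ℝ), ∀ s ≥ S, ∀ x : Torus 3,
      M * s ≤ ∫ r in (0 : ℝ)..s, g (x + lineT r) := by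
  let gc : C(Torus 3, ℂ) := ⟨fun y => (g y : ℂ), Complex.continuous_ofReal.comp hg⟩
  obtain ⟨S, hS, h⟩ := equi_all gc ((∫ y, g y) - M) (by linarith)
  refine ⟨S, hS, fun s hs x => ?_⟩
  have h1 := h s hs x
  have e1 : ∫ r in (0 : ℝ)..s, gc (x + lineT r) =
      ((∫ r in (0 : ℝ)..s, g (x + lineT r) : ℝ) : ℂ) := by
    simp only [gc, ContinuousMap.coe_mk]
    exact intervalIntegral.integral_ofReal
  have e2 : ∫ y, gc y = ((∫ y, g y : ℝ) : ℂ) := by
    simp only [gc, ContinuousMap.coe_mk]
    exact integral_ofReal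
  rw [e1, e2, ← Complex.ofReal_mul, ← Complex.ofReal_sub, Complex.norm_real, Real.norm_eq_abs,
    abs_le] at h1
  nlinarith [h1.1]

end Pool.Agent.MP_1a349f_an
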