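import Mathlib
import Pool.Agent.MP_1a349f_an.Averaging
import Pool.Agent.MP_1a349f_an.Weyl

set_option autoImplicit false

/-!
# The base motion of the slow flow is sublinear, uniformly in the starting point
-/

namespace Pool.Agent.MP_1a349f_an

open Set Filter Topology Real MeasureTheory
open scoped ENNReal

theorem Good.coord {d : ℕ} {V : (Fin d → ℝ) → (Fin d → ℝ)} (hV : Good V) (i j : Fin d) (c : ℝ)
    (h : ∀ y, V y i = c * V y j) (z : Fin d → ℝ) (t : ℝ) :
    flow V t z i - z i = c * (flow V t z j - z j) := by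
  have h1 : ∀ t, HasDerivAt (fun t => flow V t z i - c * flow V t z j) 0 t := by
    intro t
    have h2 := (hasDerivAt_pi.1 (hV.hasDerivAt_flow z t)) i
    have h3 := ((hasDerivAt_pi.1 (hV.hasDerivAt_flow z t)) j).const_mul c
    have h4 := h2.fun_sub h3
    rw [h, sub_self] at h4
    exact h4
  have h2 := is_const_of_deriv_eq_zero (fun t => (h1 t).differentiableAt)
    (fun t => (h1 t).deriv) t 0
  simp only [hV.flow_zero] at h2
  linarith

theorem sin_sq_le_norm_sq (a : ℝ) : sin (π * a) ^ 2 ≤ (π * ‖(a : UnitAddCircle)‖) ^ 2 := by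
  rw [← abs_rd_eq_norm]
  have h1 : sin (π * a) ^ 2 = sin (π * |rd a|) ^ 2 := by
    have h2 : a = rd a + round a := by rw [rd]; ring
    conv_lhs => rw [h2, sin_pi_add_int_sq]
    rcases abs_choice (rd a) with h | h
    · rw [h]
    · rw [h, mul_neg, sin_neg, neg_sq]
  rw [h1]
  have h4 : 0 ≤ π * |rd a| := mul_nonneg pi_pos.le (abs_nonneg (rd a))
  have h5 : |sin (π * |rd a|)| ≤ π * |rd a| := by
    rw [abs_le]
    constructor
    · have := sin_le h4
      have h6 : -(π * |rd a|) ≤ sin (π * |rd a|) := by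
        have := sin_le h4
        have h7 := neg_abs_le (sin (π * |rd a|))
        have h8 := abs_sin_le_one (π * |rd a|)
        nlinarith [abs_le.1 (abs_sin_le_abs (x := π * |rd a|)), abs_of_nonneg h4]
      exact h6
    · exact sin_le h4
  rw [← sq_abs]
  exact pow_le_pow_left₀ (abs_nonneg _) h5 2

theorem f3_le_norm (a b c : ℝ) (y : Torus 3) (h0 : y 0 = (a : UnitAddCircle))
    (h1 : y 1 = (b : UnitAddCircle)) (h2 : y 2 = (c : UnitAddCircle)) :
    f3 a b c ≤ 3 * ‖y‖ ^ 2 := by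
  have e0 : ‖(a : UnitAddCircle)‖ ≤ ‖y‖ := by rw [← h0]; exact norm_le_pi_norm y 0
  have e1 : ‖(b : UnitAddCircle)‖ ≤ ‖y‖ := by rw [← h1]; exact norm_le_pi_norm y 1
  have e2 : ‖(c : UnitAddCircle)‖ ≤ ‖y‖ := by rw [← h2]; exact norm_le_pi_norm y 2
  have s0 := sin_sq_le_norm_sq a
  have s1 := sin_sq_le_norm_sq b
  have s2 := sin_sq_le_norm_sq c
  have q : ∀ u : ℝ, 0 ≤ u → u ≤ ‖y‖ → (π * u) ^ 2 ≤ 12 * ‖y‖ ^ 2 := by
    intro u hu huy
    have hpi : π ^ 2 ≤ 12 := by
      have h1 := pi_lt_d2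
      have h2 := pi_pos
      nlinarith
    have h2 : u ^ 2 ≤ ‖y‖ ^ 2 := pow_le_pow_left₀ hu huy 2
    rw [mul_pow]
    calc π ^ 2 * u ^ 2 ≤ 12 * u ^ 2 := mul_le_mul_of_nonneg_right hpi (sq_nonneg u)
      _ ≤ 12 * ‖y‖ ^ 2 := by linarith
  have q0 := q _ (norm_nonneg _) e0
  have q1 := q _ (norm_nonneg _) e1
  have q2 := q _ (norm_nonneg _) e2
  rw [f3]
  linarith

/-- The test function. -/
noncomputable def gT (r : ℝ) (y : Torus 3) : ℝ := 1 / (9 * ‖y‖ ^ 4 + r ^ 4)

theorem gT_den_pos {r : ℝ} (hr : 0 < r) (y : Torus 3) : 0 < 9 * ‖y‖ ^ 4 + r ^ 4 := by positivity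

theorem continuous_gT {r : ℝ} (hr : 0 < r) : Continuous (gT r) := by
  unfold gT
  apply Continuous.div continuous_const (by fun_prop)
  intro y
  exact (gT_den_pos hr y).ne'

theorem gT_nonneg {r : ℝ} (hr : 0 < r) (y : Torus 3) : 0 ≤ gT r y :=
  div_nonneg zero_le_one (gT_den_pos hr y).le

theorem gT_mul_le {r : ℝ} (hr : 0 < r) (y : Torus 3) {f : ℝ} (h0 : 0 ≤ f)
    (hf : f ≤ 3 * ‖y‖ ^ 2) : gT r y * f ^ 2 ≤ 1 := by
  have h1 := gT_den_pos hr y
  rw [gT, one_div_mul_eq_div, div_le_one h1]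
  have h2 : f ^ 2 ≤ (3 * ‖y‖ ^ 2) ^ 2 := pow_le_pow_left₀ h0 hf 2
  have h3 : 0 < r ^ 4 := by positivity
  nlinarith

theorem integral_gT {r : ℝ} (hr : 0 < r) (hr2 : r < 1 / 2) : 4 / (5 * r) ≤ ∫ y, gT r y := by
  have hprob := prob_torus
  have hint : Integrable (gT r) (volume : Measure (Torus 3)) :=
    (continuous_gT hr).integrable_of_hasCompactSupport (HasCompactSupport.of_compactSpace _)
  have hmeas : MeasurableSet (Metric.closedBall (0 : Torus 3) r) :=
    Metric.isClosed_closedBall.measurableSet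
  have h1 : ∫ y in Metric.closedBall (0 : Torus 3) r, gT r y ≤ ∫ y, gT r y :=
    setIntegral_le_integral hint (Eventually.of_forall fun y => gT_nonneg hr y)
  have hvol : (volume : Measure (Torus 3)).real (Metric.closedBall (0 : Torus 3) r) = (2 * r) ^ 3 := by
    rw [Measure.real, volume_pi, Measure.pi_closedBall _ _ hr.le]
    simp only [AddCircle.volume_closedBall]
    rw [min_eq_right (by linarith)]
    simp only [Finset.prod_const, Finset.card_univ, Fintype.card_fin]
    rw [ENNReal.toReal_pow, ENNReal.toReal_ofReal (by positivity)]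
  have h2 : 1 / (10 * r ^ 4) * (2 * r) ^ 3 ≤ ∫ y in Metric.closedBall (0 : Torus 3) r, gT r y := by
    have h3 : ∫ _y in Metric.closedBall (0 : Torus 3) r, (1 / (10 * r ^ 4) : ℝ) =
        1 / (10 * r ^ 4) * (2 * r) ^ 3 := by
      rw [setIntegral_const, hvol, smul_eq_mul, mul_comm]
    rw [← h3]
    apply setIntegral_mono_on _ hint.integrableOn hmeas
    · intro y hy
      rw [Metric.mem_closedBall, dist_zero_right] at hy
      rw [gT]
      apply one_div_le_one_div_of_le (gT_den_pos hr y)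
      have : ‖y‖ ^ 4 ≤ r ^ 4 := pow_le_pow_left₀ (norm_nonneg _) hy 4
      linarith
    · exact integrableOn_const (measure_ne_top _ _)
  refine le_trans (le_of_eq ?_) (h2.trans h1)
  field_simp
  ring

theorem V2_coord (y : Fin 5 → ℝ) : V2 y 0 = fB y ^ 2 ∧ V2 y 1 = √2 * V2 y 0 ∧
    V2 y 2 = √3 * V2 y 0 := by
  have h0 : V2 y 0 = fB y ^ 2 * 1 := rfl
  have h1 : V2 y 1 = fB y ^ 2 * √2 := rfl
  have h2 : V2 y 2 = fB y ^ 2 * √3 := rfl
  refine ⟨by rw [h0, mul_one], ?_, ?_⟩
  · rw [h0, h1]; ring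
  · rw [h0, h2]; ring

/-- The advance of the base coordinate. -/
noncomputable def adv (z : Fin 5 → ℝ) (t : ℝ) : ℝ := flow V2 t z 0 - z 0

theorem hasDerivAt_adv (z : Fin 5 → ℝ) (t : ℝ) :
    HasDerivAt (adv z) (fB (flow V2 t z) ^ 2) t := by
  have h := ((hasDerivAt_pi.1 (good_V2.hasDerivAt_flow z t)) 0).sub_const (z 0)
  rw [(V2_coord _).1] at h
  exact h

theorem adv_zero (z : Fin 5 → ℝ) : adv z 0 = 0 := by
  rw [adv, good_V2.flow_zero, sub_self]

theorem adv_nonneg (z : Fin 5 → ℝ) {t : ℝ} (ht : 0 ≤ t) : 0 ≤ adv z t := by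
  have hm : Monotone (adv z) := monotone_of_deriv_nonneg
    (fun t => (hasDerivAt_adv z t).differentiableAt) (fun t => by
      rw [(hasDerivAt_adv z t).deriv]; positivity)
  have := hm ht
  rwa [adv_zero] at this

/-- The base motion is sublinear. -/
theorem adv_sublinear {δ : ℝ} (hδ : 0 < δ) : ∃ C > (0 : ℝ), ∀ z : Fin 5 → ℝ, ∀ t ≥ (0 : ℝ),
    adv z t ≤ δ * t + C := by
  set r : ℝ := min (1 / 4) (δ / 2) with hr
  have hr0 : 0 < r := lt_min (by norm_num) (half_pos hδ)
  have hr1 : r < 1 / 2 := lt_of_le_of_lt (min_le_left _ _) (by norm_num)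
  have hM : 1 / δ < ∫ y, gT r y := by
    refine lt_of_lt_of_le ?_ (integral_gT hr0 hr1)
    rw [div_lt_div_iff₀ hδ (by positivity)]
    have : r ≤ δ / 2 := min_le_right _ _
    linarith
  obtain ⟨S, hS, h⟩ := exists_lower_bound (gT r) (continuous_gT hr0) (1 / δ) hM
  refine ⟨S, hS, fun z t ht => ?_⟩
  set x : Torus 3 := fun i => ((z (Fin.castLE (by norm_num) i) : ℝ) : UnitAddCircle) with hx
  let G : ℝ → ℝ := fun s => ∫ σ in (0 : ℝ)..s, gT r (x + lineT σ)
  have hcont : Continuous fun σ => gT r (x + lineT σ) :=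
    (continuous_gT hr0).comp (continuous_const.add continuous_lineT)
  have hG : ∀ s, HasDerivAt G (gT r (x + lineT s)) s := fun s =>
    (hcont.integral_hasStrictDerivAt 0 s).hasDerivAt
  have hGa : ∀ t, HasDerivAt (fun t => G (adv z t))
      (gT r (x + lineT (adv z t)) * fB (flow V2 t z) ^ 2) t := fun t =>
    (hG (adv z t)).comp t (hasDerivAt_adv z t)
  have hle : ∀ t, gT r (x + lineT (adv z t)) * fB (flow V2 t z) ^ 2 ≤ 1 := by
    intro t
    apply gT_mul_le hr0 _ (fB_nonneg _)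
    rw [fB_eq_f3]
    have c1 := good_V2.coord 1 0 (√2) (fun y => (V2_coord y).2.1) z t
    have c2 := good_V2.coord 2 0 (√3) (fun y => (V2_coord y).2.2) z t
    apply f3_le_norm
    · have : flow V2 t z 0 = z 0 + adv z t * 1 := by rw [adv]; ring
      rw [this, AddCircle.coe_add]
      rfl
    · have : flow V2 t z 1 = z 1 + adv z t * √2 := by rw [adv]; linarith
      rw [this, AddCircle.coe_add]
      rfl
    · have : flow V2 t z 2 = z 2 + adv z t * √3 := by rw [adv]; linarith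
      rw [this, AddCircle.coe_add]
      rfl
  have hanti : Antitone fun t => G (adv z t) - t := by
    apply antitone_of_deriv_nonpos
    · exact fun t => ((hGa t).fun_sub (hasDerivAt_id t)).differentiableAt
    · intro t
      have := ((hGa t).fun_sub (hasDerivAt_id t)).deriv
      simp only [id] at this
      rw [this]
      linarith [hle t]
  have h1 : G (adv z t) ≤ t := by
    have := hanti ht
    simp only [adv_zero, sub_zero, G, intervalIntegral.integral_same] at this
    simp only [G]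
    linarith
  by_cases hS2 : S ≤ adv z t
  · have h2 := h (adv z t) hS2 x
    have h3 : 1 / δ * adv z t ≤ t := h2.trans h1
    rw [one_div_mul_eq_div, div_le_iff₀ hδ] at h3
    linarith
  · have : 0 ≤ δ * t := mul_nonneg hδ.le ht
    linarith [not_le.1 hS2]

end Pool.Agent.MP_1a349f_an
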