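import Mathlib
import Pool.Agent.MP_1a349f_an.Sublinear

set_option autoImplicit false

/-!
# Zero entropy of the slow flow outside the disc
-/

namespace Pool.Agent.MP_1a349f_an

open Set Filter Topology Real MeasureTheory Dynamics
open scoped ENNReal NNReal

theorem uF_tr (k : Fin 5 → ℤ) (z : Fin 5 → ℝ) : uF (tr k z) = uF z := by
  simp only [uF, tr]
  rw [add_sub_right_comm, rd_add_int, rd_add_int]

theorem uF_lift_cov (z : Fin 5 → ℝ) : uF (lift (cov z)) = uF z := by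
  obtain ⟨k, hk⟩ := cov_eq_cov_iff.1 (cov_lift (cov z)).symm
  rw [hk, uF_tr]

/-- Zero entropy from a subexponential growth estimate. -/
theorem entropy_zero_of_growth {V : (Fin 5 → ℝ) → (Fin 5 → ℝ)} (hV : Good V)
    (F : Set (Torus 5)) (hF : MapsTo (tflow V 1) F F)
    (h : ∀ δ > (0 : ℝ), ∃ C > (0 : ℝ), ∃ ρ > (0 : ℝ), ∀ x ∈ F, ∀ y ∈ F, dist x y ≤ ρ →
      ∀ n : ℕ, dist (tflow V n x) (tflow V n y) ≤ C * exp (δ * n) * dist x y) :
    coverEntropy (tflow V 1) F ≤ 0 := by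
  apply coverEntropy_le_zero _ _ hF
  intro ε hε δ hδ
  obtain ⟨C, hC, ρ, hρ, hg⟩ := h δ hδ
  refine ⟨min ρ (ε / (2 * C)), lt_min hρ (by positivity), fun n x hx y hy hxy j hj => ?_⟩
  have hd1 : dist x y ≤ ρ := by
    refine hxy.trans ?_
    have h1 : exp (-(δ * n)) ≤ 1 := exp_le_one_iff.2 (by
      have : (0 : ℝ) ≤ n := Nat.cast_nonneg n
      nlinarith)
    have h2 : min ρ (ε / (2 * C)) ≤ ρ := min_le_left _ _
    have h3 : 0 < min ρ (ε / (2 * C)) := lt_min hρ (by positivity)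
    nlinarith [exp_pos (-(δ * n))]
  have hd2 : dist x y ≤ ε / (2 * C) * exp (-(δ * n)) :=
    hxy.trans (mul_le_mul_of_nonneg_right (min_le_right _ _) (exp_pos _).le)
  rw [hV.tflow_iterate, hV.tflow_iterate]
  have h1 := hg x hx y hy hd1 j
  have h2 : exp (δ * j) ≤ exp (δ * n) := by
    apply exp_le_exp.2
    have : (j : ℝ) ≤ n := by exact_mod_cast hj.le
    nlinarith
  calc dist (tflow V j x) (tflow V j y) ≤ C * exp (δ * j) * dist x y := h1
    _ ≤ C * exp (δ * n) * (ε / (2 * C) * exp (-(δ * n))) := by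
        apply mul_le_mul (mul_le_mul_of_nonneg_left h2 hC.le) hd2 dist_nonneg
        positivity
    _ = ε / 2 * (exp (δ * n) * exp (-(δ * n))) := by field_simp
    _ = ε / 2 := by rw [← exp_add, add_neg_cancel, exp_zero, mul_one]
    _ < ε := by linarith

/-! ### Lipschitz estimate for the slow field -/

/-- The square root of the speed. -/
noncomputable def sq (z : Fin 5 → ℝ) : ℝ := √(fB z)

theorem sq_nonneg' (z : Fin 5 → ℝ) : 0 ≤ sq z := sqrt_nonneg _

theorem sq_sq (z : Fin 5 → ℝ) : sq z ^ 2 = fB z := Real.sq_sqrt (fB_nonneg z)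

theorem sq_le_one (z : Fin 5 → ℝ) : sq z ≤ 1 := by
  rw [sq, Real.sqrt_le_left zero_le_one]
  linarith [fB_le z]

theorem abs_sin_le_sq (z : Fin 5 → ℝ) (i : Fin 5) (hi : i = 0 ∨ i = 1 ∨ i = 2) :
    |sin (π * z i)| ≤ 4 * sq z := by
  apply abs_le_of_sq_le_sq _ (by have := sq_nonneg' z; linarith)
  rw [mul_pow, sq_sq, fB]
  have h0 := sq_nonneg (sin (π * z 0))
  have h1 := sq_nonneg (sin (π * z 1))
  have h2 := sq_nonneg (sin (π * z 2))
  rcases hi with rfl | rfl | rfl <;> linarith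

theorem abs_sin_sub_le (a b : ℝ) : |sin a - sin b| ≤ |a - b| := by
  have h := Convex.norm_image_sub_le_of_norm_hasDerivWithin_le
    (f := sin) (f' := cos) (C := 1) (s := univ) (x := b) (y := a)
    (fun r _ => (hasDerivAt_sin r).hasDerivWithinAt)
    (fun r _ => by rw [Real.norm_eq_abs]; exact abs_cos_le_one r) convex_univ trivial trivial
  simpa [Real.norm_eq_abs] using h

theorem fB_sub_le (z z' : Fin 5 → ℝ) :
    |fB z' - fB z| ≤ 4 * (sq z + sq z') * ‖z' - z‖ := by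
  have key : ∀ i : Fin 5, (i = 0 ∨ i = 1 ∨ i = 2) →
      |sin (π * z' i) ^ 2 - sin (π * z i) ^ 2| ≤ 16 * (sq z + sq z') * ‖z' - z‖ := by
    intro i hi
    have h1 : |z' i - z i| ≤ ‖z' - z‖ := norm_le_pi_norm (z' - z) i
    have h2 : |sin (π * z' i) - sin (π * z i)| ≤ 4 * ‖z' - z‖ := by
      refine (abs_sin_sub_le _ _).trans ?_
      rw [← mul_sub, abs_mul, abs_of_pos pi_pos]
      exact mul_le_mul pi_le_four h1 (abs_nonneg _) (by norm_num)
    have h3 := abs_sin_le_sq z i hi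
    have h4 := abs_sin_le_sq z' i hi
    have h5 : sin (π * z' i) ^ 2 - sin (π * z i) ^ 2 =
        (sin (π * z' i) - sin (π * z i)) * (sin (π * z' i) + sin (π * z i)) := by ring
    rw [h5, abs_mul]
    calc |sin (π * z' i) - sin (π * z i)| * |sin (π * z' i) + sin (π * z i)|
        ≤ (4 * ‖z' - z‖) * (4 * sq z + 4 * sq z') := by
          apply mul_le_mul h2 _ (abs_nonneg _) (by positivity)
          refine (abs_add_le _ _).trans ?_
          linarith
      _ = 16 * (sq z + sq z') * ‖z' - z‖ := by ring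
  have k0 := key 0 (Or.inl rfl)
  have k1 := key 1 (Or.inr (Or.inl rfl))
  have k2 := key 2 (Or.inr (Or.inr rfl))
  rw [fB, fB]
  rw [abs_le] at *
  constructor <;> linarith [k0.1, k0.2, k1.1, k1.2, k2.1, k2.2]

theorem fB_sq_sub_le (z z' : Fin 5 → ℝ) :
    |fB z' ^ 2 - fB z ^ 2| ≤ 8 * (sq z ^ 3 + sq z' ^ 3) * ‖z' - z‖ := by
  have h1 : fB z' ^ 2 - fB z ^ 2 = (fB z' - fB z) * (fB z + fB z') := by ring
  rw [h1, abs_mul, abs_of_nonneg (add_nonneg (fB_nonneg z) (fB_nonneg z'))]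
  have ha := sq_nonneg' z
  have hb := sq_nonneg' z'
  calc |fB z' - fB z| * (fB z + fB z')
      ≤ (4 * (sq z + sq z') * ‖z' - z‖) * (fB z + fB z') :=
        mul_le_mul_of_nonneg_right (fB_sub_le z z') (add_nonneg (fB_nonneg z) (fB_nonneg z'))
    _ = 4 * ((sq z + sq z') * (sq z ^ 2 + sq z' ^ 2)) * ‖z' - z‖ := by
        rw [sq_sq, sq_sq]; ring
    _ ≤ 4 * (2 * (sq z ^ 3 + sq z' ^ 3)) * ‖z' - z‖ := by
        apply mul_le_mul_of_nonneg_right _ (norm_nonneg _)
        nlinarith [mul_nonneg (add_nonneg ha hb) (sq_nonneg (sq z - sq z'))]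
    _ = 8 * (sq z ^ 3 + sq z' ^ 3) * ‖z' - z‖ := by ring

theorem V2_lipschitz : ∃ K > (0 : ℝ), ∀ z z' : Fin 5 → ℝ,
    ‖V2 z' - V2 z‖ ≤ K * (sq z ^ 3 + sq z' ^ 3) * ‖z' - z‖ := by
  obtain ⟨L, hL⟩ := good_V0.exists_lipschitz
  obtain ⟨C, hC⟩ := good_V0.exists_bound
  refine ⟨8 * C + L + 1, by positivity, fun z z' => ?_⟩
  have h1 : V2 z' - V2 z = (fB z' ^ 2 - fB z ^ 2) • V0 z' + fB z ^ 2 • (V0 z' - V0 z) := by
    rw [V2, V2, sub_smul, smul_sub]; abel
  have ha := sq_nonneg' z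
  have hb := sq_nonneg' z'
  have h2 : ‖(fB z' ^ 2 - fB z ^ 2) • V0 z'‖ ≤ 8 * (sq z ^ 3 + sq z' ^ 3) * ‖z' - z‖ * C := by
    rw [norm_smul, Real.norm_eq_abs]
    exact mul_le_mul (fB_sq_sub_le z z') (hC z') (norm_nonneg _) (by positivity)
  have h3 : ‖fB z ^ 2 • (V0 z' - V0 z)‖ ≤ sq z ^ 3 * (L * ‖z' - z‖) := by
    rw [norm_smul, Real.norm_eq_abs, abs_of_nonneg (by positivity)]
    have h4 : fB z ^ 2 ≤ sq z ^ 3 := by
      rw [← sq_sq]
      have : (sq z ^ 2) ^ 2 = sq z ^ 3 * sq z := by ring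
      rw [this]
      have h5 := sq_le_one z
      have h6 : 0 ≤ sq z ^ 3 := by positivity
      nlinarith
    have h5 : ‖V0 z' - V0 z‖ ≤ L * ‖z' - z‖ := by
      have := hL.dist_le_mul z' z
      rwa [dist_eq_norm, dist_eq_norm] at this
    exact mul_le_mul h4 h5 (norm_nonneg _) (by positivity)
  rw [h1]
  refine (norm_add_le _ _).trans ?_
  have h6 : 0 ≤ sq z ^ 3 := by positivity
  have h7 : 0 ≤ sq z' ^ 3 := by positivity
  have h8 : 0 ≤ ‖z' - z‖ := norm_nonneg _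
  have h9 : (0 : ℝ) ≤ L := L.2
  have h10 : 0 ≤ sq z' ^ 3 * (L * ‖z' - z‖) := by positivity
  have h11 : 0 ≤ (sq z ^ 3 + sq z' ^ 3) * ‖z' - z‖ := by positivity
  nlinarith

theorem cube_le {a l : ℝ} (ha : 0 ≤ a) (hl : 0 < l) : a ^ 3 ≤ l ^ 3 + l⁻¹ * a ^ 4 := by
  by_cases h : a ≤ l
  · have h1 : a ^ 3 ≤ l ^ 3 := pow_le_pow_left₀ ha h 3
    have h2 : 0 ≤ l⁻¹ * a ^ 4 := by positivity
    linarith
  · have h1 : a ^ 3 ≤ l⁻¹ * a ^ 4 := by
      rw [inv_mul_eq_div, le_div_iff₀ hl]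
      have : l ≤ a := (not_le.1 h).le
      have h3 : 0 ≤ a ^ 3 := by positivity
      nlinarith
    have h2 : 0 ≤ l ^ 3 := by positivity
    linarith

/-- Subexponential separation for the slow flow without cut-off. -/
theorem V2_growth {δ : ℝ} (hδ : 0 < δ) : ∃ C > (0 : ℝ), ∀ z z' : Fin 5 → ℝ, ∀ t ≥ (0 : ℝ),
    ‖flow V2 t z' - flow V2 t z‖ ≤ C * exp (δ * t) * ‖z' - z‖ := by
  obtain ⟨K, hK, hlip⟩ := V2_lipschitz
  set l : ℝ := min 1 (δ / (20 * K)) with hl
  have hl0 : 0 < l := lt_min one_pos (by positivity)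
  have hl1 : l ≤ 1 := min_le_left _ _
  have hl2 : l ≤ δ / (20 * K) := min_le_right _ _
  have hl3 : l ^ 3 ≤ δ / (20 * K) := by
    refine le_trans ?_ hl2
    have : l ^ 3 = l * (l * l) := by ring
    rw [this]
    have : l * l ≤ 1 := mul_le_one₀ hl1 hl0.le hl1
    nlinarith
  obtain ⟨C₁, hC₁, hadv⟩ := adv_sublinear (δ := l * (δ / (20 * K))) (by positivity)
  set B : ℝ := 5 * exp (20 * K * l⁻¹ * C₁) with hB
  have hB1 : 1 ≤ B := by
    have : 1 ≤ exp (20 * K * l⁻¹ * C₁) := one_le_exp (by positivity)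
    rw [hB]; linarith
  refine ⟨B, by linarith, fun z z' t ht => ?_⟩
  let A : ℝ → ℝ := fun t => K * (2 * l ^ 3 * t + l⁻¹ * (adv z t + adv z' t))
  have hA : ∀ t, HasDerivAt A (K * (2 * l ^ 3 +
      l⁻¹ * (fB (flow V2 t z) ^ 2 + fB (flow V2 t z') ^ 2))) t := by
    intro t
    have h1 : HasDerivAt (fun t : ℝ => 2 * l ^ 3 * t) (2 * l ^ 3) t := by
      simpa using (hasDerivAt_id t).const_mul (2 * l ^ 3)
    have h2 := ((hasDerivAt_adv z t).fun_add (hasDerivAt_adv z' t)).const_mul l⁻¹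
    exact (h1.fun_add h2).const_mul K
  have hg := growth (fun t => flow V2 t z) (fun t => flow V2 t z') (fun t => V2 (flow V2 t z))
    (fun t => V2 (flow V2 t z')) (good_V2.hasDerivAt_flow z) (good_V2.hasDerivAt_flow z') A _ hA
    (fun t _ => by
      refine (hlip _ _).trans ?_
      apply mul_le_mul_of_nonneg_right _ (norm_nonneg _)
      apply mul_le_mul_of_nonneg_left _ hK.le
      have c1 := cube_le (sq_nonneg' (flow V2 t z)) hl0
      have c2 := cube_le (sq_nonneg' (flow V2 t z')) hl0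
      have e1 : sq (flow V2 t z) ^ 4 = fB (flow V2 t z) ^ 2 := by rw [← sq_sq]; ring
      have e2 : sq (flow V2 t z') ^ 4 = fB (flow V2 t z') ^ 2 := by rw [← sq_sq]; ring
      rw [e1] at c1
      rw [e2] at c2
      linarith) t ht
  simp only [good_V2.flow_zero] at hg
  have hAt : 2 * ((5 : ℕ) : ℝ) * (A t - A 0) ≤ 2 * (δ * t) + 20 * K * l⁻¹ * C₁ := by
    have h1 := hadv z t ht
    have h2 := hadv z' t ht
    have h3 : A 0 = 0 := by simp only [A, adv_zero]; ring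
    rw [h3, sub_zero]
    have h4 : A t ≤ K * (2 * (δ / (20 * K)) * t + l⁻¹ * (2 * (l * (δ / (20 * K)) * t + C₁))) := by
      apply mul_le_mul_of_nonneg_left _ hK.le
      have h5 : 2 * l ^ 3 * t ≤ 2 * (δ / (20 * K)) * t := by
        apply mul_le_mul_of_nonneg_right _ ht
        linarith
      have h6 : l⁻¹ * (adv z t + adv z' t) ≤ l⁻¹ * (2 * (l * (δ / (20 * K)) * t + C₁)) := by
        apply mul_le_mul_of_nonneg_left _ (inv_pos.2 hl0).le
        linarith
      linarith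
    have h5 : K * (2 * (δ / (20 * K)) * t + l⁻¹ * (2 * (l * (δ / (20 * K)) * t + C₁))) =
        δ / 5 * t + 2 * K * l⁻¹ * C₁ := by
      field_simp
      ring
    rw [h5] at h4
    push_cast
    linarith
  have h1 : ‖flow V2 t z' - flow V2 t z‖ ^ 2 ≤ (B * exp (δ * t) * ‖z' - z‖) ^ 2 := by
    refine hg.trans ?_
    have h2 : exp (2 * ((5 : ℕ) : ℝ) * (A t - A 0)) ≤
        exp (20 * K * l⁻¹ * C₁) * exp (δ * t) ^ 2 := by
      rw [← exp_nat_mul, ← exp_add]
      apply exp_le_exp.2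
      push_cast
      push_cast at hAt
      linarith
    calc ((5 : ℕ) : ℝ) * exp (2 * ((5 : ℕ) : ℝ) * (A t - A 0)) * ‖z' - z‖ ^ 2
        ≤ ((5 : ℕ) : ℝ) * (exp (20 * K * l⁻¹ * C₁) * exp (δ * t) ^ 2) * ‖z' - z‖ ^ 2 := by
          gcongr
      _ = B * (exp (δ * t) * ‖z' - z‖) ^ 2 := by rw [hB]; push_cast; ring
      _ ≤ B ^ 2 * (exp (δ * t) * ‖z' - z‖) ^ 2 := by
          apply mul_le_mul_of_nonneg_right _ (sq_nonneg _)
          nlinarith
      _ = (B * exp (δ * t) * ‖z' - z‖) ^ 2 := by ring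
  exact abs_le_of_sq_le_sq' h1 (by positivity) |>.2

/-! ### The region outside the disc -/

/-- The complement of the open disc region in the torus. -/
def outT : Set (Torus 5) := {m | 1 / 25 ≤ uF (lift m)}

theorem cov_mem_outT (z : Fin 5 → ℝ) : cov z ∈ outT ↔ 1 / 25 ≤ uF z := by
  change 1 / 25 ≤ uF (lift (cov z)) ↔ _
  rw [uF_lift_cov]

theorem outT_mapsTo (t : ℝ) : MapsTo (tflow X2 t) outT outT := by
  intro m hm
  rw [← cov_lift m] at hm ⊢
  rw [good_X2.tflow_cov, cov_mem_outT]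
  rw [cov_mem_outT] at hm
  have h1 : lift m ∉ discRegion := not_lt.2 hm
  exact not_lt.1 (X2_notMem_disc h1 t)

theorem entropy_out : coverEntropy (tflow X2 1) outT ≤ 0 := by
  apply entropy_zero_of_growth good_X2 _ (outT_mapsTo 1)
  intro δ hδ
  obtain ⟨C, hC, hg⟩ := V2_growth hδ
  obtain ⟨L, hL⟩ := per_aB.exists_lipschitz (contDiff_aB.of_le (by exact_mod_cast le_top))
  obtain ⟨CV, hCV⟩ := good_V2.exists_bound
  refine ⟨C + CV * L / δ, by positivity, 1, one_pos, fun x hx y hy _ n => ?_⟩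
  obtain ⟨k, hk⟩ := exists_lift_near (lift x) (lift y)
  rw [cov_lift, cov_lift] at hk
  set z := lift x with hz
  set z' := tr k (lift y) with hz'
  have hxz : x = cov z := (cov_lift x).symm
  have hyz : y = cov z' := by rw [hz', cov_tr, cov_lift]
  have hx' : 1 / 25 ≤ uF z := by rw [hxz] at hx; exact (cov_mem_outT z).1 hx
  have hy' : 1 / 25 ≤ uF z' := by rw [hyz] at hy; exact (cov_mem_outT z').1 hy
  have hn : (0 : ℝ) ≤ n := Nat.cast_nonneg n
  have e1 : tflow X2 n x = cov (flow V2 (aB z * n) z) := by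
    rw [hxz, good_X2.tflow_cov, flow_X2_outside hx']
  have e2 : tflow X2 n y = cov (flow V2 (aB z' * n) z') := by
    rw [hyz, good_X2.tflow_cov, flow_X2_outside hy']
  rw [e1, e2]
  refine (dist_cov_le _ _).trans ?_
  have h1 : ‖flow V2 (aB z * n) z - flow V2 (aB z * n) z'‖ ≤ C * exp (δ * n) * dist x y := by
    rw [norm_sub_rev]
    refine (hg z z' (aB z * n) (mul_nonneg (aB_nonneg z) hn)).trans ?_
    have h2 : exp (δ * (aB z * n)) ≤ exp (δ * n) := by
      apply exp_le_exp.2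
      apply mul_le_mul_of_nonneg_left _ hδ.le
      have := aB_le_one z
      nlinarith
    apply mul_le_mul (mul_le_mul_of_nonneg_left h2 hC.le) hk (norm_nonneg _) (by positivity)
  have h2 : ‖flow V2 (aB z * n) z' - flow V2 (aB z' * n) z'‖ ≤
      CV * L / δ * exp (δ * n) * dist x y := by
    refine (good_V2.dist_flow_le hCV _ _ z').trans ?_
    rw [← sub_mul, abs_mul, abs_of_nonneg hn]
    have h3 : |aB z - aB z'| ≤ L * dist x y := by
      have h4 := hL.dist_le_mul z z'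
      rw [Real.dist_eq] at h4
      have h5 : dist z z' ≤ dist x y := by
        rw [dist_comm, dist_eq_norm]
        exact hk
      exact h4.trans (mul_le_mul_of_nonneg_left h5 L.2)
    have h4 : (n : ℝ) ≤ exp (δ * n) / δ := by
      rw [le_div_iff₀ hδ]
      have := add_one_le_exp (δ * n)
      linarith
    calc (CV : ℝ) * (|aB z - aB z'| * n) ≤ CV * ((L * dist x y) * (exp (δ * n) / δ)) := by
          apply mul_le_mul_of_nonneg_left _ CV.2
          exact mul_le_mul h3 h4 hn (by positivity)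
      _ = CV * L / δ * exp (δ * n) * dist x y := by ring
  have h3 : flow V2 (aB z * n) z - flow V2 (aB z' * n) z' =
      (flow V2 (aB z * n) z - flow V2 (aB z * n) z') +
      (flow V2 (aB z * n) z' - flow V2 (aB z' * n) z') := by abel
  rw [h3]
  refine (norm_add_le _ _).trans ?_
  calc _ ≤ C * exp (δ * n) * dist x y + CV * L / δ * exp (δ * n) * dist x y := add_le_add h1 h2
    _ = (C + CV * L / δ) * exp (δ * n) * dist x y := by ring

end Pool.Agent.MP_1a349f_an
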