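import Mathlib
import Pool.Agent.MP_1a349f_an.Averaging

set_option autoImplicit false

/-!
# The horseshoe and the positive entropy of the first flow
-/

namespace Pool.Agent.MP_1a349f_an

open Set Filter Topology Real MeasureTheory
open scoped ENNReal

/-! ### Explicit solutions of the model system -/

/-- The three smooth steps. -/
noncomputable def Th (c s : ℝ) : ℝ := Real.smoothTransition (5 * (s - 1 / 2 - c))

theorem hasDerivAt_Th (c s : ℝ) : HasDerivAt (Th c) (rho c (s - 1 / 2)) s := by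
  have h1 : HasDerivAt (fun s : ℝ => 5 * (s - 1 / 2 - c)) 5 s := by
    have := (((hasDerivAt_id s).sub_const (1 / 2 : ℝ)).sub_const c).const_mul (5 : ℝ)
    simpa using this
  have h2 := (hasDerivAt_smoothTransition (5 * (s - 1 / 2 - c))).comp s h1
  rw [rho, mul_comm]
  exact h2

theorem Th_zero {c s : ℝ} (h : s - 1 / 2 ≤ c) : Th c s = 0 :=
  Real.smoothTransition.zero_of_nonpos (by linarith)

theorem Th_one {c s : ℝ} (h : c + 1 / 5 ≤ s - 1 / 2) : Th c s = 1 :=
  Real.smoothTransition.one_of_one_le (by linarith)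

theorem Th_nonneg (c s : ℝ) : 0 ≤ Th c s := Real.smoothTransition.nonneg _
theorem Th_le_one (c s : ℝ) : Th c s ≤ 1 := Real.smoothTransition.le_one _

/-- Rescaled horizontal coordinate of the explicit solution. -/
noncomputable def XX (w X0 s : ℝ) : ℝ :=
  X0 * exp (Real.log 3 * Th (-(1 / 4)) s) - 2 * w * Th (3 / 20) s

/-- Rescaled vertical coordinate of the explicit solution. -/
noncomputable def YY (w Y0 s : ℝ) : ℝ :=
  Y0 * exp (-(Real.log 3 * Th (-(1 / 4)) s)) + 2 / 3 * w * Th (-(1 / 20)) s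

theorem hasDerivAt_XX (w X0 s : ℝ) : HasDerivAt (XX w X0)
    (X0 * (exp (Real.log 3 * Th (-(1 / 4)) s) * (Real.log 3 * rho (-(1 / 4)) (s - 1 / 2))) -
      2 * w * rho (3 / 20) (s - 1 / 2)) s :=
  ((((hasDerivAt_Th _ s).const_mul (Real.log 3)).exp).const_mul X0).fun_sub
    ((hasDerivAt_Th _ s).const_mul (2 * w))

theorem hasDerivAt_YY (w Y0 s : ℝ) : HasDerivAt (YY w Y0)
    (Y0 * (exp (-(Real.log 3 * Th (-(1 / 4)) s)) * -(Real.log 3 * rho (-(1 / 4)) (s - 1 / 2))) +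
      2 / 3 * w * rho (-(1 / 20)) (s - 1 / 2)) s :=
  ((((hasDerivAt_Th _ s).const_mul (Real.log 3)).fun_neg.exp).const_mul Y0).fun_add
    ((hasDerivAt_Th _ s).const_mul (2 / 3 * w))

theorem log3_pos : 0 < Real.log 3 := Real.log_pos (by norm_num)

theorem exp_log3_one : exp (Real.log 3 * 1) = 3 := by
  rw [mul_one, exp_log (by norm_num)]

theorem XX_zero (w X0 : ℝ) {s : ℝ} (h : s ≤ 1 / 4) : XX w X0 s = X0 := by
  rw [XX, Th_zero (by linarith), Th_zero (by linarith)]; simp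

theorem YY_zero (w Y0 : ℝ) {s : ℝ} (h : s ≤ 1 / 4) : YY w Y0 s = Y0 := by
  rw [YY, Th_zero (by linarith), Th_zero (by linarith)]; simp

theorem XX_one (w X0 : ℝ) : XX w X0 1 = 3 * X0 - 2 * w := by
  rw [XX, Th_one (by norm_num), Th_one (by norm_num), exp_log3_one]; ring

theorem YY_one (w Y0 : ℝ) : YY w Y0 1 = Y0 / 3 + 2 / 3 * w := by
  rw [YY, Th_one (by norm_num), Th_one (by norm_num), exp_neg, exp_log3_one]; ring

theorem exp_bounds (s : ℝ) : 1 ≤ exp (Real.log 3 * Th (-(1 / 4)) s) ∧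
    exp (Real.log 3 * Th (-(1 / 4)) s) ≤ 3 := by
  have h1 := Th_nonneg (-(1 / 4)) s
  have h2 := Th_le_one (-(1 / 4)) s
  constructor
  · exact one_le_exp (mul_nonneg log3_pos.le h1)
  · calc exp (Real.log 3 * Th (-(1 / 4)) s) ≤ exp (Real.log 3 * 1) :=
        exp_le_exp.2 (mul_le_mul_of_nonneg_left h2 log3_pos.le)
      _ = 3 := exp_log3_one

theorem YY_mem (w Y0 : ℝ) (hw : w = 0 ∨ w = 1) (hY : Y0 ∈ Icc (0 : ℝ) 1) (s : ℝ) :
    YY w Y0 s ∈ Icc (0 : ℝ) 1 := by
  obtain ⟨e1, e2⟩ := exp_bounds s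
  have h2 := Th_nonneg (-(1 / 20)) s
  have h3 := Th_le_one (-(1 / 20)) s
  have e3 : 0 < exp (-(Real.log 3 * Th (-(1 / 4)) s)) := exp_pos _
  have e4 : exp (-(Real.log 3 * Th (-(1 / 4)) s)) ≤ 1 := by
    rw [exp_neg]; exact inv_le_one_of_one_le₀ e1
  rw [YY]
  have hw0 : 0 ≤ w := by rcases hw with h | h <;> rw [h] <;> norm_num
  refine ⟨by have := hY.1; positivity, ?_⟩
  by_cases hs : s - 1 / 2 ≤ -(1 / 20)
  · rw [Th_zero hs, mul_zero, add_zero]
    have := hY.2
    have := hY.1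
    nlinarith
  · have h5 : Th (-(1 / 4)) s = 1 := Th_one (by linarith)
    rw [h5, exp_neg, exp_log3_one]
    rcases hw with h | h <;> rw [h] <;> nlinarith [hY.1, hY.2]

theorem XX_mem (w X0 : ℝ) (hw : w = 0 ∨ w = 1) (hX : X0 ∈ Icc (2 * w / 3) ((2 * w + 1) / 3))
    (s : ℝ) : XX w X0 s ∈ Icc (0 : ℝ) 3 := by
  obtain ⟨e1, e2⟩ := exp_bounds s
  have h2 := Th_nonneg (3 / 20) s
  have h3 := Th_le_one (3 / 20) s
  rw [XX]
  by_cases hs : s - 1 / 2 ≤ 3 / 20
  · rw [Th_zero hs, mul_zero, sub_zero]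
    rcases hw with h | h <;> (rw [h] at hX; constructor <;> nlinarith [hX.1, hX.2])
  · have h5 : Th (-(1 / 4)) s = 1 := Th_one (by linarith)
    rw [h5, exp_log3_one]
    rcases hw with h | h <;> rw [h] at hX ⊢ <;> constructor <;> nlinarith [hX.1, hX.2]

theorem cutX_one {x : ℝ} (h1 : -(3 / 20) ≤ x) (h2 : x ≤ 3 / 20) : cutX x = 1 :=
  bump_eq_one (by norm_num) (by norm_num) h1 h2

theorem cutY_one {y : ℝ} (h1 : 0 ≤ y) (h2 : y ≤ 1 / 10) : cutY y = 1 :=
  bump_eq_one (by norm_num) (by norm_num) h1 h2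

/-- The explicit curve solves the equation: horizontal component. -/
theorem hx_explicit (w X0 Y0 : ℝ) (hw : w = 0 ∨ w = 1)
    (hX : X0 ∈ Icc (2 * w / 3) ((2 * w + 1) / 3)) (hY : Y0 ∈ Icc (0 : ℝ) 1) (s : ℝ) :
    10 * hx (s - 1 / 2) (XX w X0 s / 10 - 3 / 20) (YY w Y0 s / 10) =
      X0 * (exp (Real.log 3 * Th (-(1 / 4)) s) * (Real.log 3 * rho (-(1 / 4)) (s - 1 / 2))) -
      2 * w * rho (3 / 20) (s - 1 / 2) := by
  have hXm := XX_mem w X0 hw hX s
  have hYm := YY_mem w Y0 hw hY s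
  rw [hx, cutX_one (by linarith [hXm.1]) (by linarith [hXm.2]),
    cutY_one (by linarith [hYm.1]) (by linarith [hYm.2])]
  have h1 : rho (-(1 / 4)) (s - 1 / 2) * XX w X0 s =
      rho (-(1 / 4)) (s - 1 / 2) * (X0 * exp (Real.log 3 * Th (-(1 / 4)) s)) := by
    by_cases hs : s - 1 / 2 ≤ 3 / 20
    · rw [XX, Th_zero hs, mul_zero, sub_zero]
    · rw [rho_of_ge (by linarith), zero_mul, zero_mul]
  have h2 : rho (3 / 20) (s - 1 / 2) * Real.smoothTransition (30 * (YY w Y0 s / 10) - 1) =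
      rho (3 / 20) (s - 1 / 2) * w := by
    by_cases hs : s - 1 / 2 ≤ 3 / 20
    · rw [rho_of_le hs, zero_mul, zero_mul]
    · have e1 : YY w Y0 s = Y0 / 3 + 2 / 3 * w := by
        rw [YY, Th_one (by linarith), Th_one (by linarith), exp_neg, exp_log3_one]; ring
      rw [e1]
      rcases hw with h | h
      · rw [h, Real.smoothTransition.zero_of_nonpos (by linarith [hY.2])]
      · rw [h, Real.smoothTransition.one_of_one_le (by linarith [hY.1])]
  have h3 : XX w X0 s / 10 - 3 / 20 + 3 / 20 = XX w X0 s / 10 := by ring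
  rw [h3]
  linear_combination (Real.log 3) * h1 - 2 * h2

/-- The explicit curve solves the equation: vertical component. -/
theorem hy_explicit (w X0 Y0 : ℝ) (hw : w = 0 ∨ w = 1)
    (hX : X0 ∈ Icc (2 * w / 3) ((2 * w + 1) / 3)) (hY : Y0 ∈ Icc (0 : ℝ) 1) (s : ℝ) :
    10 * hy (s - 1 / 2) (XX w X0 s / 10 - 3 / 20) (YY w Y0 s / 10) =
      Y0 * (exp (-(Real.log 3 * Th (-(1 / 4)) s)) * -(Real.log 3 * rho (-(1 / 4)) (s - 1 / 2))) +
      2 / 3 * w * rho (-(1 / 20)) (s - 1 / 2) := by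
  have hXm := XX_mem w X0 hw hX s
  have hYm := YY_mem w Y0 hw hY s
  rw [hy, cutX_one (by linarith [hXm.1]) (by linarith [hXm.2]),
    cutY_one (by linarith [hYm.1]) (by linarith [hYm.2])]
  have h1 : rho (-(1 / 4)) (s - 1 / 2) * YY w Y0 s =
      rho (-(1 / 4)) (s - 1 / 2) * (Y0 * exp (-(Real.log 3 * Th (-(1 / 4)) s))) := by
    by_cases hs : s - 1 / 2 ≤ -(1 / 20)
    · rw [YY, Th_zero hs, mul_zero, add_zero]
    · rw [rho_of_ge (by linarith), zero_mul, zero_mul]
  have h2 : rho (-(1 / 20)) (s - 1 / 2) *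
      Real.smoothTransition (10 * (XX w X0 s / 10 - 3 / 20 + 3 / 20) - 1) =
      rho (-(1 / 20)) (s - 1 / 2) * w := by
    by_cases hs : s - 1 / 2 ≤ -(1 / 20)
    · rw [rho_of_le hs, zero_mul, zero_mul]
    · by_cases hs' : -(1 / 20) + 1 / 5 ≤ s - 1 / 2
      · rw [rho_of_ge hs', zero_mul, zero_mul]
      · have e1 : XX w X0 s = 3 * X0 := by
          rw [XX, Th_one (by linarith), Th_zero (by linarith), exp_log3_one]; ring
        rw [e1]
        rcases hw with h | h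
        · rw [h] at hX ⊢
          rw [Real.smoothTransition.zero_of_nonpos (by linarith [hX.2])]
        · rw [h] at hX ⊢
          rw [Real.smoothTransition.one_of_one_le (by linarith [hX.1])]
  linear_combination -(Real.log 3) * h1 + 2 / 3 * h2

/-- The explicit solution curve. -/
noncomputable def exCurve (z : Fin 5 → ℝ) (w X0 Y0 s : ℝ) : Fin 5 → ℝ :=
  ![z 0 + s, z 1 + √2 * s, z 2 + √3 * s, XX w X0 s / 10 - 3 / 20, YY w Y0 s / 10]

theorem flow_V0_explicit (z : Fin 5 → ℝ) (w X0 Y0 : ℝ) (hw : w = 0 ∨ w = 1)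
    (hX : X0 ∈ Icc (2 * w / 3) ((2 * w + 1) / 3)) (hY : Y0 ∈ Icc (0 : ℝ) 1) (n : ℤ)
    (h0 : z 0 = n - 1 / 2) (h3 : z 3 = X0 / 10 - 3 / 20) (h4 : z 4 = Y0 / 10) :
    ∀ s ∈ Icc (0 : ℝ) 1, flow V0 s z = exCurve z w X0 Y0 s := by
  have hd : ∀ s, HasDerivAt (exCurve z w X0 Y0) (![1, √2, √3,
      hx (s - 1 / 2) (XX w X0 s / 10 - 3 / 20) (YY w Y0 s / 10),
      hy (s - 1 / 2) (XX w X0 s / 10 - 3 / 20) (YY w Y0 s / 10)] : Fin 5 → ℝ) s := by
    intro s
    rw [hasDerivAt_pi]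
    intro i
    fin_cases i
    · have : HasDerivAt (fun s : ℝ => z 0 + s) 1 s := by
        simpa using (hasDerivAt_id s).const_add (z 0)
      exact this
    · have : HasDerivAt (fun s : ℝ => z 1 + √2 * s) (√2) s := by
        simpa using ((hasDerivAt_id s).const_mul (√2)).const_add (z 1)
      exact this
    · have : HasDerivAt (fun s : ℝ => z 2 + √3 * s) (√3) s := by
        simpa using ((hasDerivAt_id s).const_mul (√3)).const_add (z 2)
      exact this
    · have h1 := ((hasDerivAt_XX w X0 s).div_const 10).sub_const (3 / 20)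
      rw [← hx_explicit w X0 Y0 hw hX hY s] at h1
      rw [mul_div_cancel_left₀ _ (by norm_num : (10 : ℝ) ≠ 0)] at h1
      exact h1
    · have h1 := ((hasDerivAt_YY w Y0 s).div_const 10)
      rw [← hy_explicit w X0 Y0 hw hX hY s] at h1
      rw [mul_div_cancel_left₀ _ (by norm_num : (10 : ℝ) ≠ 0)] at h1
      exact h1
  have hrd : ∀ s ∈ Ico (0 : ℝ) 1, rd (z 0 + s) = s - 1 / 2 := by
    intro s hs
    have e1 : z 0 + s = (s - 1 / 2) + n := by rw [h0]; ring
    rw [e1, rd_add_int, rd]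
    have : round (s - 1 / 2) = 0 := by
      rw [round_eq, Int.floor_eq_iff]
      constructor <;> push_cast <;> linarith [hs.1, hs.2]
    rw [this]; simp
  have hV : ∀ s ∈ Ico (0 : ℝ) 1, HasDerivAt (exCurve z w X0 Y0) (V0 (exCurve z w X0 Y0 s)) s := by
    intro s hs
    have hXm := XX_mem w X0 hw hX s
    have hYm := YY_mem w Y0 hw hY s
    have e : V0 (exCurve z w X0 Y0 s) = ![1, √2, √3,
        hx (s - 1 / 2) (XX w X0 s / 10 - 3 / 20) (YY w Y0 s / 10),
        hy (s - 1 / 2) (XX w X0 s / 10 - 3 / 20) (YY w Y0 s / 10)] := by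
      have r0 : rd (exCurve z w X0 Y0 s 0) = s - 1 / 2 := hrd s hs
      have r3 : rd (exCurve z w X0 Y0 s 3) = XX w X0 s / 10 - 3 / 20 := by
        have : exCurve z w X0 Y0 s 3 = XX w X0 s / 10 - 3 / 20 := rfl
        rw [this]
        exact rd_of_abs_lt (by rw [abs_lt]; constructor <;> linarith [hXm.1, hXm.2])
      have r4 : rd (exCurve z w X0 Y0 s 4) = YY w Y0 s / 10 := by
        have : exCurve z w X0 Y0 s 4 = YY w Y0 s / 10 := rfl
        rw [this]
        exact rd_of_abs_lt (by rw [abs_lt]; constructor <;> linarith [hYm.1, hYm.2])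
      rw [V0, r0, r3, r4]
    rw [e]
    exact hd s
  have hstart : exCurve z w X0 Y0 0 = z := by
    funext i
    fin_cases i
    · simp [exCurve]
    · simp [exCurve]
    · simp [exCurve]
    · change XX w X0 0 / 10 - 3 / 20 = z 3
      rw [XX_zero _ _ (by norm_num), h3]
    · change YY w Y0 0 / 10 = z 4
      rw [YY_zero _ _ (by norm_num), h4]
  intro s hs
  have hc : ContinuousOn (exCurve z w X0 Y0) (Icc 0 1) := fun s _ =>
    (hd s).continuousAt.continuousWithinAt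
  have := good_V0.eq_flow_Icc hc hV s hs
  rw [hstart] at this
  exact this.symm

/-! ### The coding -/

/-- The horizontal coordinate with prescribed itinerary. -/
noncomputable def xs : ℕ → (ℕ → Bool) → ℝ
  | 0, _ => 0
  | m + 1, w => (xs m (fun i => w (i + 1)) + 2 * (if w 0 then 1 else 0)) / 3

/-- The numerical value of a symbol. -/
noncomputable def sv (b : Bool) : ℝ := if b then 1 else 0

theorem sv_cases (b : Bool) : sv b = 0 ∨ sv b = 1 := by
  cases b <;> simp [sv]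

theorem xs_mem (m : ℕ) (w : ℕ → Bool) : xs m w ∈ Icc (0 : ℝ) 1 := by
  induction m generalizing w with
  | zero => simp [xs]
  | succ m ih =>
    have h := ih (fun i => w (i + 1))
    rw [xs]
    have h2 := sv_cases (w 0)
    rw [sv] at h2
    rcases h2 with h2 | h2 <;> rw [h2] <;> constructor <;> linarith [h.1, h.2]

theorem xs_succ (m : ℕ) (w : ℕ → Bool) :
    xs (m + 1) w = (xs m (fun i => w (i + 1)) + 2 * sv (w 0)) / 3 := rfl

theorem xs_piece (m : ℕ) (w : ℕ → Bool) :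
    xs (m + 1) w ∈ Icc (2 * sv (w 0) / 3) ((2 * sv (w 0) + 1) / 3) := by
  have h := xs_mem m (fun i => w (i + 1))
  rw [xs_succ]
  constructor <;> linarith [h.1, h.2]

/-- The base orbit. -/
theorem flow_V0_base (z : Fin 5 → ℝ) (s : ℝ) : flow V0 s z 0 = z 0 + s ∧
    flow V0 s z 1 = z 1 + √2 * s ∧ flow V0 s z 2 = z 2 + √3 * s := by
  have key : ∀ (i : Fin 5) (c : ℝ), (∀ y, V0 y i = c) → flow V0 s z i = z i + c * s := by
    intro i c hc
    have h1 : ∀ t, HasDerivAt (fun t => flow V0 t z i - c * t) 0 t := by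
      intro t
      have h2 := (hasDerivAt_pi.1 (good_V0.hasDerivAt_flow z t)) i
      rw [hc] at h2
      have h3 := h2.fun_sub ((hasDerivAt_id t).const_mul c)
      simpa using h3
    have h2 := is_const_of_deriv_eq_zero (fun t => (h1 t).differentiableAt)
      (fun t => (h1 t).deriv) s 0
    simp only [good_V0.flow_zero, mul_zero, sub_zero] at h2
    linarith
  refine ⟨?_, ?_, ?_⟩
  · have := key 0 1 (fun y => rfl)
    rw [this]; ring
  · exact key 1 _ (fun y => rfl)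
  · exact key 2 _ (fun y => rfl)

/-- The flow at integer times follows the itinerary. -/
theorem flow_V0_nat (m : ℕ) : ∀ (j : ℕ), j ≤ m → ∀ (w : ℕ → Bool) (b1 b2 : ℝ),
    ∃ Y ∈ Icc (0 : ℝ) 1, flow V0 (j : ℝ) ![-(1 / 2), b1, b2, xs m w / 10 - 3 / 20, 0] =
      ![-(1 / 2) + (j : ℝ), b1 + √2 * (j : ℝ), b2 + √3 * (j : ℝ),
        xs (m - j) (fun i => w (i + j)) / 10 - 3 / 20, Y / 10] := by
  intro j
  induction j with
  | zero =>
    intro _ w b1 b2
    refine ⟨0, by simp, ?_⟩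
    simp only [Nat.cast_zero, good_V0.flow_zero, mul_zero, add_zero, Nat.sub_zero, zero_div]
  | succ j ih =>
    intro hj w b1 b2
    obtain ⟨Y, hY, h⟩ := ih (Nat.le_of_succ_le hj) w b1 b2
    obtain ⟨l, hl⟩ : ∃ l, m - j = l + 1 := ⟨m - j - 1, by omega⟩
    have hl' : m - (j + 1) = l := by omega
    have h1 : flow V0 ((j + 1 : ℕ) : ℝ) ![-(1 / 2), b1, b2, xs m w / 10 - 3 / 20, 0] =
        flow V0 1 (flow V0 j ![-(1 / 2), b1, b2, xs m w / 10 - 3 / 20, 0]) := by
      rw [← good_V0.flow_add]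
      push_cast
      rw [add_comm]
    rw [h1, h, hl, hl']
    have hp := xs_piece l (fun i => w (i + j))
    rw [zero_add] at hp
    have h2 := flow_V0_explicit ![-(1 / 2) + (j : ℝ), b1 + √2 * j, b2 + √3 * j,
      xs (l + 1) (fun i => w (i + j)) / 10 - 3 / 20, Y / 10] (sv (w j))
      (xs (l + 1) (fun i => w (i + j))) Y (sv_cases _) hp hY j
      (by
        change -(1 / 2) + (j : ℝ) = ((j : ℤ) : ℝ) - 1 / 2
        push_cast; ring) rfl rfl 1 ⟨zero_le_one, le_rfl⟩
    rw [h2]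
    refine ⟨YY (sv (w j)) Y 1, YY_mem _ _ (sv_cases _) hY 1, ?_⟩
    have hx : XX (sv (w j)) (xs (l + 1) fun i => w (i + j)) 1 =
        xs l (fun i => w (i + (j + 1))) := by
      rw [XX_one, xs_succ, zero_add]
      have : (fun i => w (i + 1 + j)) = fun i => w (i + (j + 1)) := by
        funext i; congr 1; ring
      rw [this]
      ring
    simp only [exCurve]
    rw [hx]
    push_cast
    funext i
    fin_cases i
    · change -(1 / 2) + (j : ℝ) + 1 = -(1 / 2) + ((j : ℝ) + 1)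
      ring
    · change b1 + √2 * (j : ℝ) + √2 * 1 = b1 + √2 * ((j : ℝ) + 1)
      ring
    · change b2 + √3 * (j : ℝ) + √3 * 1 = b2 + √3 * ((j : ℝ) + 1)
      ring
    · rfl
    · rfl

/-- During the rest phase the fibre coordinate still shows the symbol. -/
theorem flow_V0_rest (m j : ℕ) (hj : j < m) (w : ℕ → Bool) (b1 b2 s : ℝ)
    (hs : s ∈ Icc (j : ℝ) (j + 1 / 4)) :
    flow V0 s ![-(1 / 2), b1, b2, xs m w / 10 - 3 / 20, 0] 3 =
      xs (m - j) (fun i => w (i + j)) / 10 - 3 / 20 := by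
  obtain ⟨Y, hY, h⟩ := flow_V0_nat m j hj.le w b1 b2
  obtain ⟨l, hl⟩ : ∃ l, m - j = l + 1 := ⟨m - j - 1, by omega⟩
  have h1 : flow V0 s ![-(1 / 2), b1, b2, xs m w / 10 - 3 / 20, 0] =
      flow V0 (s - j) (flow V0 j ![-(1 / 2), b1, b2, xs m w / 10 - 3 / 20, 0]) := by
    rw [← good_V0.flow_add, sub_add_cancel]
  rw [h1, h, hl]
  have hp := xs_piece l (fun i => w (i + j))
  rw [zero_add] at hp
  have h2 := flow_V0_explicit ![-(1 / 2) + (j : ℝ), b1 + √2 * j, b2 + √3 * j,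
    xs (l + 1) (fun i => w (i + j)) / 10 - 3 / 20, Y / 10] (sv (w j))
    (xs (l + 1) (fun i => w (i + j))) Y (sv_cases _) hp hY j
    (by
      change -(1 / 2) + (j : ℝ) = ((j : ℤ) : ℝ) - 1 / 2
      push_cast; ring) rfl rfl (s - j) ⟨by linarith [hs.1], by linarith [hs.2]⟩
  rw [h2]
  change XX _ _ (s - j) / 10 - 3 / 20 = _
  rw [XX_zero _ _ (by linarith [hs.2])]

end Pool.Agent.MP_1a349f_an
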