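import Mathlib
import Pool.Agent.MP_1a349f_an.Horseshoe

set_option autoImplicit false

/-!
# The first flow has positive entropy
-/

namespace Pool.Agent.MP_1a349f_an

open Set Filter Topology Real MeasureTheory Dynamics
open scoped ENNReal

/-- Clamp to `[0, m]`. -/
noncomputable def clamp (m s : ℝ) : ℝ := max 0 (min s m)

theorem continuous_clamp (m : ℝ) : Continuous (clamp m) := by
  unfold clamp
  fun_prop

theorem clamp_mem {m : ℝ} (hm : 0 ≤ m) (s : ℝ) : clamp m s ∈ Icc (0 : ℝ) m := by
  constructor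
  · exact le_max_left _ _
  · exact max_le hm (min_le_right _ _)

theorem clamp_eq {m s : ℝ} (h : s ∈ Icc (0 : ℝ) m) : clamp m s = s := by
  rw [clamp, min_eq_left h.2, max_eq_right h.1]

theorem entropy_X1_pos : 0 < coverEntropy (tflow X1 1) univ := by
  obtain ⟨C, hC, hbase⟩ := exists_good_base
  apply coverEntropy_pos _ (1 / 30) (C + 1) (by norm_num) (by linarith)
  intro m
  obtain ⟨b1, b2, hpos, hint⟩ := hbase m
  let ext : (Fin m → Bool) → (ℕ → Bool) := fun w i => if h : i < m then w ⟨i, h⟩ else false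
  let z : (Fin m → Bool) → Fin 5 → ℝ := fun w => ![-(1 / 2), b1, b2, xs m (ext w) / 10 - 3 / 20, 0]
  refine ⟨fun w => cov (z w), ?_⟩
  intro w w' hne
  obtain ⟨j, hj⟩ : ∃ j : Fin m, w j ≠ w' j := by
    by_contra hc
    push Not at hc
    exact hne (funext hc)
  have hm1 : 1 ≤ m := by have := j.2; omega
  have hm0 : (0 : ℝ) ≤ m := Nat.cast_nonneg m
  have hm1' : (1 : ℝ) ≤ m := by exact_mod_cast hm1
  -- the time change
  let κ : ℝ → ℝ := fun s => f3 (-(1 / 2) + clamp m s) (b1 + √2 * clamp m s) (b2 + √3 * clamp m s)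
  have hκc : Continuous κ := by
    have h0 : Continuous fun s : ℝ => f3 (-(1 / 2) + s) (b1 + √2 * s) (b2 + √3 * s) := by
      unfold f3
      fun_prop
    exact h0.comp (continuous_clamp m)
  have hκpos : ∀ s, 0 < κ s := fun s => hpos _ (clamp_mem hm0 s)
  have hκle : ∀ s, κ s ≤ 1 / 4 := by
    intro s
    exact fB_le ![-(1 / 2) + clamp m s, b1 + √2 * clamp m s, b2 + √3 * clamp m s, 0, 0]
  obtain ⟨τ, hτ0, hτ, hτs⟩ := exists_time_change κ hκc hκpos (1 / 4) hκle
  -- the flow of the first field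
  have hflow : ∀ w : Fin m → Bool, ∀ t ∈ Icc (0 : ℝ) (τ.symm m),
      flow X1 t (z w) = flow V0 (τ t) (z w) := by
    intro w t ht
    have ha : aB (z w) = 1 := by
      have hxm := xs_mem m (ext w)
      have h3 : rd (z w 3) = xs m (ext w) / 10 - 3 / 20 := by
        change rd (xs m (ext w) / 10 - 3 / 20) = _
        exact rd_of_abs_lt (by rw [abs_lt]; constructor <;> linarith [hxm.1, hxm.2])
      rw [aB, h3]
      exact bump_eq_one (by norm_num) (by norm_num) (by linarith [hxm.1]) (by linarith [hxm.2])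
    have hu : 1 / 25 ≤ uF (z w) := (uF_gt_of_aB_ne_zero (by rw [ha]; exact one_ne_zero)).le
    rw [flow_X1_outside hu, ha, one_mul]
    have h1 : ContinuousOn (fun t => flow V0 (τ t) (z w)) (Icc 0 (τ.symm m)) :=
      ((good_V0.continuous_flow (z w)).comp τ.continuous).continuousOn
    have h2 := good_V1.eq_flow_Icc h1 (fun t ht => by
      have h3 := hasDerivAt_comp_time_change (fun s => good_V0.hasDerivAt_flow (z w) s) hτ t
      have h4 : τ t ∈ Icc (0 : ℝ) m := by
        constructor
        · rw [← hτ0]; exact τ.monotone ht.1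
        · have := τ.monotone ht.2.le
          rwa [OrderIso.apply_symm_apply] at this
      have h5 : κ (τ t) = fB (flow V0 (τ t) (z w)) := by
        have h6 := flow_V0_base (z w) (τ t)
        simp only [κ]
        rw [clamp_eq h4, fB_eq_f3, h6.1, h6.2.1, h6.2.2]
        rfl
      rw [h5] at h3
      exact h3) t ht
    rw [hτ0, good_V0.flow_zero] at h2
    exact h2.symm
  -- the time
  have hj0 : (0 : ℝ) ≤ (j : ℕ) := Nat.cast_nonneg _
  have hjm : ((j : ℕ) : ℝ) + 1 ≤ m := by
    have := j.2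
    exact_mod_cast this
  have hs0 : 0 ≤ τ.symm (j : ℕ) := by
    rw [← τ.le_iff_le, OrderIso.apply_symm_apply, hτ0]; exact hj0
  set n : ℕ := ⌈τ.symm (j : ℕ)⌉₊ with hn
  have hn1 : τ.symm (j : ℕ) ≤ n := Nat.le_ceil _
  have hn2 : (n : ℝ) < τ.symm (j : ℕ) + 1 := Nat.ceil_lt_add_one hs0
  have hτn1 : ((j : ℕ) : ℝ) ≤ τ n := by
    have := τ.monotone hn1
    rwa [OrderIso.apply_symm_apply] at this
  have hanti : Antitone fun t => τ t - t * (1 / 4) := by
    have hd : ∀ t, HasDerivAt (fun t => τ t - t * (1 / 4)) (κ (τ t) - 1 * (1 / 4)) t := fun t =>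
      (hτ t).fun_sub ((hasDerivAt_id t).mul_const _)
    apply antitone_of_deriv_nonpos (fun t => (hd t).differentiableAt)
    intro t
    rw [(hd t).deriv]
    have := hκle (τ t)
    linarith
  have hτn2 : τ n ≤ (j : ℕ) + 1 / 4 := by
    have := hanti hn1
    simp only [OrderIso.apply_symm_apply] at this
    linarith
  have hnT : (n : ℝ) ≤ τ.symm m := by
    rw [← τ.le_iff_le, OrderIso.apply_symm_apply]
    linarith
  have hT : τ.symm m ≤ C * m := by
    rw [hτs]
    refine le_trans (le_of_eq ?_) hint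
    apply intervalIntegral.integral_congr
    intro s hs
    rw [uIcc_of_le hm0] at hs
    simp only [κ, clamp_eq hs]
  refine ⟨n, ?_, ?_⟩
  · have h1 : τ.symm (j : ℕ) ≤ τ.symm m := τ.symm.monotone (by linarith)
    nlinarith
  · rw [good_X1.tflow_iterate, good_X1.tflow_iterate, good_X1.tflow_cov, good_X1.tflow_cov,
      hflow w n ⟨Nat.cast_nonneg n, hnT⟩, hflow w' n ⟨Nat.cast_nonneg n, hnT⟩]
    refine le_trans ?_ (dist_le_pi_dist _ _ 3)
    change 1 / 30 ≤ dist ((flow V0 (τ n) (z w) 3 : ℝ) : UnitAddCircle)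
      ((flow V0 (τ n) (z w') 3 : ℝ) : UnitAddCircle)
    have e1 : ∀ w, flow V0 (τ n) (z w) 3 = xs (m - j) (fun i => ext w (i + j)) / 10 - 3 / 20 :=
      fun w => flow_V0_rest m j j.2 (ext w) b1 b2 (τ n) ⟨hτn1, hτn2⟩
    rw [e1 w, e1 w', dist_eq_norm, ← AddCircle.coe_sub, ← abs_rd_eq_norm]
    obtain ⟨l, hl⟩ : ∃ l, m - (j : ℕ) = l + 1 := ⟨m - j - 1, by have := j.2; omega⟩
    rw [hl]
    have p1 := xs_piece l (fun i => ext w (i + j))
    have p2 := xs_piece l (fun i => ext w' (i + j))
    have q1 := xs_mem (l + 1) (fun i => ext w (i + j))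
    have q2 := xs_mem (l + 1) (fun i => ext w' (i + j))
    set A := xs (l + 1) (fun i => ext w (i + j))
    set B := xs (l + 1) (fun i => ext w' (i + j))
    have e2 : ∀ w, ext w (0 + j) = w j := by
      intro w
      simp only [zero_add, ext, dif_pos j.2]
    rw [e2] at p1 p2
    have hAB : A / 10 - 3 / 20 - (B / 10 - 3 / 20) = (A - B) / 10 := by ring
    rw [hAB, rd_of_abs_lt (by
      rw [abs_lt]; constructor <;> linarith [q1.1, q1.2, q2.1, q2.2])]
    rcases Bool.eq_false_or_eq_true (w j) with hw | hw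
    · have hw' : w' j = false := by
        rcases Bool.eq_false_or_eq_true (w' j) with h | h
        · exact absurd (hw.trans h.symm) hj
        · exact h
      rw [hw] at p1
      rw [hw'] at p2
      simp only [sv] at p1 p2
      norm_num at p1 p2
      rw [le_abs]; left; linarith [p1.1, p2.2]
    · have hw' : w' j = true := by
        rcases Bool.eq_false_or_eq_true (w' j) with h | h
        · exact h
        · exact absurd (hw.trans h.symm) hj
      rw [hw] at p1
      rw [hw'] at p2
      simp only [sv] at p1 p2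
      norm_num at p1 p2
      rw [le_abs]; right; linarith [p1.2, p2.1]

end Pool.Agent.MP_1a349f_an
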