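import Mathlib
import Pool.Agent.MP_1a349f_an.Equiv

set_option autoImplicit false

/-!
# Explicit dynamics inside the disc
-/

namespace Pool.Agent.MP_1a349f_an

open Set Filter Topology Real MeasureTheory
open scoped ContDiff

/-- Squared distance to the centre of the disc (no rounding). -/
noncomputable def vE (z : Fin 5 → ℝ) : ℝ := (z 3 - 1 / 2) ^ 2 + z 4 ^ 2

theorem vE_nonneg (z : Fin 5 → ℝ) : 0 ≤ vE z := by rw [vE]; positivity

theorem rd_of_vE {z : Fin 5 → ℝ} (h : vE z < 1 / 4) :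
    rd (z 3 - 1 / 2) = z 3 - 1 / 2 ∧ rd (z 4) = z 4 := by
  rw [vE] at h
  constructor
  · apply rd_of_abs_lt
    apply abs_lt_of_sq_lt_sq _ (by norm_num)
    nlinarith [sq_nonneg (z 4)]
  · apply rd_of_abs_lt
    apply abs_lt_of_sq_lt_sq _ (by norm_num)
    nlinarith [sq_nonneg (z 3 - 1 / 2)]

theorem uF_eq_vE {z : Fin 5 → ℝ} (h : vE z < 1 / 4) : uF z = vE z := by
  rw [uF, vE, (rd_of_vE h).1, (rd_of_vE h).2]

theorem DF_explicit (g : ℝ → ℝ) (c : ℝ) {z : Fin 5 → ℝ} (h : vE z < 1 / 4) :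
    DF g c z = ![0, 0, 0,
      g (vE z) * (drift z (vE z) * (z 3 - 1 / 2) - c * ang (vE z) * z 4),
      g (vE z) * (drift z (vE z) * z 4 + c * ang (vE z) * (z 3 - 1 / 2))] := by
  have e3 : rdOn {3, 4} (sh z) 3 = z 3 - 1 / 2 := (rd_of_vE h).1
  have e4 : rdOn {3, 4} (sh z) 4 = z 4 := (rd_of_vE h).2
  have ed : ∀ v, drift (rdOn {3, 4} (sh z)) v = drift z v := fun v => rfl
  simp only [DF, discField, e3, e4, ed]
  rfl

/-- A periodic field which on the disc is given by the explicit formula. -/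
structure DiscField (X : (Fin 5 → ℝ) → (Fin 5 → ℝ)) (g : ℝ → ℝ) (c : ℝ) : Prop where
  good : Good X
  eq : ∀ z, vE z < 1 / 25 → X z = DF g c z
  zero : ∀ z, vE z = 1 / 25 → X z = 0

theorem discField_X2 : DiscField X2 (fun _ => 1) (2 * π) where
  good := good_X2
  eq z h := X2_inside (by rw [uF_eq_vE (by linarith)]; exact h.le)
  zero z h := by
    have hu : uF z = 1 / 25 := by rw [uF_eq_vE (by rw [h]; norm_num), h]
    rw [X2_outside hu.ge, aB_eq_zero_of_uF_le hu.le, zero_mul, zero_smul]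

theorem discField_X1 : DiscField X1 (fun v => 100 * v) (2 * π) where
  good := good_X1
  eq z h := by
    have hu : uF z ≤ 1 / 25 := by rw [uF_eq_vE (by linarith)]; exact h.le
    rw [X1, aB_eq_zero_of_uF_le hu, zero_mul, zero_smul, zero_add]
  zero z h := by
    have hu : uF z = 1 / 25 := by rw [uF_eq_vE (by rw [h]; norm_num), h]
    rw [X1_outside hu.ge, aB_eq_zero_of_uF_le hu.le, zero_mul, zero_smul]

/-- The purely radial field. -/
noncomputable def WR : (Fin 5 → ℝ) → (Fin 5 → ℝ) := DF (fun _ => 1) 0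

theorem discField_WR : DiscField WR (fun _ => 1) 0 where
  good := good_DF _ contDiff_const _
  eq _ _ := rfl
  zero z h := DF_eq_zero _ _ (by rw [uF_eq_vE (by rw [h]; norm_num), h])

theorem continuous_vE : Continuous vE := by
  unfold vE
  fun_prop

theorem isOpen_vE (r : ℝ) : IsOpen {z | vE z < r} := isOpen_lt continuous_vE continuous_const

theorem frontier_vE {r : ℝ} {z : Fin 5 → ℝ} (h : z ∈ frontier {z | vE z < r}) : vE z = r :=
  frontier_lt_subset_eq continuous_vE continuous_const h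

variable {X : (Fin 5 → ℝ) → (Fin 5 → ℝ)} {g : ℝ → ℝ} {c : ℝ}

theorem DiscField.mem (hX : DiscField X g c) {z : Fin 5 → ℝ} (h : vE z < 1 / 25) (t : ℝ) :
    vE (flow X t z) < 1 / 25 :=
  hX.good.mem_of_mem (isOpen_vE _) (fun y hy => hX.zero y (frontier_vE hy)) h t

theorem DiscField.eq' (hX : DiscField X g c) {z : Fin 5 → ℝ} (h : vE z < 1 / 25) (t : ℝ) :
    X (flow X t z) = ![0, 0, 0,
      g (vE (flow X t z)) * (drift (flow X t z) (vE (flow X t z)) * (flow X t z 3 - 1 / 2) -
        c * ang (vE (flow X t z)) * flow X t z 4),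
      g (vE (flow X t z)) * (drift (flow X t z) (vE (flow X t z)) * flow X t z 4 +
        c * ang (vE (flow X t z)) * (flow X t z 3 - 1 / 2))] := by
  have h1 := hX.mem h t
  rw [hX.eq _ h1, DF_explicit _ _ (by linarith)]

theorem DiscField.base (hX : DiscField X g c) {z : Fin 5 → ℝ} (h : vE z < 1 / 25) (t : ℝ)
    (i : Fin 5) (hi : i = 0 ∨ i = 1 ∨ i = 2) : flow X t z i = z i := by
  have h1 : ∀ t, HasDerivAt (fun t => flow X t z i) 0 t := by
    intro t
    have h2 := (hasDerivAt_pi.1 (hX.good.hasDerivAt_flow z t)) i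
    rw [hX.eq' h t] at h2
    rcases hi with rfl | rfl | rfl <;> exact h2
  have h2 := is_const_of_deriv_eq_zero (fun t => (h1 t).differentiableAt)
    (fun t => (h1 t).deriv) t 0
  simp only [hX.good.flow_zero] at h2
  exact h2

theorem DiscField.drift (hX : DiscField X g c) {z : Fin 5 → ℝ} (h : vE z < 1 / 25) (t v : ℝ) :
    drift (flow X t z) v = Pool.Agent.MP_1a349f_an.drift z v := by
  unfold Pool.Agent.MP_1a349f_an.drift
  rw [hX.base h t 0 (Or.inl rfl), hX.base h t 1 (Or.inr (Or.inl rfl)),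
    hX.base h t 2 (Or.inr (Or.inr rfl))]

theorem DiscField.hasDerivAt_vE (hX : DiscField X g c) {z : Fin 5 → ℝ} (h : vE z < 1 / 25)
    (t : ℝ) : HasDerivAt (fun t => vE (flow X t z))
      (2 * g (vE (flow X t z)) * Pool.Agent.MP_1a349f_an.drift z (vE (flow X t z)) *
        vE (flow X t z)) t := by
  have h0 := hX.good.hasDerivAt_flow z t
  have h3 := (hasDerivAt_pi.1 h0) 3
  have h4 := (hasDerivAt_pi.1 h0) 4
  rw [hX.eq' h t, hX.drift h t] at h3 h4
  have h5 := ((h3.sub_const (1 / 2)).fun_pow 2).fun_add (h4.fun_pow 2)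
  refine h5.congr_deriv ?_
  simp only [Matrix.cons_val]
  rw [vE]
  norm_num
  ring

end Pool.Agent.MP_1a349f_an
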