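import Mathlib
import Pool.Agent.MP_1a349f_an.DiscDyn
import Pool.Agent.MP_1a349f_an.ZeroOut

set_option autoImplicit false

/-!
# Zero entropy of the slow flow inside the disc
-/

namespace Pool.Agent.MP_1a349f_an

open Set Filter Topology Real MeasureTheory Dynamics
open scoped ENNReal NNReal ContDiff

/-! ### Lipschitz constants of the profile functions -/

theorem exists_lipschitz_of_support {f : ℝ → ℝ} (hf : ContDiff ℝ ∞ f)
    (hs : ∀ v, v ∉ Ioo (0 : ℝ) (1 / 100) → f v = 0) :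
    ∃ L > (0 : ℝ), ∀ a b, |f a - f b| ≤ L * |a - b| := by
  have hc : HasCompactSupport f := by
    apply HasCompactSupport.intro (K := Icc 0 (1 / 100)) isCompact_Icc
    intro v hv
    exact hs v fun h => hv (Ioo_subset_Icc_self h)
  obtain ⟨C, hC⟩ := hf.lipschitzWith_of_hasCompactSupport hc (by simp)
  refine ⟨C + 1, by positivity, fun a b => ?_⟩
  have := hC.dist_le_mul a b
  rw [Real.dist_eq, Real.dist_eq] at this
  have h2 := abs_nonneg (a - b)
  nlinarith

theorem S0_lip : ∃ L > (0 : ℝ), ∀ a b, |S0 a - S0 b| ≤ L * |a - b| :=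
  exists_lipschitz_of_support S0_spec.2.1 fun _ h => S0_outside h

theorem E0_lip : ∃ L > (0 : ℝ), ∀ a b, |E0 a - E0 b| ≤ L * |a - b| :=
  exists_lipschitz_of_support E0_spec.2.1 fun _ h => E0_eq_zero_iff.2 h

theorem ang_lip : ∃ L > (0 : ℝ), ∀ a b, |ang a - ang b| ≤ L * |a - b| := by
  have hb : ∃ C : ℝ, ∀ t, |dT t| ≤ C := by
    obtain ⟨C, hC⟩ := (isCompact_Icc (a := (0 : ℝ)) (b := 1)).exists_bound_of_continuousOn
      contDiff_dT.continuous.continuousOn
    refine ⟨max C 0, fun t => ?_⟩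
    by_cases h0 : t ≤ 0
    · rw [dT_of_nonpos h0, abs_zero]; exact le_max_right _ _
    by_cases h1 : 1 ≤ t
    · rw [dT_of_one_le h1, abs_zero]; exact le_max_right _ _
    · exact (hC t ⟨(not_le.1 h0).le, (not_le.1 h1).le⟩).trans (le_max_left _ _)
  obtain ⟨C, hC⟩ := hb
  have hC0 : 0 ≤ C := (abs_nonneg _).trans (hC 0)
  have hd : ∀ t, HasDerivAt ang (dT ((1 / 25 - t) * (100 / 3)) * (-1 * (100 / 3))) t := by
    intro t
    have h1 : HasDerivAt (fun t : ℝ => (1 / 25 - t) * (100 / 3)) (-1 * (100 / 3)) t :=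
      ((hasDerivAt_id t).const_sub (1 / 25)).mul_const (100 / 3)
    exact (hasDerivAt_smoothTransition _).comp t h1
  refine ⟨C * (100 / 3) + 1, by positivity, fun a b => ?_⟩
  have h := Convex.norm_image_sub_le_of_norm_hasDerivWithin_le
    (f := ang) (f' := fun t => dT ((1 / 25 - t) * (100 / 3)) * (-1 * (100 / 3)))
    (C := C * (100 / 3)) (s := univ) (x := b) (y := a)
    (fun r _ => (hd r).hasDerivWithinAt)
    (fun r _ => by
      rw [norm_mul, Real.norm_eq_abs, Real.norm_eq_abs]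
      have : |(-1 * (100 / 3) : ℝ)| = 100 / 3 := by norm_num [abs_of_pos]
      rw [this]
      exact mul_le_mul_of_nonneg_right (hC _) (by norm_num)) convex_univ trivial trivial
  rw [Real.norm_eq_abs, Real.norm_eq_abs] at h
  have h2 := abs_nonneg (a - b)
  nlinarith

/-- The square root of the drift. -/
noncomputable def pD (z : Fin 5 → ℝ) : ℝ := √(drift z (vE z))

theorem pD_nonneg (z : Fin 5 → ℝ) : 0 ≤ pD z := sqrt_nonneg _

theorem pD_sq (z : Fin 5 → ℝ) : pD z ^ 2 = drift z (vE z) := Real.sq_sqrt (drift_nonneg _ _)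

theorem drift_le_four (z : Fin 5 → ℝ) (v : ℝ) : drift z v ≤ 4 := by
  rw [drift]
  have h1 := S0_mem v
  have h2 := E0_mem v
  have c0 := cos_sq_le_one (π * z 0)
  have c1 := cos_sq_le_one (π * z 1)
  have c2 := cos_sq_le_one (π * z 2)
  have d0 := sq_nonneg (cos (π * z 0))
  have d1 := sq_nonneg (cos (π * z 1))
  have d2 := sq_nonneg (cos (π * z 2))
  have h3 : S0 v ^ 2 ≤ 1 := pow_le_one₀ h1.1 h1.2
  have h4 : E0 v ^ 2 ≤ 1 := pow_le_one₀ h2.1 h2.2
  have h5 : E0 v ^ 2 * (cos (π * z 0) ^ 2 + cos (π * z 1) ^ 2 + cos (π * z 2) ^ 2) ≤ 1 * 3 :=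
    mul_le_mul h4 (by linarith) (by positivity) zero_le_one
  linarith

theorem pD_le_two (z : Fin 5 → ℝ) : pD z ≤ 2 := by
  rw [pD, Real.sqrt_le_left (by norm_num)]
  linarith [drift_le_four z (vE z)]

theorem vE_sub_le {z z' : Fin 5 → ℝ} (h : vE z < 1 / 25) (h' : vE z' < 1 / 25) :
    |vE z' - vE z| ≤ ‖z' - z‖ := by
  rw [vE] at h h'
  have a1 : |z 3 - 1 / 2| ≤ 1 / 5 := abs_le_of_sq_le_sq (by nlinarith [sq_nonneg (z 4)]) (by norm_num)
  have a2 : |z 4| ≤ 1 / 5 := abs_le_of_sq_le_sq (by nlinarith [sq_nonneg (z 3 - 1 / 2)]) (by norm_num)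
  have a3 : |z' 3 - 1 / 2| ≤ 1 / 5 :=
    abs_le_of_sq_le_sq (by nlinarith [sq_nonneg (z' 4)]) (by norm_num)
  have a4 : |z' 4| ≤ 1 / 5 :=
    abs_le_of_sq_le_sq (by nlinarith [sq_nonneg (z' 3 - 1 / 2)]) (by norm_num)
  have b1 : |z' 3 - z 3| ≤ ‖z' - z‖ := norm_le_pi_norm (z' - z) 3
  have b2 : |z' 4 - z 4| ≤ ‖z' - z‖ := norm_le_pi_norm (z' - z) 4
  have e : vE z' - vE z = (z' 3 - z 3) * ((z' 3 - 1 / 2) + (z 3 - 1 / 2)) +
      (z' 4 - z 4) * (z' 4 + z 4) := by rw [vE, vE]; ring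
  rw [e]
  refine (abs_add_le _ _).trans ?_
  rw [abs_mul, abs_mul]
  have c1 : |z' 3 - 1 / 2 + (z 3 - 1 / 2)| ≤ 2 / 5 := (abs_add_le _ _).trans (by linarith)
  have c2 : |z' 4 + z 4| ≤ 2 / 5 := (abs_add_le _ _).trans (by linarith)
  have n0 : 0 ≤ ‖z' - z‖ := norm_nonneg _
  have d1 : |z' 3 - z 3| * |z' 3 - 1 / 2 + (z 3 - 1 / 2)| ≤ ‖z' - z‖ * (2 / 5) :=
    mul_le_mul b1 c1 (abs_nonneg _) n0
  have d2 : |z' 4 - z 4| * |z' 4 + z 4| ≤ ‖z' - z‖ * (2 / 5) :=
    mul_le_mul b2 c2 (abs_nonneg _) n0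
  linarith

theorem abs_cos_sub_le (a b : ℝ) : |cos a - cos b| ≤ |a - b| := by
  have h := Convex.norm_image_sub_le_of_norm_hasDerivWithin_le
    (f := cos) (f' := fun t => -sin t) (C := 1) (s := univ) (x := b) (y := a)
    (fun r _ => (hasDerivAt_cos r).hasDerivWithinAt)
    (fun r _ => by rw [Real.norm_eq_abs, abs_neg]; exact abs_sin_le_one r) convex_univ trivial trivial
  simpa [Real.norm_eq_abs] using h

/-- Difference of squares estimate. -/
theorem sq_sub_sq_le {a b p q l : ℝ} (h1 : |b - a| ≤ l) (h2 : |a| ≤ p) (h3 : |b| ≤ q) :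
    |b ^ 2 - a ^ 2| ≤ l * (p + q) := by
  have h : b ^ 2 - a ^ 2 = (b - a) * (a + b) := by ring
  rw [h, abs_mul]
  exact mul_le_mul h1 ((abs_add_le _ _).trans (add_le_add h2 h3)) (abs_nonneg _)
    ((abs_nonneg _).trans h1)

theorem drift_sub_le : ∃ L > (0 : ℝ), ∀ z z' : Fin 5 → ℝ, vE z < 1 / 25 → vE z' < 1 / 25 →
    |drift z' (vE z') - drift z (vE z)| ≤ L * (pD z + pD z') * ‖z' - z‖ := by
  obtain ⟨LS, hLS, hS⟩ := S0_lip
  obtain ⟨LE, hLE, hE⟩ := E0_lip
  refine ⟨LS + 3 * (LE + 4), by positivity, fun z z' h h' => ?_⟩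
  have hv := vE_sub_le h h'
  set N := ‖z' - z‖ with hN
  have hN0 : 0 ≤ N := norm_nonneg _
  have t0 : |S0 (vE z') - S0 (vE z)| ≤ LS * N :=
    (hS _ _).trans (mul_le_mul_of_nonneg_left hv hLS.le)
  have tE : |E0 (vE z') - E0 (vE z)| ≤ LE * N :=
    (hE _ _).trans (mul_le_mul_of_nonneg_left hv hLE.le)
  have ti : ∀ i : Fin 5, |E0 (vE z') * cos (π * z' i) - E0 (vE z) * cos (π * z i)| ≤
      (LE + 4) * N := by
    intro i
    have e : E0 (vE z') * cos (π * z' i) - E0 (vE z) * cos (π * z i) =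
        (E0 (vE z') - E0 (vE z)) * cos (π * z' i) +
        E0 (vE z) * (cos (π * z' i) - cos (π * z i)) := by ring
    rw [e]
    refine (abs_add_le _ _).trans ?_
    rw [abs_mul, abs_mul]
    have hE1 := E0_mem (vE z)
    have b1 : |z' i - z i| ≤ N := norm_le_pi_norm (z' - z) i
    have b2 : |cos (π * z' i) - cos (π * z i)| ≤ 4 * N := by
      refine (abs_cos_sub_le _ _).trans ?_
      rw [← mul_sub, abs_mul, abs_of_pos pi_pos]
      exact mul_le_mul pi_le_four b1 (abs_nonneg _) (by norm_num)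
    have b3 : |E0 (vE z') - E0 (vE z)| * |cos (π * z' i)| ≤ LE * N * 1 :=
      mul_le_mul tE (abs_cos_le_one _) (abs_nonneg _) (by positivity)
    have b4 : |E0 (vE z)| * |cos (π * z' i) - cos (π * z i)| ≤ 1 * (4 * N) := by
      rw [abs_of_nonneg hE1.1]
      exact mul_le_mul hE1.2 b2 (abs_nonneg _) zero_le_one
    linarith
  have sd : ∀ z : Fin 5 → ℝ, pD z ^ 2 = S0 (vE z) ^ 2 + (E0 (vE z) * cos (π * z 0)) ^ 2 +
      (E0 (vE z) * cos (π * z 1)) ^ 2 + (E0 (vE z) * cos (π * z 2)) ^ 2 := by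
    intro z
    rw [pD_sq, drift]; ring
  have sS : ∀ z : Fin 5 → ℝ, |S0 (vE z)| ≤ pD z := by
    intro z
    apply abs_le_of_sq_le_sq _ (pD_nonneg z)
    rw [sd]
    nlinarith [sq_nonneg (E0 (vE z) * cos (π * z 0)), sq_nonneg (E0 (vE z) * cos (π * z 1)),
      sq_nonneg (E0 (vE z) * cos (π * z 2))]
  have s0 : ∀ z : Fin 5 → ℝ, |E0 (vE z) * cos (π * z 0)| ≤ pD z := by
    intro z
    apply abs_le_of_sq_le_sq _ (pD_nonneg z)
    rw [sd]
    nlinarith [sq_nonneg (S0 (vE z)), sq_nonneg (E0 (vE z) * cos (π * z 1)),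
      sq_nonneg (E0 (vE z) * cos (π * z 2))]
  have s1 : ∀ z : Fin 5 → ℝ, |E0 (vE z) * cos (π * z 1)| ≤ pD z := by
    intro z
    apply abs_le_of_sq_le_sq _ (pD_nonneg z)
    rw [sd]
    nlinarith [sq_nonneg (S0 (vE z)), sq_nonneg (E0 (vE z) * cos (π * z 0)),
      sq_nonneg (E0 (vE z) * cos (π * z 2))]
  have s2 : ∀ z : Fin 5 → ℝ, |E0 (vE z) * cos (π * z 2)| ≤ pD z := by
    intro z
    apply abs_le_of_sq_le_sq _ (pD_nonneg z)
    rw [sd]
    nlinarith [sq_nonneg (S0 (vE z)), sq_nonneg (E0 (vE z) * cos (π * z 0)),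
      sq_nonneg (E0 (vE z) * cos (π * z 1))]
  have u0 := sq_sub_sq_le t0 (sS z) (sS z')
  have u1 := sq_sub_sq_le (ti 0) (s0 z) (s0 z')
  have u2 := sq_sub_sq_le (ti 1) (s1 z) (s1 z')
  have u3 := sq_sub_sq_le (ti 2) (s2 z) (s2 z')
  rw [← pD_sq, ← pD_sq, sd, sd]
  rw [abs_le] at *
  constructor <;> nlinarith [u0.1, u0.2, u1.1, u1.2, u2.1, u2.2, u3.1, u3.2]

theorem WR_explicit {z : Fin 5 → ℝ} (h : vE z < 1 / 25) :
    WR z = ![0, 0, 0, drift z (vE z) * (z 3 - 1 / 2), drift z (vE z) * z 4] := by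
  rw [WR, DF_explicit _ _ (by linarith)]
  funext i
  fin_cases i <;> simp

theorem WR_lipschitz : ∃ K > (0 : ℝ), ∀ z z' : Fin 5 → ℝ, vE z < 1 / 25 → vE z' < 1 / 25 →
    ‖WR z' - WR z‖ ≤ K * (pD z + pD z') * ‖z' - z‖ := by
  obtain ⟨L, hL, hd⟩ := drift_sub_le
  refine ⟨L + 2, by positivity, fun z z' h h' => ?_⟩
  have hdr := hd z z' h h'
  have hp := pD_nonneg z
  have hp' := pD_nonneg z'
  have hN0 : 0 ≤ ‖z' - z‖ := norm_nonneg _
  have h2 : drift z (vE z) ≤ 2 * pD z := by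
    rw [← pD_sq]
    nlinarith [pD_le_two z]
  have key : ∀ a a' : ℝ, |a'| ≤ 1 → |a' - a| ≤ ‖z' - z‖ →
      |drift z' (vE z') * a' - drift z (vE z) * a| ≤ (L + 2) * (pD z + pD z') * ‖z' - z‖ := by
    intro a a' ha' haa
    have e : drift z' (vE z') * a' - drift z (vE z) * a =
        (drift z' (vE z') - drift z (vE z)) * a' + drift z (vE z) * (a' - a) := by ring
    rw [e]
    refine (abs_add_le _ _).trans ?_
    rw [abs_mul, abs_mul, abs_of_nonneg (drift_nonneg z (vE z))]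
    have b1 : |drift z' (vE z') - drift z (vE z)| * |a'| ≤
        L * (pD z + pD z') * ‖z' - z‖ * 1 :=
      mul_le_mul hdr ha' (abs_nonneg _) (by positivity)
    have b2 : drift z (vE z) * |a' - a| ≤ 2 * pD z * ‖z' - z‖ :=
      mul_le_mul h2 haa (abs_nonneg _) (by positivity)
    have b3 : 0 ≤ pD z' * ‖z' - z‖ := mul_nonneg hp' hN0
    nlinarith
  have hv' : |z' 3 - 1 / 2| ≤ 1 ∧ |z' 4| ≤ 1 := by
    rw [vE] at h'
    constructor
    · exact abs_le_of_sq_le_sq (by nlinarith [sq_nonneg (z' 4)]) (by norm_num)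
    · exact abs_le_of_sq_le_sq (by nlinarith [sq_nonneg (z' 3 - 1 / 2)]) (by norm_num)
  have n3 : |z' 3 - 1 / 2 - (z 3 - 1 / 2)| ≤ ‖z' - z‖ := by
    have : z' 3 - 1 / 2 - (z 3 - 1 / 2) = (z' - z) 3 := by
      simp only [Pi.sub_apply]; ring
    rw [this]
    exact norm_le_pi_norm (z' - z) 3
  have n4 : |z' 4 - z 4| ≤ ‖z' - z‖ := norm_le_pi_norm (z' - z) 4
  have hnn : 0 ≤ (L + 2) * (pD z + pD z') * ‖z' - z‖ := by positivity
  rw [WR_explicit h, WR_explicit h', pi_norm_le_iff_of_nonneg hnn]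
  intro i
  fin_cases i
  · simpa using hnn
  · simpa using hnn
  · simpa using hnn
  · exact key _ _ hv'.1 n3
  · exact key _ _ hv'.2 n4

/-- The drift is small unless the radius grows. -/
theorem drift_bound {δ : ℝ} (hδ : 0 < δ) : ∃ r > (0 : ℝ), ∀ (z : Fin 5 → ℝ) (v : ℝ), 0 ≤ v →
    drift z v ≤ δ + drift z v * v / r := by
  have hc : ContinuousAt (fun v => S0 v ^ 2 + 3 * E0 v ^ 2) 0 := by
    have h1 : Continuous S0 := S0_spec.2.1.continuous
    have h2 : Continuous E0 := E0_spec.2.1.continuous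
    exact ((h1.pow 2).add (continuous_const.mul (h2.pow 2))).continuousAt
  have h0 : S0 0 ^ 2 + 3 * E0 0 ^ 2 < δ := by
    rw [S0_outside (by simp), E0_eq_zero_iff.2 (by simp)]
    simpa using hδ
  obtain ⟨r, hr, hr2⟩ := Metric.eventually_nhds_iff.1 (hc.eventually_lt continuousAt_const h0)
  refine ⟨r, hr, fun z v hv => ?_⟩
  have hdn := drift_nonneg z v
  by_cases hvr : v < r
  · have h1 := hr2 (y := v) (by rw [Real.dist_eq, sub_zero, abs_of_nonneg hv]; exact hvr)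
    have h2 : drift z v ≤ S0 v ^ 2 + 3 * E0 v ^ 2 := by
      rw [drift]
      have c0 := cos_sq_le_one (π * z 0)
      have c1 := cos_sq_le_one (π * z 1)
      have c2 := cos_sq_le_one (π * z 2)
      nlinarith [sq_nonneg (E0 v)]
    have h3 : 0 ≤ drift z v * v / r := by positivity
    linarith
  · have h1 : drift z v ≤ drift z v * v / r := by
      rw [le_div_iff₀ hr]
      exact mul_le_mul_of_nonneg_left (not_lt.1 hvr) hdn
    linarith

/-- Subexponential separation for the radial flow. -/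
theorem WR_growth {δ : ℝ} (hδ : 0 < δ) : ∃ C > (0 : ℝ), ∀ z z' : Fin 5 → ℝ,
    vE z < 1 / 25 → vE z' < 1 / 25 → ∀ t ≥ (0 : ℝ),
    ‖flow WR t z' - flow WR t z‖ ≤ C * exp (δ * t) * ‖z' - z‖ := by
  obtain ⟨K, hK, hlip⟩ := WR_lipschitz
  set l : ℝ := δ / (20 * K) with hl
  have hl0 : 0 < l := by positivity
  obtain ⟨r, hr, hdb⟩ := drift_bound (δ := l ^ 2) (by positivity)
  set B : ℝ := 5 * exp (K / (l * r)) with hB
  have hB1 : 1 ≤ B := by
    have : 1 ≤ exp (K / (l * r)) := one_le_exp (by positivity)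
    rw [hB]; linarith
  refine ⟨B, by linarith, fun z z' hz hz' t ht => ?_⟩
  let v : (Fin 5 → ℝ) → ℝ → ℝ := fun z t => vE (flow WR t z)
  have hv : ∀ z, vE z < 1 / 25 → ∀ t, HasDerivAt (v z) (2 * drift z (v z t) * v z t) t := by
    intro z hz t
    have := discField_WR.hasDerivAt_vE hz t
    simpa only [mul_one] using this
  let A : ℝ → ℝ := fun t => K * (4 * l * t + l⁻¹ * ((v z t + v z' t) / (2 * r)))
  have hA : ∀ t, HasDerivAt A (K * (4 * l + l⁻¹ * ((2 * drift z (v z t) * v z t +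
      2 * drift z' (v z' t) * v z' t) / (2 * r)))) t := by
    intro t
    have h1 : HasDerivAt (fun t : ℝ => 4 * l * t) (4 * l) t := by
      simpa using (hasDerivAt_id t).const_mul (4 * l)
    have h2 := (((hv z hz t).fun_add (hv z' hz' t)).div_const (2 * r)).const_mul l⁻¹
    exact (h1.fun_add h2).const_mul K
  have hone : ∀ z, vE z < 1 / 25 → ∀ t, pD (flow WR t z) ≤
      2 * l + l⁻¹ * (drift z (v z t) * v z t / r) := by
    intro z hz t
    have h1 : pD (flow WR t z) ^ 2 = drift z (v z t) := by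
      rw [pD_sq, discField_WR.drift hz t]
    have h2 : pD (flow WR t z) ≤ l + l⁻¹ * pD (flow WR t z) ^ 2 := by
      set p := pD (flow WR t z)
      have hp : 0 ≤ p := pD_nonneg _
      by_cases h : p ≤ l
      · have : 0 ≤ l⁻¹ * p ^ 2 := by positivity
        linarith
      · have : p ≤ l⁻¹ * p ^ 2 := by
          rw [inv_mul_eq_div, le_div_iff₀ hl0]
          nlinarith [not_le.1 h]
        linarith
    rw [h1] at h2
    have h3 := hdb z (v z t) (vE_nonneg _)
    have h4 : l⁻¹ * drift z (v z t) ≤ l⁻¹ * (l ^ 2 + drift z (v z t) * v z t / r) :=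
      mul_le_mul_of_nonneg_left h3 (inv_pos.2 hl0).le
    have h5 : l⁻¹ * (l ^ 2 + drift z (v z t) * v z t / r) =
        l + l⁻¹ * (drift z (v z t) * v z t / r) := by field_simp
    linarith
  have hg := growth (fun t => flow WR t z) (fun t => flow WR t z') (fun t => WR (flow WR t z))
    (fun t => WR (flow WR t z')) (discField_WR.good.hasDerivAt_flow z)
    (discField_WR.good.hasDerivAt_flow z') A _ hA
    (fun t _ => by
      refine (hlip _ _ (discField_WR.mem hz t) (discField_WR.mem hz' t)).trans ?_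
      apply mul_le_mul_of_nonneg_right _ (norm_nonneg _)
      apply mul_le_mul_of_nonneg_left _ hK.le
      have c1 := hone z hz t
      have c2 := hone z' hz' t
      have e : l⁻¹ * ((2 * drift z (v z t) * v z t + 2 * drift z' (v z' t) * v z' t) / (2 * r)) =
        l⁻¹ * (drift z (v z t) * v z t / r) + l⁻¹ * (drift z' (v z' t) * v z' t / r) := by
        field_simp
      rw [e]
      linarith) t ht
  simp only [discField_WR.good.flow_zero] at hg
  have hAt : 2 * ((5 : ℕ) : ℝ) * (A t - A 0) ≤ 2 * (δ * t) + K / (l * r) := by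
    have h1 : v z t < 1 / 25 := discField_WR.mem hz t
    have h2 : v z' t < 1 / 25 := discField_WR.mem hz' t
    have h3 : 0 ≤ v z 0 := vE_nonneg _
    have h4 : 0 ≤ v z' 0 := vE_nonneg _
    have h5 : A t - A 0 = K * (4 * l * t) +
        K * l⁻¹ / (2 * r) * (v z t + v z' t - (v z 0 + v z' 0)) := by
      simp only [A]
      field_simp
      ring
    have h6 : K * l⁻¹ / (2 * r) * (v z t + v z' t - (v z 0 + v z' 0)) ≤
        K * l⁻¹ / (2 * r) * (2 / 25) :=
      mul_le_mul_of_nonneg_left (by linarith) (by positivity)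
    have h7 : K * (4 * l * t) = δ * t / 5 := by
      rw [hl]; field_simp; ring
    have h8 : K * l⁻¹ / (2 * r) * (2 / 25) = K / (l * r) / 25 := by
      field_simp
    have h9 : 0 < K / (l * r) := by positivity
    rw [h5, h7]
    rw [h8] at h6
    push_cast
    linarith
  have h1 : ‖flow WR t z' - flow WR t z‖ ^ 2 ≤ (B * exp (δ * t) * ‖z' - z‖) ^ 2 := by
    refine hg.trans ?_
    have h2 : exp (2 * ((5 : ℕ) : ℝ) * (A t - A 0)) ≤
        exp (K / (l * r)) * exp (δ * t) ^ 2 := by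
      rw [← exp_nat_mul, ← exp_add]
      apply exp_le_exp.2
      push_cast
      push_cast at hAt
      linarith
    calc ((5 : ℕ) : ℝ) * exp (2 * ((5 : ℕ) : ℝ) * (A t - A 0)) * ‖z' - z‖ ^ 2
        ≤ ((5 : ℕ) : ℝ) * (exp (K / (l * r)) * exp (δ * t) ^ 2) * ‖z' - z‖ ^ 2 := by
          gcongr
      _ = B * (exp (δ * t) * ‖z' - z‖) ^ 2 := by rw [hB]; push_cast; ring
      _ ≤ B ^ 2 * (exp (δ * t) * ‖z' - z‖) ^ 2 := by
          apply mul_le_mul_of_nonneg_right _ (sq_nonneg _)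
          nlinarith
      _ = (B * exp (δ * t) * ‖z' - z‖) ^ 2 := by ring
  exact abs_le_of_sq_le_sq' h1 (by positivity) |>.2

end Pool.Agent.MP_1a349f_an
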