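import Mathlib
import Pool.Agent.MP_1a349f_an.ZeroIn

set_option autoImplicit false

/-!
# The slow flow has zero entropy
-/

namespace Pool.Agent.MP_1a349f_an

open Set Filter Topology Real MeasureTheory Dynamics
open scoped ENNReal NNReal ContDiff

/-- Rotation about the centre of the disc. -/
noncomputable def Rot (φ : ℝ) (z : Fin 5 → ℝ) : Fin 5 → ℝ :=
  ![z 0, z 1, z 2, 1 / 2 + (cos φ * (z 3 - 1 / 2) - sin φ * z 4),
    sin φ * (z 3 - 1 / 2) + cos φ * z 4]

theorem Rot_three (φ : ℝ) (z : Fin 5 → ℝ) :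
    Rot φ z 3 = 1 / 2 + (cos φ * (z 3 - 1 / 2) - sin φ * z 4) := rfl

theorem Rot_four (φ : ℝ) (z : Fin 5 → ℝ) :
    Rot φ z 4 = sin φ * (z 3 - 1 / 2) + cos φ * z 4 := rfl

theorem vE_Rot (φ : ℝ) (z : Fin 5 → ℝ) : vE (Rot φ z) = vE z := by
  have h := sin_sq_add_cos_sq φ
  have e3 : Rot φ z 3 = 1 / 2 + (cos φ * (z 3 - 1 / 2) - sin φ * z 4) := rfl
  have e4 : Rot φ z 4 = sin φ * (z 3 - 1 / 2) + cos φ * z 4 := rfl
  rw [vE, vE, e3, e4]
  linear_combination ((z 3 - 1 / 2) ^ 2 + z 4 ^ 2) * h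

theorem WR_eq_zero {z : Fin 5 → ℝ} (h : vE z < 1 / 25) (h' : 1 / 100 ≤ vE z) : WR z = 0 := by
  rw [WR_explicit h, drift_outside z (fun hc => by linarith [hc.2])]
  funext i
  fin_cases i <;> simp

theorem ang_flow_WR {z : Fin 5 → ℝ} (h : vE z < 1 / 25) (t : ℝ) :
    ang (vE (flow WR t z)) = ang (vE z) := by
  by_cases h' : vE z < 1 / 100
  · have h1 : vE (flow WR t z) < 1 / 100 :=
      discField_WR.good.mem_of_mem (isOpen_vE (1 / 100)) (fun y hy => by
        have := frontier_vE hy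
        exact WR_eq_zero (by rw [this]; norm_num) this.ge) h' t
    rw [ang_eq_one h1.le, ang_eq_one h'.le]
  · rw [discField_WR.good.flow_of_zero (WR_eq_zero h (not_lt.1 h'))]

theorem hasDerivAt_theta (θ t : ℝ) : HasDerivAt (fun t : ℝ => θ * t) θ t := by
  simpa using (hasDerivAt_id t).const_mul θ

/-- The flow on the disc is radial motion composed with a rotation. -/
theorem flow_X2_rot {z : Fin 5 → ℝ} (h : vE z < 1 / 25) (t : ℝ) :
    flow X2 t z = Rot (2 * π * ang (vE z) * t) (flow WR t z) := by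
  set θ := 2 * π * ang (vE z) with hθ
  have hd := discField_WR
  have hγ := good_X2.eq_flow (γ := fun t => Rot (θ * t) (flow WR t z)) (fun s => by
    have hv : vE (Rot (θ * s) (flow WR s z)) = vE (flow WR s z) := vE_Rot _ _
    have hlt : vE (flow WR s z) < 1 / 25 := hd.mem h s
    have hX : X2 (Rot (θ * s) (flow WR s z)) =
        DF (fun _ => 1) (2 * π) (Rot (θ * s) (flow WR s z)) :=
      discField_X2.eq _ (by rw [hv]; exact hlt)
    have hdr : drift (Rot (θ * s) (flow WR s z)) (vE (flow WR s z)) =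
        drift z (vE (flow WR s z)) := by
      rw [← hd.drift h s]; rfl
    rw [hX, DF_explicit _ _ (by rw [hv]; linarith), hv, hdr, ang_flow_WR h s]
    have h0 := hd.good.hasDerivAt_flow z s
    have e0 := (hasDerivAt_pi.1 h0) 0
    have e1 := (hasDerivAt_pi.1 h0) 1
    have e2 := (hasDerivAt_pi.1 h0) 2
    have e3 := (hasDerivAt_pi.1 h0) 3
    have e4 := (hasDerivAt_pi.1 h0) 4
    rw [WR_explicit hlt, hd.drift h s] at e0 e1 e2 e3 e4
    have c := (hasDerivAt_theta θ s).cos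
    have sn := (hasDerivAt_theta θ s).sin
    have e3' := e3.sub_const (1 / 2)
    have q3 := ((c.fun_mul e3').fun_sub (sn.fun_mul e4)).const_add (1 / 2)
    have q4 := (sn.fun_mul e3').fun_add (c.fun_mul e4)
    have q3' : HasDerivAt (fun x => 1 / 2 + (cos (θ * x) * (flow WR x z 3 - 1 / 2) -
        sin (θ * x) * flow WR x z 4))
        (1 * (drift z (vE (flow WR s z)) * (Rot (θ * s) (flow WR s z) 3 - 1 / 2) -
          2 * π * ang (vE z) * Rot (θ * s) (flow WR s z) 4)) s := by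
      refine q3.congr_deriv ?_
      rw [Rot_three, Rot_four, ← hθ]
      simp only [Matrix.cons_val]
      ring
    have q4' : HasDerivAt (fun x => sin (θ * x) * (flow WR x z 3 - 1 / 2) +
        cos (θ * x) * flow WR x z 4)
        (1 * (drift z (vE (flow WR s z)) * Rot (θ * s) (flow WR s z) 4 +
          2 * π * ang (vE z) * (Rot (θ * s) (flow WR s z) 3 - 1 / 2))) s := by
      refine q4.congr_deriv ?_
      rw [Rot_three, Rot_four, ← hθ]
      simp only [Matrix.cons_val]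
      ring
    rw [hasDerivAt_pi]
    intro i
    fin_cases i
    · exact e0
    · exact e1
    · exact e2
    · exact q3'
    · exact q4') t
  have h0 : Rot (θ * 0) (flow WR 0 z) = z := by
    rw [mul_zero, hd.good.flow_zero, Rot, cos_zero, sin_zero]
    funext i
    fin_cases i
    · rfl
    · rfl
    · rfl
    · change 1 / 2 + (1 * (z 3 - 1 / 2) - 0 * z 4) = z 3
      ring
    · change 0 * (z 3 - 1 / 2) + 1 * z 4 = z 4
      ring
  rw [h0] at hγ
  exact hγ.symm

theorem Rot_sub_le {a b : Fin 5 → ℝ} (hb : vE b < 1 / 25) (φ ψ : ℝ) :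
    ‖Rot φ a - Rot ψ b‖ ≤ 2 * ‖a - b‖ + |φ - ψ| := by
  have hb3 : |b 3 - 1 / 2| ≤ 1 / 5 := by
    rw [vE] at hb
    exact abs_le_of_sq_le_sq (by nlinarith [sq_nonneg (b 4)]) (by norm_num)
  have hb4 : |b 4| ≤ 1 / 5 := by
    rw [vE] at hb
    exact abs_le_of_sq_le_sq (by nlinarith [sq_nonneg (b 3 - 1 / 2)]) (by norm_num)
  have n : ∀ i, |a i - b i| ≤ ‖a - b‖ := fun i => norm_le_pi_norm (a - b) i
  have hN : 0 ≤ ‖a - b‖ := norm_nonneg _
  have hφ : 0 ≤ |φ - ψ| := abs_nonneg _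
  rw [pi_norm_le_iff_of_nonneg (by positivity)]
  have n3 : |(a 3 - 1 / 2) - (b 3 - 1 / 2)| ≤ ‖a - b‖ := by
    have : (a 3 - 1 / 2) - (b 3 - 1 / 2) = a 3 - b 3 := by ring
    rw [this]; exact n 3
  have hc := abs_cos_sub_le φ ψ
  have hs := abs_sin_sub_le φ ψ
  have p1 : ∀ x y : ℝ, |x| ≤ 1 → |y| ≤ ‖a - b‖ → |x * y| ≤ ‖a - b‖ := by
    intro x y hx hy
    rw [abs_mul]
    calc |x| * |y| ≤ 1 * ‖a - b‖ := mul_le_mul hx hy (abs_nonneg _) zero_le_one
      _ = ‖a - b‖ := one_mul _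
  have p2 : ∀ x y : ℝ, |x| ≤ |φ - ψ| → |y| ≤ 1 / 5 → |x * y| ≤ |φ - ψ| * (1 / 5) := by
    intro x y hx hy
    rw [abs_mul]
    exact mul_le_mul hx hy (abs_nonneg _) hφ
  intro i
  fin_cases i
  · have := n 0
    change |a 0 - b 0| ≤ _
    linarith
  · have := n 1
    change |a 1 - b 1| ≤ _
    linarith
  · have := n 2
    change |a 2 - b 2| ≤ _
    linarith
  · change |(1 / 2 + (cos φ * (a 3 - 1 / 2) - sin φ * a 4)) -
      (1 / 2 + (cos ψ * (b 3 - 1 / 2) - sin ψ * b 4))| ≤ _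
    have e : (1 / 2 + (cos φ * (a 3 - 1 / 2) - sin φ * a 4)) -
      (1 / 2 + (cos ψ * (b 3 - 1 / 2) - sin ψ * b 4)) =
      cos φ * ((a 3 - 1 / 2) - (b 3 - 1 / 2)) + -(sin φ * (a 4 - b 4)) +
      ((cos φ - cos ψ) * (b 3 - 1 / 2)) + -((sin φ - sin ψ) * b 4) := by ring
    rw [e]
    have q1 := p1 _ _ (abs_cos_le_one φ) n3
    have q2 := p1 _ _ (abs_sin_le_one φ) (n 4)
    have q3 := p2 _ _ hc hb3
    have q4 := p2 _ _ hs hb4
    refine (abs_add_le _ _).trans ?_
    refine le_trans (add_le_add_left (abs_add_le _ _) _) ?_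
    refine le_trans (add_le_add_left (add_le_add_left (abs_add_le _ _) _) _) ?_
    rw [abs_neg, abs_neg]
    linarith
  · change |(sin φ * (a 3 - 1 / 2) + cos φ * a 4) - (sin ψ * (b 3 - 1 / 2) + cos ψ * b 4)| ≤ _
    have e : (sin φ * (a 3 - 1 / 2) + cos φ * a 4) - (sin ψ * (b 3 - 1 / 2) + cos ψ * b 4) =
      sin φ * ((a 3 - 1 / 2) - (b 3 - 1 / 2)) + (cos φ * (a 4 - b 4)) +
      ((sin φ - sin ψ) * (b 3 - 1 / 2)) + ((cos φ - cos ψ) * b 4) := by ring
    rw [e]
    have q1 := p1 _ _ (abs_sin_le_one φ) n3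
    have q2 := p1 _ _ (abs_cos_le_one φ) (n 4)
    have q3 := p2 _ _ hs hb3
    have q4 := p2 _ _ hc hb4
    refine (abs_add_le _ _).trans ?_
    refine le_trans (add_le_add_left (abs_add_le _ _) _) ?_
    refine le_trans (add_le_add_left (add_le_add_left (abs_add_le _ _) _) _) ?_
    linarith

/-! ### The disc region in the torus -/

/-- The open disc region in the torus. -/
def inT : Set (Torus 5) := {m | uF (lift m) < 1 / 25}

theorem cov_mem_inT (z : Fin 5 → ℝ) : cov z ∈ inT ↔ uF z < 1 / 25 := by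
  change uF (lift (cov z)) < 1 / 25 ↔ _
  rw [uF_lift_cov]

theorem inT_mapsTo (t : ℝ) : MapsTo (tflow X2 t) inT inT := by
  intro m hm
  rw [← cov_lift m] at hm ⊢
  rw [good_X2.tflow_cov, cov_mem_inT]
  rw [cov_mem_inT] at hm
  exact X2_mem_disc hm t

/-- A lift in the standard disc. -/
theorem exists_lift_vE (z : Fin 5 → ℝ) (h : uF z < 1 / 25) :
    ∃ k : Fin 5 → ℤ, vE (tr k z) < 1 / 25 := by
  refine ⟨fun i => if i = 3 then -round (z 3 - 1 / 2) else if i = 4 then -round (z 4) else 0, ?_⟩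
  have e3 : tr (fun i => if i = 3 then -round (z 3 - 1 / 2) else if i = 4 then -round (z 4) else 0)
      z 3 - 1 / 2 = rd (z 3 - 1 / 2) := by
    simp only [tr, if_true]
    rw [rd]; push_cast; ring
  have e4 : tr (fun i => if i = 3 then -round (z 3 - 1 / 2) else if i = 4 then -round (z 4) else 0)
      z 4 = rd (z 4) := by
    change z 4 + ((-round (z 4) : ℤ) : ℝ) = rd (z 4)
    rw [rd]; push_cast; ring
  rw [vE, e3, e4]
  exact h

theorem vE_of_near {z z' : Fin 5 → ℝ} (h : vE z < 1 / 25) (h' : uF z' < 1 / 25)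
    (hd : ‖z' - z‖ ≤ 1 / 8) : vE z' < 1 / 25 := by
  have a1 : |z 3 - 1 / 2| ≤ 1 / 5 := by
    rw [vE] at h
    exact abs_le_of_sq_le_sq (by nlinarith [sq_nonneg (z 4)]) (by norm_num)
  have a2 : |z 4| ≤ 1 / 5 := by
    rw [vE] at h
    exact abs_le_of_sq_le_sq (by nlinarith [sq_nonneg (z 3 - 1 / 2)]) (by norm_num)
  have b1 : |z' 3 - z 3| ≤ 1 / 8 := (norm_le_pi_norm (z' - z) 3).trans hd
  have b2 : |z' 4 - z 4| ≤ 1 / 8 := (norm_le_pi_norm (z' - z) 4).trans hd
  have c1 : rd (z' 3 - 1 / 2) = z' 3 - 1 / 2 := by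
    apply rd_of_abs_lt
    rw [abs_le] at a1 b1
    rw [abs_lt]
    constructor <;> linarith [a1.1, a1.2, b1.1, b1.2]
  have c2 : rd (z' 4) = z' 4 := by
    apply rd_of_abs_lt
    rw [abs_le] at a2 b2
    rw [abs_lt]
    constructor <;> linarith [a2.1, a2.2, b2.1, b2.2]
  rw [uF, c1, c2] at h'
  exact h'

theorem entropy_in : coverEntropy (tflow X2 1) inT ≤ 0 := by
  apply entropy_zero_of_growth good_X2 _ (inT_mapsTo 1)
  intro δ hδ
  obtain ⟨C, hC, hg⟩ := WR_growth hδ
  obtain ⟨L, hL, hang⟩ := ang_lip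
  refine ⟨2 * C + 2 * π * L / δ, by positivity, 1 / 8, by norm_num, fun x hx y hy hxy n => ?_⟩
  have hux : uF (lift x) < 1 / 25 := hx
  obtain ⟨k0, hk0⟩ := exists_lift_vE (lift x) hux
  set z := tr k0 (lift x) with hz
  have hxz : x = cov z := by rw [hz, cov_tr, cov_lift]
  obtain ⟨k, hk⟩ := exists_lift_near z (lift y)
  rw [cov_lift, ← hxz] at hk
  set z' := tr k (lift y) with hz'
  have hyz : y = cov z' := by rw [hz', cov_tr, cov_lift]
  have hy' : uF z' < 1 / 25 := by rw [hyz] at hy; exact (cov_mem_inT z').1 hy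
  have hv' : vE z' < 1 / 25 := vE_of_near hk0 hy' (hk.trans hxy)
  have hn : (0 : ℝ) ≤ n := Nat.cast_nonneg n
  have e1 : tflow X2 n x = cov (Rot (2 * π * ang (vE z) * n) (flow WR n z)) := by
    rw [hxz, good_X2.tflow_cov, flow_X2_rot hk0]
  have e2 : tflow X2 n y = cov (Rot (2 * π * ang (vE z') * n) (flow WR n z')) := by
    rw [hyz, good_X2.tflow_cov, flow_X2_rot hv']
  rw [e1, e2]
  refine (dist_cov_le _ _).trans ((Rot_sub_le (discField_WR.mem hv' n) _ _).trans ?_)
  have h1 : ‖flow WR n z - flow WR n z'‖ ≤ C * exp (δ * n) * dist x y := by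
    rw [norm_sub_rev]
    refine (hg z z' hk0 hv' n hn).trans ?_
    exact mul_le_mul_of_nonneg_left hk (by positivity)
  have h2 : |2 * π * ang (vE z) * n - 2 * π * ang (vE z') * n| ≤
      2 * π * L / δ * exp (δ * n) * dist x y := by
    have e : 2 * π * ang (vE z) * n - 2 * π * ang (vE z') * n =
        2 * π * n * (ang (vE z) - ang (vE z')) := by ring
    rw [e, abs_mul, abs_of_nonneg (by positivity)]
    have h3 : |ang (vE z) - ang (vE z')| ≤ L * dist x y := by
      refine (hang _ _).trans (mul_le_mul_of_nonneg_left ?_ hL.le)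
      rw [abs_sub_comm]
      exact (vE_sub_le hk0 hv').trans hk
    have h4 : (n : ℝ) ≤ exp (δ * n) / δ := by
      rw [le_div_iff₀ hδ]
      have := add_one_le_exp (δ * n)
      linarith
    calc 2 * π * n * |ang (vE z) - ang (vE z')|
        ≤ 2 * π * (exp (δ * n) / δ) * (L * dist x y) := by
          apply mul_le_mul (mul_le_mul_of_nonneg_left h4 (by positivity)) h3 (abs_nonneg _)
          positivity
      _ = 2 * π * L / δ * exp (δ * n) * dist x y := by ring
  calc _ ≤ 2 * (C * exp (δ * n) * dist x y) + 2 * π * L / δ * exp (δ * n) * dist x y := by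
        linarith
    _ = (2 * C + 2 * π * L / δ) * exp (δ * n) * dist x y := by ring

theorem entropy_X2_zero : coverEntropy (tflow X2 1) univ = 0 := by
  apply le_antisymm
  · have h : (univ : Set (Torus 5)) = outT ∪ inT := by
      ext m
      simp only [mem_univ, true_iff]
      rcases le_or_gt (1 / 25) (uF (lift m)) with h | h
      · exact Or.inl h
      · exact Or.inr h
    rw [h, coverEntropy_union]
    exact max_le entropy_out entropy_in
  · exact coverEntropy_nonneg _ univ_nonempty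

end Pool.Agent.MP_1a349f_an
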