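import Mathlib
import Pool.Agent.MP_1a349f_an.EntropyZero

set_option autoImplicit false

/-!
# Closed orbits of the two flows
-/

namespace Pool.Agent.MP_1a349f_an

open Set Filter Topology Real MeasureTheory Dynamics
open scoped ENNReal NNReal ContDiff

/-! ### General notions -/

/-- The orbit of a point. -/
def orb {M : Type*} (φ : ℝ → M → M) (x : M) : Set M := range fun t => φ t x

/-- Strong isolation: a neighbourhood of the orbit contains no further periodic point. -/
def StrongIso {M : Type*} [TopologicalSpace M] (φ : ℝ → M → M) (O : Set M) : Prop :=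
  ∃ U : Set M, IsOpen U ∧ O ⊆ U ∧ ∀ y ∈ U, (∃ s, 0 < s ∧ φ s y = y) → y ∈ O

/-- Weak isolation: a neighbourhood of the orbit contains no further orbit which is closed with
period at most `t`. -/
def WeakIso {M : Type*} [TopologicalSpace M] (φ : ℝ → M → M) (t : ℝ) (O : Set M) : Prop :=
  ∃ U : Set M, IsOpen U ∧ O ⊆ U ∧
    ∀ y, orb φ y ⊆ U → (∃ s, 0 < s ∧ s ≤ t ∧ φ s y = y) → y ∈ O

theorem StrongIso.weakIso {M : Type*} [TopologicalSpace M] {φ : ℝ → M → M} {O : Set M}
    (h : StrongIso φ O) (h0 : ∀ y, φ 0 y = y) (t : ℝ) : WeakIso φ t O := by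
  obtain ⟨U, hU, hO, h⟩ := h
  refine ⟨U, hU, hO, fun y hy hs => h y (hy ⟨0, h0 y⟩) ?_⟩
  obtain ⟨s, hs0, -, hs1⟩ := hs
  exact ⟨s, hs0, hs1⟩

/-! ### Non-isolated orbits -/

/-- The coordinate direction. -/
noncomputable def dir (i : Fin 5) (ε : ℝ) (z : Fin 5 → ℝ) : Fin 5 → ℝ :=
  fun j => if j = i then z j + ε else z j

theorem dir_self (i : Fin 5) (ε : ℝ) (z : Fin 5 → ℝ) : dir i ε z i = z i + ε := by
  simp [dir]

theorem dir_ne {i j : Fin 5} (h : j ≠ i) (ε : ℝ) (z : Fin 5 → ℝ) : dir i ε z j = z j := by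
  simp [dir, h]

theorem dir_tr (i : Fin 5) (ε : ℝ) (k : Fin 5 → ℤ) (z : Fin 5 → ℝ) :
    dir i ε (tr k z) = tr k (dir i ε z) := by
  funext j
  by_cases h : j = i
  · subst h
    rw [dir_self]
    simp only [tr, dir_self]
    ring
  · rw [dir_ne h]
    simp only [tr, dir_ne h]

theorem norm_dir_sub (i : Fin 5) {ε : ℝ} (hε : 0 ≤ ε) (z : Fin 5 → ℝ) : ‖dir i ε z - z‖ ≤ ε := by
  rw [pi_norm_le_iff_of_nonneg hε]
  intro j
  by_cases h : j = i
  · subst h
    simp only [Pi.sub_apply, dir_self, add_sub_cancel_left, Real.norm_eq_abs, abs_of_nonneg hε]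
    exact le_rfl
  · simp only [Pi.sub_apply, dir_ne h, sub_self, norm_zero]
    exact hε

theorem continuous_tflow {V : (Fin 5 → ℝ) → (Fin 5 → ℝ)} (hV : Good V) (m : Torus 5) :
    Continuous fun t => tflow V t m :=
  continuous_cov.comp (hV.continuous_flow (lift m))

/-- Orbits that can be translated are not isolated. -/
theorem not_weakIso {X : (Fin 5 → ℝ) → (Fin 5 → ℝ)} (hX : Good X) (z : Fin 5 → ℝ) (i : Fin 5)
    (h1 : ∀ᶠ ε in 𝓝[>] (0 : ℝ), ∀ t, flow X t (dir i ε z) = dir i ε (flow X t z))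
    (h2 : ∀ t, flow X t z i = z i) {s T : ℝ} (hs : 0 < s) (hsT : s ≤ T)
    (hper : tflow X s (cov z) = cov z) : ¬ WeakIso (tflow X) T (orb (tflow X) (cov z)) := by
  rintro ⟨U, hU, hO, hiso⟩
  have hP : Function.Periodic (fun t => tflow X t (cov z)) s := by
    intro t
    simp only
    rw [hX.tflow_add, hper]
  have hcomp : IsCompact (orb (tflow X) (cov z)) := by
    have h3 := hP.image_Icc hs 0
    rw [orb, ← h3]
    exact isCompact_Icc.image (continuous_tflow hX _)
  obtain ⟨δ, hδ, hthick⟩ := hcomp.exists_thickening_subset_open hU hO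
  have hsmall : ∀ᶠ ε in 𝓝[>] (0 : ℝ), ε ∈ Ioo (0 : ℝ) (min δ 1) :=
    Ioo_mem_nhdsGT (lt_min hδ one_pos)
  obtain ⟨ε, hε1, hε2⟩ := (h1.and hsmall).exists
  have hε0 : 0 < ε := hε2.1
  have hεδ : ε < δ := hε2.2.trans_le (min_le_left _ _)
  have hε1' : ε < 1 := hε2.2.trans_le (min_le_right _ _)
  have hsub : orb (tflow X) (cov (dir i ε z)) ⊆ U := by
    rintro _ ⟨t, rfl⟩
    apply hthick
    rw [Metric.mem_thickening_iff]
    refine ⟨tflow X t (cov z), ⟨t, rfl⟩, ?_⟩
    simp only
    rw [hX.tflow_cov, hX.tflow_cov, hε1 t]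
    exact ((dist_cov_le _ _).trans (norm_dir_sub i hε0.le _)).trans_lt hεδ
  have hper' : tflow X s (cov (dir i ε z)) = cov (dir i ε z) := by
    rw [hX.tflow_cov, hε1 s]
    rw [hX.tflow_cov] at hper
    obtain ⟨k, hk⟩ := cov_eq_cov_iff.1 hper.symm
    rw [hk, dir_tr, cov_tr]
  obtain ⟨t, ht⟩ := hiso _ hsub ⟨s, hs, hsT, hper'⟩
  simp only at ht
  rw [hX.tflow_cov] at ht
  obtain ⟨k, hk⟩ := cov_eq_cov_iff.1 ht
  have h3 := congrFun hk i
  rw [dir_self] at h3
  simp only [tr] at h3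
  rw [h2] at h3
  have h4 : ε = k i := by linarith
  have h5 : (0 : ℝ) < k i := by rw [← h4]; exact hε0
  have h6 : (k i : ℝ) < 1 := by rw [← h4]; exact hε1'
  have h7 : (0 : ℤ) < k i := by exact_mod_cast h5
  have h8 : k i < (1 : ℤ) := by exact_mod_cast h6
  omega

/-! ### Outside the disc -/

/-- The abstract form of both fields outside the disc. -/
structure OutField (X : (Fin 5 → ℝ) → (Fin 5 → ℝ)) (p : (Fin 5 → ℝ) → ℝ) : Prop where
  good : Good X
  eq : ∀ z, 1 / 25 ≤ uF z → X z = (aB z * p z) • V0 z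
  one : ∀ z, X z 1 = √2 * X z 0
  inv : ∀ z t, 1 / 25 ≤ uF z → 1 / 25 ≤ uF (flow X t z)
  van : ∀ z, p z = 0 → fB z = 0
  van' : ∀ z, fB z = 0 → p z = 0
  nonneg : ∀ z, 0 ≤ p z

theorem outField_X1 : OutField X1 fB where
  good := good_X1
  eq z h := X1_outside h
  one z := by
    have h0 : X1 z 0 = aB z * fB z * 1 + 0 := rfl
    have h1 : X1 z 1 = aB z * fB z * √2 + 0 := rfl
    rw [h0, h1]; ring
  inv z t h := not_lt.1 (X1_notMem_disc (not_lt.2 h) t)
  van z h := h
  van' z h := h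
  nonneg := fB_nonneg

theorem outField_X2 : OutField X2 fun z => fB z ^ 2 where
  good := good_X2
  eq z h := X2_outside h
  one z := by
    have h0 : X2 z 0 = aB z * fB z ^ 2 * 1 + 0 := rfl
    have h1 : X2 z 1 = aB z * fB z ^ 2 * √2 + 0 := rfl
    rw [h0, h1]; ring
  inv z t h := not_lt.1 (X2_notMem_disc (not_lt.2 h) t)
  van z h := by simpa using h
  van' z h := by rw [h]; ring
  nonneg z := sq_nonneg _

theorem OutField.zero_of_periodic {X : (Fin 5 → ℝ) → (Fin 5 → ℝ)} {p : (Fin 5 → ℝ) → ℝ}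
    (hX : OutField X p) {z : Fin 5 → ℝ} (hz : 1 / 25 ≤ uF z) {s : ℝ} (hs : 0 < s)
    (hper : tflow X s (cov z) = cov z) : X z = 0 := by
  rw [hX.good.tflow_cov] at hper
  obtain ⟨k, hk⟩ := cov_eq_cov_iff.1 hper.symm
  have hc := hX.good.coord 1 0 (√2) hX.one z s
  rw [hk] at hc
  simp only [tr, add_sub_cancel_left] at hc
  have hk0 : k 0 = 0 := by
    by_contra hne
    have hne' : (k 0 : ℝ) ≠ 0 := by exact_mod_cast hne
    have : √2 = ((k 1 : ℚ) / (k 0 : ℚ) : ℚ) := by
      push_cast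
      rw [eq_div_iff hne']
      linarith
    exact sqrt2_irrational ⟨_, this.symm⟩
  have hz0 : flow X s z 0 = z 0 := by
    rw [hk]
    simp only [tr, hk0]
    push_cast; ring
  have hd : ∀ t, HasDerivAt (fun t => flow X t z 0) (X (flow X t z) 0) t := fun t =>
    (hasDerivAt_pi.1 (hX.good.hasDerivAt_flow z t)) 0
  obtain ⟨c, -, hc2⟩ := exists_hasDerivAt_eq_zero (f := fun t => flow X t z 0)
    (f' := fun t => X (flow X t z) 0) hs
    (fun t _ => (hd t).continuousAt.continuousWithinAt)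
    (by simp only [hX.good.flow_zero]; exact hz0.symm) (fun t _ => hd t)
  have h1 := hX.eq _ (hX.inv z c hz)
  have h2 : X (flow X c z) 0 = aB (flow X c z) * p (flow X c z) := by
    rw [h1]
    change aB (flow X c z) * p (flow X c z) * 1 = _
    rw [mul_one]
  have h3 : X (flow X c z) = 0 := by
    rw [h1, ← h2, hc2, zero_smul]
  have h4 := hX.good.flow_of_zero_at h3 c
  rwa [h4] at h3

theorem OutField.not_weakIso {X : (Fin 5 → ℝ) → (Fin 5 → ℝ)} {p : (Fin 5 → ℝ) → ℝ}
    (hX : OutField X p) {z : Fin 5 → ℝ} (hz : 1 / 25 ≤ uF z) {s T : ℝ} (hs : 0 < s) (hsT : s ≤ T)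
    (hper : tflow X s (cov z) = cov z) :
    ¬ WeakIso (tflow X) T (orb (tflow X) (cov z)) := by
  have hX0 := hX.zero_of_periodic hz hs hper
  have hap : aB z * p z = 0 := by
    have h1 := hX.eq z hz
    rw [hX0] at h1
    have h2 := congrFun h1 0
    have h3 : (aB z * p z) * 1 = 0 := h2.symm
    linarith
  by_cases ha : aB z = 0
  · apply Pool.Agent.MP_1a349f_an.not_weakIso hX.good z 0 _ _ hs hsT hper
    · refine Eventually.of_forall fun ε t => ?_
      have h1 : X (dir 0 ε z) = 0 := by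
        have hu : uF (dir 0 ε z) = uF z := by
          simp only [uF, dir_ne (show (3 : Fin 5) ≠ 0 by decide),
            dir_ne (show (4 : Fin 5) ≠ 0 by decide)]
        have hb : aB (dir 0 ε z) = aB z := by
          simp only [aB, dir_ne (show (3 : Fin 5) ≠ 0 by decide)]
        rw [hX.eq _ (by rw [hu]; exact hz), hb, ha, zero_mul, zero_smul]
      rw [hX.good.flow_of_zero h1, hX.good.flow_of_zero hX0]
    · intro t
      rw [hX.good.flow_of_zero hX0]
  · have hp : p z = 0 := (mul_eq_zero.1 hap).resolve_left ha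
    have hf : fB z = 0 := hX.van z hp
    have hu : 1 / 25 < uF z := uF_gt_of_aB_ne_zero ha
    apply Pool.Agent.MP_1a349f_an.not_weakIso hX.good z 4 _ _ hs hsT hper
    · have hc : ContinuousAt (fun ε : ℝ => uF (dir 4 ε z)) 0 := by
        apply (continuous_uF.comp _).continuousAt
        unfold dir
        refine continuous_pi fun j => ?_
        by_cases hj : j = 4
        · simp only [hj, if_true]; fun_prop
        · simp only [hj, if_false]; fun_prop
      have h0 : uF (dir 4 0 z) = uF z := by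
        congr 1
        funext j
        simp only [dir, add_zero, ite_self]
      have hev : ∀ᶠ ε in 𝓝 (0 : ℝ), 1 / 25 < uF (dir 4 ε z) :=
        hc.eventually_const_lt (by
          change 1 / 25 < uF (dir 4 0 z)
          rw [h0]; exact hu)
      filter_upwards [nhdsWithin_le_nhds hev] with ε hε t
      have h1 : X (dir 4 ε z) = 0 := by
        have hb : fB (dir 4 ε z) = 0 := by
          rw [← hf]
          simp only [fB, dir_ne (show (0 : Fin 5) ≠ 4 by decide),
            dir_ne (show (1 : Fin 5) ≠ 4 by decide), dir_ne (show (2 : Fin 5) ≠ 4 by decide)]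
        rw [hX.eq _ hε.le, hX.van' _ hb, mul_zero, zero_smul]
      rw [hX.good.flow_of_zero h1, hX.good.flow_of_zero hX0]
    · intro t
      rw [hX.good.flow_of_zero hX0]

end Pool.Agent.MP_1a349f_an
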