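import Mathlib
import Pool.Agent.MP_1a349f_an.Closed

set_option autoImplicit false

/-!
# Closed orbits inside the disc
-/

namespace Pool.Agent.MP_1a349f_an

open Set Filter Topology Real MeasureTheory Dynamics
open scoped ENNReal NNReal ContDiff

variable {X : (Fin 5 → ℝ) → (Fin 5 → ℝ)} {g : ℝ → ℝ} {c : ℝ}

theorem Rot_zero (z : Fin 5 → ℝ) : Rot 0 z = z := by
  rw [Rot, cos_zero, sin_zero]
  funext i
  fin_cases i
  · rfl
  · rfl
  · rfl
  · change 1 / 2 + (1 * (z 3 - 1 / 2) - 0 * z 4) = z 3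
    ring
  · change 0 * (z 3 - 1 / 2) + 1 * z 4 = z 4
    ring

/-- Where the drift vanishes the motion is a uniform rotation. -/
theorem DiscField.flow_rot (hX : DiscField X g c) {z : Fin 5 → ℝ} (h : vE z < 1 / 25)
    (hdr : Pool.Agent.MP_1a349f_an.drift z (vE z) = 0) (t : ℝ) :
    flow X t z = Rot (g (vE z) * (c * ang (vE z)) * t) z := by
  set θ := g (vE z) * (c * ang (vE z)) with hθ
  have hγ := hX.good.eq_flow (γ := fun t => Rot (θ * t) z) (fun s => by
    have hv : vE (Rot (θ * s) z) = vE z := vE_Rot _ _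
    have hd' : Pool.Agent.MP_1a349f_an.drift (Rot (θ * s) z) (vE z) = 0 := by
      rw [← hdr]; rfl
    rw [hX.eq _ (by rw [hv]; exact h), DF_explicit _ _ (by rw [hv]; linarith), hv, hd']
    have cs := (hasDerivAt_theta θ s).cos
    have sn := (hasDerivAt_theta θ s).sin
    have q3 := ((cs.mul_const (z 3 - 1 / 2)).fun_sub (sn.mul_const (z 4))).const_add (1 / 2)
    have q4 := (sn.mul_const (z 3 - 1 / 2)).fun_add (cs.mul_const (z 4))
    have q3' : HasDerivAt (fun x => 1 / 2 + (cos (θ * x) * (z 3 - 1 / 2) - sin (θ * x) * z 4))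
        (g (vE z) * (0 * (Rot (θ * s) z 3 - 1 / 2) - c * ang (vE z) * Rot (θ * s) z 4)) s := by
      refine q3.congr_deriv ?_
      rw [Rot_three, Rot_four, hθ]
      ring
    have q4' : HasDerivAt (fun x => sin (θ * x) * (z 3 - 1 / 2) + cos (θ * x) * z 4)
        (g (vE z) * (0 * Rot (θ * s) z 4 + c * ang (vE z) * (Rot (θ * s) z 3 - 1 / 2))) s := by
      refine q4.congr_deriv ?_
      rw [Rot_three, Rot_four, hθ]
      ring
    rw [hasDerivAt_pi]
    intro i
    fin_cases i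
    · exact hasDerivAt_const s (z 0)
    · exact hasDerivAt_const s (z 1)
    · exact hasDerivAt_const s (z 2)
    · exact q3'
    · exact q4') t
  rw [mul_zero, Rot_zero] at hγ
  exact hγ.symm

theorem tr_small {z : Fin 5 → ℝ} {k : Fin 5 → ℤ} (h : vE z < 1 / 25)
    (h' : vE (tr k z) < 1 / 25) : k 3 = 0 ∧ k 4 = 0 := by
  rw [vE] at h h'
  have a1 : |z 3 - 1 / 2| < 1 / 5 :=
    abs_lt_of_sq_lt_sq (by nlinarith [sq_nonneg (z 4)]) (by norm_num)
  have a2 : |z 4| < 1 / 5 :=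
    abs_lt_of_sq_lt_sq (by nlinarith [sq_nonneg (z 3 - 1 / 2)]) (by norm_num)
  have a3 : |tr k z 3 - 1 / 2| < 1 / 5 :=
    abs_lt_of_sq_lt_sq (by nlinarith [sq_nonneg (tr k z 4)]) (by norm_num)
  have a4 : |tr k z 4| < 1 / 5 :=
    abs_lt_of_sq_lt_sq (by nlinarith [sq_nonneg (tr k z 3 - 1 / 2)]) (by norm_num)
  simp only [tr] at a3 a4
  rw [abs_lt] at a1 a2 a3 a4
  constructor
  · have h1 : (k 3 : ℝ) < 1 := by linarith [a1.1, a3.2]
    have h2 : (-1 : ℝ) < k 3 := by linarith [a1.2, a3.1]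
    have h3 : k 3 < 1 := by exact_mod_cast h1
    have h4 : -1 < k 3 := by exact_mod_cast h2
    omega
  · have h1 : (k 4 : ℝ) < 1 := by linarith [a2.1, a4.2]
    have h2 : (-1 : ℝ) < k 4 := by linarith [a2.2, a4.1]
    have h3 : k 4 < 1 := by exact_mod_cast h1
    have h4 : -1 < k 4 := by exact_mod_cast h2
    omega

/-- On closed orbits the drift vanishes. -/
theorem DiscField.drift_zero (hX : DiscField X g c) (hg : ∀ v, 0 ≤ v → 0 ≤ g v)
    (hg' : ∀ v, 0 < v → 0 < g v) {z : Fin 5 → ℝ} (h : vE z < 1 / 25) {s : ℝ} (hs : 0 < s)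
    (hper : tflow X s (cov z) = cov z) :
    vE z = 0 ∨ Pool.Agent.MP_1a349f_an.drift z (vE z) = 0 := by
  rw [hX.good.tflow_cov] at hper
  obtain ⟨k, hk⟩ := cov_eq_cov_iff.1 hper.symm
  have hmem := hX.mem h s
  rw [hk] at hmem
  obtain ⟨k3, k4⟩ := tr_small h hmem
  let v : ℝ → ℝ := fun t => vE (flow X t z)
  have hv0 : v 0 = vE z := by simp only [v, hX.good.flow_zero]
  have hvs : v s = vE z := by
    simp only [v]
    rw [hk, vE, vE]
    simp only [tr, k3, k4]
    push_cast; ring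
  have hd : ∀ t, HasDerivAt v (2 * g (v t) * Pool.Agent.MP_1a349f_an.drift z (v t) * v t) t :=
    fun t => hX.hasDerivAt_vE h t
  have hvn : ∀ t, 0 ≤ v t := fun t => vE_nonneg _
  have hmono : Monotone v := monotone_of_deriv_nonneg (fun t => (hd t).differentiableAt)
    (fun t => by
      rw [(hd t).deriv]
      have h1 := hg _ (hvn t)
      have h2 := drift_nonneg z (v t)
      have h3 := hvn t
      positivity)
  obtain ⟨r, hr, hr2⟩ := exists_hasDerivAt_eq_zero (f := v)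
    (f' := fun t => 2 * g (v t) * Pool.Agent.MP_1a349f_an.drift z (v t) * v t) hs
    (fun t _ => (hd t).continuousAt.continuousWithinAt)
    (by rw [hv0, hvs]) (fun t _ => hd t)
  have hvr : v r = vE z := by
    apply le_antisymm
    · rw [← hvs]; exact hmono hr.2.le
    · rw [← hv0]; exact hmono hr.1.le
  rw [hvr] at hr2
  by_cases h0 : vE z = 0
  · exact Or.inl h0
  · right
    have hpos : 0 < vE z := lt_of_le_of_ne (vE_nonneg z) (Ne.symm h0)
    have hgp := hg' _ hpos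
    rcases mul_eq_zero.1 hr2 with h1 | h1
    · rcases mul_eq_zero.1 h1 with h2 | h2
      · linarith
      · exact h2
    · exact absurd h1 h0

theorem Rot_dir (φ ε : ℝ) (z : Fin 5 → ℝ) : Rot φ (dir 0 ε z) = dir 0 ε (Rot φ z) := by
  funext i
  fin_cases i
  · rfl
  · rfl
  · rfl
  · rfl
  · rfl

theorem vE_dir (ε : ℝ) (z : Fin 5 → ℝ) : vE (dir 0 ε z) = vE z := rfl

/-- Circles outside the drift region, and the centre, are not isolated. -/
theorem DiscField.not_weakIso (hX : DiscField X g c) {z : Fin 5 → ℝ} (h : vE z < 1 / 25)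
    (hv : vE z ∉ Ioo (0 : ℝ) (1 / 100)) {s T : ℝ} (hs : 0 < s) (hsT : s ≤ T)
    (hper : tflow X s (cov z) = cov z) :
    ¬ WeakIso (tflow X) T (orb (tflow X) (cov z)) := by
  apply Pool.Agent.MP_1a349f_an.not_weakIso hX.good z 0 _ _ hs hsT hper
  · refine Eventually.of_forall fun ε t => ?_
    rw [hX.flow_rot h (drift_outside _ hv), hX.flow_rot (z := dir 0 ε z) h (drift_outside _ hv),
      vE_dir, Rot_dir]
  · intro t
    exact hX.base h t 0 (Or.inl rfl)

/-! ### The isolated closed orbits -/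

/-- The squared distance to the centre of the disc on the torus. -/
noncomputable def uT (m : Torus 5) : ℝ :=
  ‖m 3 - ((1 / 2 : ℝ) : UnitAddCircle)‖ ^ 2 + ‖m 4‖ ^ 2

theorem continuous_uT : Continuous uT := by
  unfold uT
  fun_prop

theorem uT_cov (z : Fin 5 → ℝ) : uT (cov z) = uF z := by
  change ‖((z 3 : ℝ) : UnitAddCircle) - ((1 / 2 : ℝ) : UnitAddCircle)‖ ^ 2 +
    ‖((z 4 : ℝ) : UnitAddCircle)‖ ^ 2 = _
  rw [← AddCircle.coe_sub, ← abs_rd_eq_norm, ← abs_rd_eq_norm, sq_abs, sq_abs]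
  rfl

/-- The `k`-th special circle. -/
def G (k : ℕ) : Set (Torus 5) :=
  {m | (∀ i : Fin 5, i = 0 ∨ i = 1 ∨ i = 2 → m i = ((1 / 2 : ℝ) : UnitAddCircle)) ∧
    uT m = 1 / (100 * k)}

theorem cos_pi_eq_zero_iff {x : ℝ} : cos (π * x) = 0 ↔
    ((x : ℝ) : UnitAddCircle) = ((1 / 2 : ℝ) : UnitAddCircle) := by
  rw [cos_eq_zero_iff]
  constructor
  · rintro ⟨k, hk⟩
    have h1 : x = 1 / 2 + k := by
      have h2 : π * x = π * (1 / 2 + k) := by rw [hk]; ring
      exact mul_left_cancel₀ pi_pos.ne' h2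
    rw [h1, AddCircle.coe_add]
    have h3 : ((k : ℝ) : UnitAddCircle) = 0 := by
      rw [AddCircle.coe_eq_zero_iff]
      exact ⟨k, by simp⟩
    rw [h3, add_zero]
  · intro h
    have h1 : ((x - 1 / 2 : ℝ) : UnitAddCircle) = 0 := by
      rw [AddCircle.coe_sub, h, sub_self]
    rw [AddCircle.coe_eq_zero_iff] at h1
    obtain ⟨n, hn⟩ := h1
    refine ⟨n, ?_⟩
    have h4 : (n : ℝ) = x - 1 / 2 := by simpa using hn
    have h5 : x = n + 1 / 2 := by linarith
    rw [h5]; ring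

/-- Vanishing of the drift in the drift region. -/
theorem drift_zero_iff {z : Fin 5 → ℝ} {v : ℝ} (hv : v ∈ Ioo (0 : ℝ) (1 / 100)) :
    drift z v = 0 ↔ (∃ k : ℕ, 2 ≤ k ∧ v = 1 / (100 * k)) ∧
      ∀ i : Fin 5, i = 0 ∨ i = 1 ∨ i = 2 → cos (π * z i) = 0 := by
  have hE : 0 < E0 v ^ 2 := by
    have : E0 v ≠ 0 := fun h => (E0_eq_zero_iff.1 h) hv
    positivity
  constructor
  · intro h
    rw [drift] at h
    have hS : S0 v ^ 2 = 0 := by
      have := sq_nonneg (S0 v)
      have : 0 ≤ E0 v ^ 2 * (cos (π * z 0) ^ 2 + cos (π * z 1) ^ 2 + cos (π * z 2) ^ 2) := by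
        positivity
      linarith
    have hC : cos (π * z 0) ^ 2 + cos (π * z 1) ^ 2 + cos (π * z 2) ^ 2 = 0 := by
      rw [hS, zero_add] at h
      exact (mul_eq_zero.1 h).resolve_left hE.ne'
    have d0 := sq_nonneg (cos (π * z 0))
    have d1 := sq_nonneg (cos (π * z 1))
    have d2 := sq_nonneg (cos (π * z 2))
    refine ⟨?_, ?_⟩
    · obtain ⟨k, hk⟩ := (S0_eq_zero_iff hv).1 (by simpa using hS)
      have hv0 := hv.1
      have h1 : 1 < (k : ℝ) := by
        rw [← hk, one_lt_inv₀ (by linarith)]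
        linarith [hv.2]
      have h2 : (1 : ℤ) < k := by exact_mod_cast h1
      refine ⟨k.toNat, by omega, ?_⟩
      have h3 : ((k.toNat : ℕ) : ℝ) = k := by
        have : ((k.toNat : ℤ)) = k := Int.toNat_of_nonneg (by omega)
        exact_mod_cast this
      rw [h3, ← hk]
      field_simp
    · intro i hi
      rcases hi with rfl | rfl | rfl
      · nlinarith
      · nlinarith
      · nlinarith
  · rintro ⟨⟨k, hk2, hk⟩, hc⟩
    have hk0 : (0 : ℝ) < k := by
      have : 0 < k := by omega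
      exact_mod_cast this
    rw [drift, hc 0 (Or.inl rfl), hc 1 (Or.inr (Or.inl rfl)), hc 2 (Or.inr (Or.inr rfl)),
      (S0_eq_zero_iff hv).2 ⟨k, by rw [hk]; push_cast; field_simp⟩]
    ring

end Pool.Agent.MP_1a349f_an
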