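import Mathlib
import Pool.Agent.MP_1a349f_an.DiscOrbits

set_option autoImplicit false

/-!
# The isolated closed orbits of the two flows, and their periods
-/

namespace Pool.Agent.MP_1a349f_an

open Set Filter Topology Real MeasureTheory Dynamics
open scoped ENNReal NNReal ContDiff

theorem G_lift {k : ℕ} (hk : 2 ≤ k) {m : Torus 5} (hm : m ∈ G k) :
    ∃ z, cov z = m ∧ vE z < 1 / 25 ∧ vE z = 1 / (100 * k) ∧ vE z ∈ Ioo (0 : ℝ) (1 / 100) ∧
      drift z (vE z) = 0 := by
  have hk2 : (2 : ℝ) ≤ k := by exact_mod_cast hk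
  have hu : uF (lift m) = 1 / (100 * k) := by
    rw [← uT_cov, cov_lift]; exact hm.2
  have h1 : 1 / (100 * (k : ℝ)) < 1 / 100 := by
    apply one_div_lt_one_div_of_lt <;> linarith
  have h0 : (0 : ℝ) < 1 / (100 * k) := by positivity
  obtain ⟨l, hl⟩ := exists_lift_vE (lift m) (by rw [hu]; linarith)
  have hcov : cov (tr l (lift m)) = m := by rw [cov_tr, cov_lift]
  have hv : vE (tr l (lift m)) = 1 / (100 * k) := by
    rw [← uF_eq_vE (by linarith), uF_tr, hu]
  have hI : vE (tr l (lift m)) ∈ Ioo (0 : ℝ) (1 / 100) := by rw [hv]; exact ⟨h0, h1⟩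
  refine ⟨tr l (lift m), hcov, hl, hv, hI, ?_⟩
  rw [drift_zero_iff hI]
  refine ⟨⟨k, hk, hv⟩, fun i hi => ?_⟩
  rw [cos_pi_eq_zero_iff]
  have := hm.1 i hi
  rw [← hcov] at this
  exact this

/-- Both fields share the following properties. -/
structure Both (X : (Fin 5 → ℝ) → (Fin 5 → ℝ)) (p : (Fin 5 → ℝ) → ℝ) (g : ℝ → ℝ) (c : ℝ) :
    Prop where
  out : OutField X p
  disc : DiscField X g c
  nonneg : ∀ v, 0 ≤ v → 0 ≤ g v
  pos : ∀ v, 0 < v → 0 < g v
  cpos : 0 < c

theorem both_X1 : Both X1 fB (fun v => 100 * v) (2 * π) where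
  out := outField_X1
  disc := discField_X1
  nonneg v hv := by positivity
  pos v hv := by positivity
  cpos := by positivity

theorem both_X2 : Both X2 (fun z => fB z ^ 2) (fun _ => 1) (2 * π) where
  out := outField_X2
  disc := discField_X2
  nonneg v hv := zero_le_one
  pos v hv := one_pos
  cpos := by positivity

variable {X : (Fin 5 → ℝ) → (Fin 5 → ℝ)} {p : (Fin 5 → ℝ) → ℝ} {g : ℝ → ℝ} {c : ℝ}

/-- The angular speed on the `k`-th circle. -/
noncomputable def spd (g : ℝ → ℝ) (c : ℝ) (k : ℕ) : ℝ := g (1 / (100 * k)) * c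

theorem Both.spd_pos (hX : Both X p g c) {k : ℕ} (hk : 2 ≤ k) : 0 < spd g c k := by
  have hk0 : (0 : ℝ) < k := by
    have : 0 < k := by omega
    exact_mod_cast this
  exact mul_pos (hX.pos _ (by positivity)) hX.cpos

theorem Both.flow_G (hX : Both X p g c) {k : ℕ} {z : Fin 5 → ℝ} (h : vE z < 1 / 25)
    (hv : vE z = 1 / (100 * k)) (hI : vE z ∈ Ioo (0 : ℝ) (1 / 100)) (hd : drift z (vE z) = 0)
    (t : ℝ) : flow X t z = Rot (spd g c k * t) z := by
  rw [hX.disc.flow_rot h hd t, ang_eq_one hI.2.le, mul_one, spd, ← hv]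

theorem rot_transitive {a b a' b' : ℝ} (h : a ^ 2 + b ^ 2 = a' ^ 2 + b' ^ 2)
    (hpos : 0 < a ^ 2 + b ^ 2) : ∃ θ : ℝ, a' = cos θ * a - sin θ * b ∧ b' = sin θ * a + cos θ * b := by
  set w : ℂ := ⟨a, b⟩ with hw
  set w' : ℂ := ⟨a', b'⟩ with hw'
  have hn : Complex.normSq w = a ^ 2 + b ^ 2 := by rw [Complex.normSq_mk]; ring
  have hn' : Complex.normSq w' = a' ^ 2 + b' ^ 2 := by rw [Complex.normSq_mk]; ring
  have hw0 : w ≠ 0 := by
    intro h0
    rw [h0, Complex.normSq_zero] at hn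
    linarith
  have h1 : ‖w' / w‖ = 1 := by
    rw [norm_div, Complex.norm_def, Complex.norm_def, hn, hn', ← h]
    exact div_self (sqrt_pos.2 hpos).ne'
  obtain ⟨θ, hθ⟩ := (Complex.norm_eq_one_iff _).1 h1
  refine ⟨θ, ?_⟩
  have h2 : w' = Complex.exp (θ * Complex.I) * w := by
    rw [hθ, div_mul_cancel₀ _ hw0]
  have h3 : Complex.exp (θ * Complex.I) = ⟨cos θ, sin θ⟩ := by
    rw [Complex.exp_mul_I]
    apply Complex.ext
    · simp [Complex.cos_ofReal_re]
    · simp [Complex.sin_ofReal_re]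
  rw [h3] at h2
  have hre := congrArg Complex.re h2
  have him := congrArg Complex.im h2
  rw [Complex.mul_re] at hre
  rw [Complex.mul_im] at him
  constructor
  · exact hre
  · have : b' = cos θ * b + sin θ * a := him
    rw [this]; ring

theorem Both.orb_G (hX : Both X p g c) {k : ℕ} (hk : 2 ≤ k) {m : Torus 5} (hm : m ∈ G k) :
    orb (tflow X) m = G k := by
  obtain ⟨z, hz, h25, hv, hI, hd⟩ := G_lift hk hm
  apply Subset.antisymm
  · rintro _ ⟨t, rfl⟩
    simp only
    rw [← hz, hX.disc.good.tflow_cov, hX.flow_G h25 hv hI hd]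
    refine ⟨fun i hi => ?_, ?_⟩
    · have := hm.1 i hi
      rw [← hz] at this
      rcases hi with rfl | rfl | rfl
      · exact this
      · exact this
      · exact this
    · rw [uT_cov, uF_eq_vE (by rw [vE_Rot]; linarith), vE_Rot, hv]
  · intro m' hm'
    obtain ⟨z', hz', h25', hv', hI', hd'⟩ := G_lift hk hm'
    have hsp := hX.spd_pos hk
    obtain ⟨θ, h3, h4⟩ := rot_transitive (a := z 3 - 1 / 2) (b := z 4) (a' := z' 3 - 1 / 2)
      (b' := z' 4) (by change vE z = vE z'; rw [hv, hv']) hI.1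
    refine ⟨θ / spd g c k, ?_⟩
    simp only
    rw [← hz, hX.disc.good.tflow_cov, hX.flow_G h25 hv hI hd, mul_div_cancel₀ _ hsp.ne', ← hz']
    have hb : ∀ i : Fin 5, i = 0 ∨ i = 1 ∨ i = 2 →
        ((z i : ℝ) : UnitAddCircle) = ((z' i : ℝ) : UnitAddCircle) := by
      intro i hi
      have e1 := hm.1 i hi
      have e2 := hm'.1 i hi
      rw [← hz] at e1
      rw [← hz'] at e2
      exact e1.trans e2.symm
    funext i
    fin_cases i
    · exact hb 0 (Or.inl rfl)
    · exact hb 1 (Or.inr (Or.inl rfl))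
    · exact hb 2 (Or.inr (Or.inr rfl))
    · change ((1 / 2 + (cos θ * (z 3 - 1 / 2) - sin θ * z 4) : ℝ) : UnitAddCircle) =
        ((z' 3 : ℝ) : UnitAddCircle)
      rw [← h3]
      congr 1
      ring
    · change ((sin θ * (z 3 - 1 / 2) + cos θ * z 4 : ℝ) : UnitAddCircle) =
        ((z' 4 : ℝ) : UnitAddCircle)
      rw [← h4]

theorem Both.period_G (hX : Both X p g c) {k : ℕ} (hk : 2 ≤ k) {m : Torus 5} (hm : m ∈ G k)
    {s : ℝ} (hs : tflow X s m = m) : ∃ n : ℤ, spd g c k * s = 2 * π * n := by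
  obtain ⟨z, hz, h25, hv, hI, hd⟩ := G_lift hk hm
  rw [← hz, hX.disc.good.tflow_cov] at hs
  obtain ⟨l, hl⟩ := cov_eq_cov_iff.1 hs.symm
  have hmem := hX.disc.mem h25 s
  rw [hl] at hmem
  obtain ⟨l3, l4⟩ := tr_small h25 hmem
  rw [hX.flow_G h25 hv hI hd] at hl
  have e3 := congrFun hl 3
  have e4 := congrFun hl 4
  rw [Rot_three] at e3
  rw [Rot_four] at e4
  simp only [tr, l3, l4, Int.cast_zero, add_zero] at e3 e4
  have hpos : 0 < (z 3 - 1 / 2) ^ 2 + z 4 ^ 2 := hI.1
  have hcos : (cos (spd g c k * s) - 1) * ((z 3 - 1 / 2) ^ 2 + z 4 ^ 2) = 0 := by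
    linear_combination (z 3 - 1 / 2) * e3 + z 4 * e4
  have h1 : cos (spd g c k * s) = 1 := by
    have := (mul_eq_zero.1 hcos).resolve_right hpos.ne'
    linarith
  obtain ⟨n, hn⟩ := (cos_eq_one_iff _).1 h1
  exact ⟨n, by rw [← hn]; ring⟩

theorem Both.return_G (hX : Both X p g c) {k : ℕ} (hk : 2 ≤ k) {m : Torus 5} (hm : m ∈ G k)
    {s : ℝ} {n : ℤ} (hs : spd g c k * s = 2 * π * n) : tflow X s m = m := by
  obtain ⟨z, hz, h25, hv, hI, hd⟩ := G_lift hk hm
  rw [← hz, hX.disc.good.tflow_cov, hX.flow_G h25 hv hI hd, hs]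
  congr 1
  have h1 : 2 * π * n = n * (2 * π) := by ring
  have hc : cos (2 * π * n) = 1 := by rw [h1]; exact cos_int_mul_two_pi n
  have hsn : sin (2 * π * n) = 0 := by
    rw [h1]
    have := sin_int_mul_pi (2 * n)
    push_cast at this
    rw [← this]; congr 1; ring
  rw [Rot, hc, hsn]
  funext i
  fin_cases i
  · rfl
  · rfl
  · rfl
  · change 1 / 2 + (1 * (z 3 - 1 / 2) - 0 * z 4) = z 3
    ring
  · change 0 * (z 3 - 1 / 2) + 1 * z 4 = z 4
    ring

/-- Periodic points in the drift region lie on the special circles. -/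
theorem Both.mem_G (hX : Both X p g c) {m : Torus 5} (hm : uT m ∈ Ioo (0 : ℝ) (1 / 100))
    {s : ℝ} (hs : 0 < s) (hper : tflow X s m = m) : ∃ k : ℕ, 2 ≤ k ∧ m ∈ G k := by
  have hu : uF (lift m) = uT m := by rw [← uT_cov, cov_lift]
  have hlt := hm.2
  obtain ⟨l, hl⟩ := exists_lift_vE (lift m) (by rw [hu]; linarith)
  have hcov : cov (tr l (lift m)) = m := by rw [cov_tr, cov_lift]
  set z := tr l (lift m) with hz
  have hv : vE z = uT m := by
    rw [← uF_eq_vE (by linarith), hz, uF_tr, hu]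
  have hI : vE z ∈ Ioo (0 : ℝ) (1 / 100) := by rw [hv]; exact hm
  rw [← hcov] at hper
  have hd := (hX.disc.drift_zero hX.nonneg hX.pos hl hs hper).resolve_left hI.1.ne'
  obtain ⟨⟨k, hk, hvk⟩, hc⟩ := (drift_zero_iff hI).1 hd
  refine ⟨k, hk, ?_, ?_⟩
  · intro i hi
    have := cos_pi_eq_zero_iff.1 (hc i hi)
    rw [← hcov]
    exact this
  · rw [← hv, hvk]

theorem Both.strongIso_G (hX : Both X p g c) {k : ℕ} (hk : 2 ≤ k) :
    StrongIso (tflow X) (G k) := by
  have hk2 : (2 : ℝ) ≤ k := by exact_mod_cast hk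
  refine ⟨uT ⁻¹' Ioo (1 / (100 * ((k : ℝ) + 1))) (1 / (100 * ((k : ℝ) - 1))),
    isOpen_Ioo.preimage continuous_uT, ?_, ?_⟩
  · intro m hm
    rw [mem_preimage, hm.2]
    constructor
    · apply one_div_lt_one_div_of_lt <;> linarith
    · apply one_div_lt_one_div_of_lt <;> linarith
  · rintro m hm ⟨s, hs, hper⟩
    rw [mem_preimage] at hm
    have h0 : (0 : ℝ) < 1 / (100 * ((k : ℝ) + 1)) := by positivity
    have h1 : 1 / (100 * ((k : ℝ) - 1)) ≤ 1 / 100 := by
      apply one_div_le_one_div_of_le <;> linarith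
    obtain ⟨l, hl, hml⟩ := hX.mem_G (m := m) ⟨h0.trans hm.1, hm.2.trans_le h1⟩ hs hper
    have hl2 : (2 : ℝ) ≤ l := by exact_mod_cast hl
    have hu := hml.2
    rw [hu] at hm
    have e1 : (l : ℝ) < k + 1 := by
      have := hm.1
      rw [one_div_lt_one_div (by positivity) (by positivity)] at this
      linarith
    have e2 : (k : ℝ) - 1 < l := by
      have := hm.2
      rw [one_div_lt_one_div (by positivity) (by nlinarith)] at this
      linarith
    have e3 : l < k + 1 := by exact_mod_cast e1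
    have e4 : k < l + 1 := by
      have : (k : ℝ) < l + 1 := by linarith
      exact_mod_cast this
    have : l = k := by omega
    rw [← this]
    exact hml

/-- Classification of isolated closed orbits. -/
theorem Both.classify (hX : Both X p g c) {m : Torus 5} {s T : ℝ} (hs : 0 < s) (hsT : s ≤ T)
    (hper : tflow X s m = m) (hiso : WeakIso (tflow X) T (orb (tflow X) m)) :
    ∃ k : ℕ, 2 ≤ k ∧ m ∈ G k ∧ orb (tflow X) m = G k := by
  have hu : uF (lift m) = uT m := by rw [← uT_cov, cov_lift]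
  by_cases h1 : 1 / 25 ≤ uT m
  · exfalso
    rw [← cov_lift m] at hper hiso
    exact hX.out.not_weakIso (by rw [hu]; exact h1) hs hsT hper hiso
  · by_cases h2 : uT m ∈ Ioo (0 : ℝ) (1 / 100)
    · obtain ⟨k, hk, hm⟩ := hX.mem_G h2 hs hper
      exact ⟨k, hk, hm, hX.orb_G hk hm⟩
    · exfalso
      obtain ⟨l, hl⟩ := exists_lift_vE (lift m) (by rw [hu]; exact not_le.1 h1)
      have hcov : cov (tr l (lift m)) = m := by rw [cov_tr, cov_lift]
      have hv : vE (tr l (lift m)) = uT m := by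
        rw [← uF_eq_vE (by linarith), uF_tr, hu]
      rw [← hcov] at hper hiso
      exact hX.disc.not_weakIso hl (by rw [hv]; exact h2) hs hsT hper hiso

theorem G_nonempty {k : ℕ} (hk : 2 ≤ k) : (G k).Nonempty := by
  have hk2 : (2 : ℝ) ≤ k := by exact_mod_cast hk
  have h0 : (0 : ℝ) < 1 / (100 * k) := by positivity
  have h1 : 1 / (100 * (k : ℝ)) < 1 / 100 := by
    apply one_div_lt_one_div_of_lt <;> linarith
  refine ⟨cov ![1 / 2, 1 / 2, 1 / 2, 1 / 2 + √(1 / (100 * k)), 0], ?_, ?_⟩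
  · intro i hi
    rcases hi with rfl | rfl | rfl
    · rfl
    · rfl
    · rfl
  · have hv : vE ![1 / 2, 1 / 2, 1 / 2, 1 / 2 + √(1 / (100 * k)), 0] = 1 / (100 * (k : ℝ)) := by
      rw [vE]
      change (1 / 2 + √(1 / (100 * (k : ℝ))) - 1 / 2) ^ 2 + 0 ^ 2 = _
      rw [add_sub_cancel_left, Real.sq_sqrt h0.le]
      ring
    rw [uT_cov, uF_eq_vE (by rw [hv]; linarith), hv]

theorem G_injective {k l : ℕ} (hk : 2 ≤ k) (hl : 2 ≤ l) (h : G k = G l) : k = l := by
  obtain ⟨m, hm⟩ := G_nonempty hk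
  have hm' : m ∈ G l := by rw [← h]; exact hm
  have h1 := hm.2
  rw [hm'.2] at h1
  have hk2 : (0 : ℝ) < k := by
    have : 0 < k := by omega
    exact_mod_cast this
  have hl2 : (0 : ℝ) < l := by
    have : 0 < l := by omega
    exact_mod_cast this
  rw [div_eq_div_iff (by positivity) (by positivity)] at h1
  have : (k : ℝ) = l := by linarith
  exact_mod_cast this

end Pool.Agent.MP_1a349f_an
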