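import Mathlib

set_option autoImplicit false

/-!
# Exponential growth rates of counting functions
-/

namespace Pool.Agent.MP_1a349f_an

open Set Filter Topology
open scoped ENNReal

theorem limsup_growth_zero {α : Type*} (P : ℝ → Set α) (G : ℕ → α)
    (h1 : ∀ t : ℝ, 2 ≤ t → (P t).Nonempty)
    (h2 : ∀ t : ℝ, ∀ O ∈ P t, ∃ k : ℕ, 2 ≤ k ∧ (k : ℝ) ≤ t ∧ O = G k) :
    limsup (fun t : ℝ => ENNReal.log ((P t).encard : ℝ≥0∞) / (t : EReal)) atTop = 0 := by
  have hup : ∀ t : ℝ, 2 ≤ t → ((P t).encard : ℝ≥0∞) ≤ ENNReal.ofReal t := by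
    intro t ht
    have hsub : P t ⊆ G '' ((Finset.Icc 1 ⌊t⌋₊ : Finset ℕ) : Set ℕ) := by
      intro O hO
      obtain ⟨k, hk, hkt, rfl⟩ := h2 t O hO
      refine ⟨k, ?_, rfl⟩
      rw [Finset.mem_coe, Finset.mem_Icc]
      exact ⟨by omega, Nat.le_floor hkt⟩
    have h3 : (P t).encard ≤ (⌊t⌋₊ : ℕ∞) := by
      calc (P t).encard ≤ (G '' ((Finset.Icc 1 ⌊t⌋₊ : Finset ℕ) : Set ℕ)).encard :=
            encard_le_encard hsub
        _ ≤ ((Finset.Icc 1 ⌊t⌋₊ : Finset ℕ) : Set ℕ).encard := encard_image_le _ _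
        _ = (⌊t⌋₊ : ℕ∞) := by
            rw [encard_coe_eq_coe_finsetCard, Nat.card_Icc]
            simp
    calc ((P t).encard : ℝ≥0∞) ≤ ((⌊t⌋₊ : ℕ∞) : ℝ≥0∞) := ENat.toENNReal_mono h3
      _ = ((⌊t⌋₊ : ℕ) : ℝ≥0∞) := by simp
      _ = ENNReal.ofReal (⌊t⌋₊ : ℝ) := by simp
      _ ≤ ENNReal.ofReal t := ENNReal.ofReal_le_ofReal (Nat.floor_le (by linarith))
  have hlow : ∀ t : ℝ, 2 ≤ t → (1 : ℝ≥0∞) ≤ ((P t).encard : ℝ≥0∞) := by
    intro t ht
    have h3 : (1 : ℕ∞) ≤ (P t).encard := one_le_encard_iff_nonempty.2 (h1 t ht)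
    calc (1 : ℝ≥0∞) = ((1 : ℕ∞) : ℝ≥0∞) := by simp
      _ ≤ _ := ENat.toENNReal_mono h3
  have hlog : Tendsto (fun t : ℝ => ((Real.log t / t : ℝ) : EReal)) atTop (𝓝 0) := by
    have h3 : Tendsto (fun t : ℝ => Real.log t / t) atTop (𝓝 0) := by
      have := Real.isLittleO_log_id_atTop.tendsto_div_nhds_zero
      simpa using this
    have h4 := (continuous_coe_real_ereal.tendsto 0).comp h3
    simpa [Function.comp_def] using h4
  refine Tendsto.limsup_eq ?_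
  refine tendsto_of_tendsto_of_tendsto_of_le_of_le' tendsto_const_nhds hlog ?_ ?_
  · filter_upwards [eventually_ge_atTop (2 : ℝ)] with t ht
    have h3 : (0 : EReal) ≤ ENNReal.log ((P t).encard : ℝ≥0∞) := by
      rw [← ENNReal.log_one]
      exact ENNReal.log_monotone (hlow t ht)
    exact EReal.div_nonneg h3 (by exact_mod_cast (by linarith : (0 : ℝ) ≤ t))
  · filter_upwards [eventually_ge_atTop (2 : ℝ)] with t ht
    have ht0 : 0 < t := by linarith
    have h3 : ENNReal.log ((P t).encard : ℝ≥0∞) ≤ ((Real.log t : ℝ) : EReal) := by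
      rw [← ENNReal.log_ofReal_of_pos ht0]
      exact ENNReal.log_monotone (hup t ht)
    have h4 := EReal.div_le_div_right_of_nonneg
      (by exact_mod_cast ht0.le : (0 : EReal) ≤ (t : EReal)) h3
    rwa [← EReal.coe_div] at h4

theorem limsup_growth_top {α : Type*} (P : ℝ → Set α) (h : ∀ t : ℝ, 1 ≤ t → (P t).Infinite) :
    limsup (fun t : ℝ => ENNReal.log ((P t).encard : ℝ≥0∞) / (t : EReal)) atTop = ⊤ := by
  refine Tendsto.limsup_eq ?_
  refine tendsto_const_nhds.congr' ?_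
  filter_upwards [eventually_ge_atTop (1 : ℝ)] with t ht
  have ht0 : 0 < t := by linarith
  rw [(h t ht).encard_eq, ENat.toENNReal_top, ENNReal.log_top,
    EReal.top_div_of_pos_ne_top (by exact_mod_cast ht0) (EReal.coe_ne_top t)]

end Pool.Agent.MP_1a349f_an
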